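import Pool.Agent.Work.MP_b73316_nt.Defs

/-!
Module Ser (size S): first properties of `e4i`, `tt`, `xx`.

PROOF.  `mul_invOfUnit`/`invOfUnit_mul` with `constantCoeff e4 = 1` (`e4_coeff_zero`,
`coeff_zero_eq_constantCoeff_apply`).  `dl = X * d` with `constantCoeff d = 1`
(`dl_coeff_zero`, `dl_coeff_one`), so `tt = X * (d * e4i^3)`, `tt^l = X^l * (unit of constant
coefficient 1)`.  `v_eq`: `1 - 1728 tt = e6^2 e4i^3` from `dl_spec` (`1728 dl = e4^3 - e6^2`) and
`e4 * e4i = 1`.  The last theorem: `toR R` is the map to `R⟦X⟧`, a ring homomorphism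
(`PowerSeries.map`); `aeval (toR R tt) P = ∑ P.coeff i • (toR R tt)^i`; the least `v` with
`P.coeff v ≠ 0` is `≤ natDegree P < n`, and `coeff v` of the series is `P.coeff v` since
`tt^i` starts with `q^i`.
-/

set_option autoImplicit false

open PowerSeries Finset MP0f16e1

namespace Pool.Agent.Work.MP_b73316_nt

theorem e4_mul_e4i : e4 * e4i = 1 := by
  unfold e4i
  refine PowerSeries.mul_invOfUnit e4 1 ?_
  rw [← coeff_zero_eq_constantCoeff_apply, e4_coeff_zero, Units.val_one]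

theorem e4i_coeff_zero : coeff 0 e4i = 1 := by
  unfold e4i
  rw [coeff_zero_eq_constantCoeff_apply, constantCoeff_invOfUnit]
  simp

theorem xx_coeff_zero : coeff 0 xx = 1 := by
  unfold xx
  rw [coeff_zero_eq_constantCoeff_apply, map_mul, ← coeff_zero_eq_constantCoeff_apply,
    ← coeff_zero_eq_constantCoeff_apply, e6_coeff_zero, e4i_coeff_zero, mul_one]

theorem tt_mul : tt * e4 ^ 3 = dl := by
  unfold tt
  calc dl * e4i ^ 3 * e4 ^ 3 = dl * (e4 * e4i) ^ 3 := by ring
    _ = dl := by rw [e4_mul_e4i, one_pow, mul_one]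

theorem v_eq : (1 - 1728 * tt) * e4 ^ 3 = e6 ^ 2 := by
  calc (1 - 1728 * tt) * e4 ^ 3 = e4 ^ 3 - 1728 * (tt * e4 ^ 3) := by ring
    _ = e6 ^ 2 := by
      rw [tt_mul, dl_spec]
      ring

private theorem tt_fac : ∃ c : PowerSeries ℤ, tt = X * c ∧ coeff 0 c = 1 := by
  have h0 : X ∣ dl := by
    rw [X_dvd_iff, ← coeff_zero_eq_constantCoeff_apply, dl_coeff_zero]
  obtain ⟨d, hd⟩ := h0
  have h1 : coeff 0 d = 1 := by
    have h2 := dl_coeff_one
    rw [hd] at h2
    have h3 := coeff_succ_X_mul 0 d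
    rw [zero_add] at h3
    rw [← h3]
    exact h2
  refine ⟨d * e4i ^ 3, ?_, ?_⟩
  · unfold tt
    rw [hd]
    ring
  · rw [coeff_zero_eq_constantCoeff_apply, map_mul, map_pow, ← coeff_zero_eq_constantCoeff_apply,
      ← coeff_zero_eq_constantCoeff_apply, h1, e4i_coeff_zero]
    norm_num

theorem tt_pow_coeff_lt {l k : ℕ} (h : k < l) : coeff k (tt ^ l) = 0 := by
  obtain ⟨c, hc, _⟩ := tt_fac
  have h1 : X ^ l ∣ tt ^ l := pow_dvd_pow_of_dvd ⟨c, hc⟩ l
  exact X_pow_dvd_iff.1 h1 k h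

theorem tt_pow_coeff_self (l : ℕ) : coeff l (tt ^ l) = 1 := by
  obtain ⟨c, hc, hc0⟩ := tt_fac
  rw [hc, mul_pow]
  have h1 := coeff_X_pow_mul (c ^ l) l 0
  rw [zero_add] at h1
  rw [h1, coeff_zero_eq_constantCoeff_apply, map_pow, ← coeff_zero_eq_constantCoeff_apply, hc0,
    one_pow]

theorem poly_eq_zero {R : Type*} [CommRing R] (P : Polynomial R) (n : ℕ) (hn : P.natDegree < n)
    (h : ∀ k < n, coeff k (Polynomial.aeval (toR R tt) P) = 0) : P = 0 := by
  by_contra hP
  set v := P.natTrailingDegree with hv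
  have hv1 : v ≤ P.natDegree := Polynomial.natTrailingDegree_le_natDegree P
  have hc : ∀ k i, coeff k ((toR R tt) ^ i) = ((coeff k (tt ^ i) : ℤ) : R) := by
    intro k i
    unfold toR
    rw [← map_pow, coeff_map]
    rfl
  have h1 : coeff v (Polynomial.aeval (toR R tt) P) = P.coeff v := by
    rw [Polynomial.aeval_eq_sum_range, map_sum, Finset.sum_eq_single v]
    · rw [PowerSeries.coeff_smul, hc, tt_pow_coeff_self, Int.cast_one, smul_eq_mul, mul_one]
    · intro i _ hi
      rw [PowerSeries.coeff_smul, hc]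
      rcases lt_or_gt_of_ne hi with h2 | h2
      · rw [Polynomial.coeff_eq_zero_of_lt_natTrailingDegree h2, zero_smul]
      · rw [tt_pow_coeff_lt h2, Int.cast_zero, smul_zero]
    · intro hv2
      exact absurd (Finset.mem_range.2 (by omega)) hv2
  have h2 := h v (by omega)
  rw [h1] at h2
  exact Polynomial.trailingCoeff_nonzero_iff_nonzero.2 hP h2

end Pool.Agent.Work.MP_b73316_nt
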