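import Pool.Agent.Work.MP_b73316_nt.BdA
import Pool.Agent.Work.MP_b73316_nt.Ser

/-!
Module BdD (size S-M): `ℓ¹` norm of `Δ` at `r = 7/2000`.

PROOF.  (1) `theta ℤ dl = e2 * dl`: apply `theta ℤ` (a derivation: prove the Leibniz rule
`theta (f g) = theta f * g + f * theta g` from `coeff_mul`; it may be available in
`Pool/Agent/Work/MP_0f16e1_nt/Deriv.lean`) to `dl_spec : 1728 dl = e4^3 - e6^2`:
`1728 θ dl = 3 e4² θ e4 - 2 e6 θ e6`, and with `ram4 : 3 θ e4 = e2 e4 - e6`,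
`ram6 : 2 θ e6 = e2 e6 - e4²` this is `e4² (e2 e4 - e6) - e6 (e2 e6 - e4²) = e2 (e4³ - e6²) =
1728 e2 dl`; cancel `1728` in `ℤ⟦q⟧`.
(2) With `a_n = coeff n dl`, `a_0 = 0`, `a_1 = 1`: `n a_n = ∑_{k} coeff k e2 * a_{n-k}`, so
`(n - 1) a_n = -24 ∑_{k=1}^{n-1} σ₁(k) a_{n-k}` and for `n ≥ 2`, `|a_n| ≤ 24 ∑_{k ≥ 1} σ₁(k) |a_{n-k}|`.
(3) Let `S_N = ∑_{n<N} |a_n| r^n`.  Then `S_N ≤ r + 24 (∑_{k<N} σ₁(k) r^k) S_N`, and
`24 ∑_k σ₁(k) r^k ≤ 24 (r + 3 r² + ∑_{k≥3} k² r^k) ≤ 0.0849`, more precisely `σ₁(k) ≤ k²` and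
`k² ≤ 9·2^(k-3)` for `k ≥ 3` give the tail `≤ 24 · 9 r³/(1-2r) ≤ 0.00001`,
`24 (r + 3 r²) = 0.084882`.  So `S_N ≤ r / (1 - 0.0849) ≤ 0.0038248 ≤ 0.00383`.
-/

set_option autoImplicit false

open PowerSeries Finset MP0f16e1
open scoped ArithmeticFunction.sigma

namespace Pool.Agent.Work.MP_b73316_nt

private theorem bdD_theta_mul (f h : PowerSeries ℤ) :
    theta ℤ (f * h) = theta ℤ f * h + f * theta ℤ h := by
  ext n
  have h1 : coeff n (theta ℤ (f * h)) = (n : ℤ) * coeff n (f * h) := by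
    simp [theta]
  rw [h1, map_add, PowerSeries.coeff_mul, PowerSeries.coeff_mul, PowerSeries.coeff_mul,
    ← Finset.sum_add_distrib, Finset.mul_sum]
  refine Finset.sum_congr rfl fun p hp => ?_
  have h2 : p.1 + p.2 = n := by simpa using hp
  simp only [theta, LinearMap.coe_mk, AddHom.coe_mk, PowerSeries.coeff_mk]
  rw [← h2]
  push_cast
  ring

theorem theta_dl : theta ℤ dl = e2 * dl := by
  have h0 : (1728 : PowerSeries ℤ) * theta ℤ dl = theta ℤ (e4 ^ 3 - e6 ^ 2) := by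
    rw [← dl_spec]
    have e : (1728 : PowerSeries ℤ) * dl = (1728 : ℤ) • dl := by
      rw [zsmul_eq_mul]
      norm_num
    rw [e, map_smul, zsmul_eq_mul]
    norm_num
  have h1 : theta ℤ (e4 ^ 3 - e6 ^ 2) = 3 * e4 ^ 2 * theta ℤ e4 - 2 * e6 * theta ℤ e6 := by
    rw [map_sub, pow_succ, pow_two, pow_two, bdD_theta_mul, bdD_theta_mul, bdD_theta_mul]
    ring
  have h4 := ram4
  have h6 := ram6
  have hd := dl_spec
  have key : (1728 : PowerSeries ℤ) * theta ℤ dl = 1728 * (e2 * dl) := by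
    linear_combination h0 + h1 + e4 ^ 2 * h4 - e6 * h6 - e2 * hd
  have hne : (1728 : PowerSeries ℤ) ≠ 0 := by
    intro h
    have h2 := congrArg constantCoeff h
    rw [map_ofNat, map_zero] at h2
    norm_num at h2
  exact mul_left_cancel₀ hne key

/-- `|E₂ - 1|` -/
private def bdD_w (i : ℕ) : ℝ := if i = 0 then 0 else 24 * ((σ 1 i : ℕ) : ℝ)

private theorem bdD_w_nonneg (i : ℕ) : 0 ≤ bdD_w i := by
  unfold bdD_w
  split_ifs
  · exact le_rfl
  · positivity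

private theorem bdD_w_eq (i : ℕ) : |((coeff i (e2 - 1) : ℤ) : ℝ)| = bdD_w i := by
  unfold bdD_w
  rw [map_sub, coeff_one]
  by_cases h : i = 0
  · subst h
    rw [e2_coeff_zero]
    simp
  · rw [if_neg h, if_neg h, e2, coeff_mk, if_neg h]
    push_cast
    rw [sub_zero, abs_mul]
    norm_num

private theorem bdD_rec (n : ℕ) : |((coeff n dl : ℤ) : ℝ)| ≤ (if n = 1 then 1 else 0) +
    ∑ p ∈ antidiagonal n, bdD_w p.1 * |((coeff p.2 dl : ℤ) : ℝ)| := by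
  have hnn : 0 ≤ ∑ p ∈ antidiagonal n, bdD_w p.1 * |((coeff p.2 dl : ℤ) : ℝ)| :=
    Finset.sum_nonneg fun p _ => mul_nonneg (bdD_w_nonneg _) (abs_nonneg _)
  rcases Nat.lt_or_ge n 2 with hn | hn
  · interval_cases n
    · rw [dl_coeff_zero]
      simpa using hnn
    · rw [dl_coeff_one, if_pos rfl]
      simp only [Int.cast_one, abs_one]
      linarith
  · have h1 : (e2 - 1) * dl = theta ℤ dl - dl := by
      rw [theta_dl]
      ring
    have h2 := congrArg (coeff n) h1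
    rw [coeff_mul, map_sub] at h2
    have h3 : coeff n (theta ℤ dl) = (n : ℤ) * coeff n dl := by
      simp [theta]
    rw [h3] at h2
    have h4 : ((n : ℝ) - 1) * ((coeff n dl : ℤ) : ℝ) =
        ∑ p ∈ antidiagonal n, ((coeff p.1 (e2 - 1) : ℤ) : ℝ) * ((coeff p.2 dl : ℤ) : ℝ) := by
      have h5 := congrArg (fun z : ℤ => (z : ℝ)) h2
      push_cast at h5
      rw [h5]
      ring
    have hn' : (1 : ℝ) ≤ (n : ℝ) - 1 := by
      have : (2 : ℝ) ≤ n := by exact_mod_cast hn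
      linarith
    calc |((coeff n dl : ℤ) : ℝ)| ≤ ((n : ℝ) - 1) * |((coeff n dl : ℤ) : ℝ)| :=
          le_mul_of_one_le_left (abs_nonneg _) hn'
      _ = |((n : ℝ) - 1) * ((coeff n dl : ℤ) : ℝ)| := by
          rw [abs_mul, abs_of_nonneg (by linarith : (0 : ℝ) ≤ (n : ℝ) - 1)]
      _ = |∑ p ∈ antidiagonal n, ((coeff p.1 (e2 - 1) : ℤ) : ℝ) * ((coeff p.2 dl : ℤ) : ℝ)| := by
          rw [h4]
      _ ≤ ∑ p ∈ antidiagonal n,
            |((coeff p.1 (e2 - 1) : ℤ) : ℝ) * ((coeff p.2 dl : ℤ) : ℝ)| :=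
          Finset.abs_sum_le_sum_abs _ _
      _ = ∑ p ∈ antidiagonal n, bdD_w p.1 * |((coeff p.2 dl : ℤ) : ℝ)| := by
          refine Finset.sum_congr rfl fun p _ => ?_
          rw [abs_mul, bdD_w_eq]
      _ ≤ _ := by
          rw [if_neg (by omega)]
          linarith

private theorem bdD_cauchy (N : ℕ) (u v : ℕ → ℝ) (hu : ∀ i, 0 ≤ u i) (hv : ∀ i, 0 ≤ v i) :
    ∑ n ∈ range N, ∑ p ∈ antidiagonal n, u p.1 * v p.2 ≤
      (∑ i ∈ range N, u i) * ∑ j ∈ range N, v j := by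
  classical
  have h1 : ∀ n ∈ range N, ∑ p ∈ antidiagonal n, u p.1 * v p.2 =
      ∑ p ∈ (range N ×ˢ range N) with p.1 + p.2 = n, u p.1 * v p.2 := by
    intro n hn
    apply Finset.sum_congr _ fun _ _ => rfl
    ext ⟨a, b⟩
    simp only [HasAntidiagonal.mem_antidiagonal, mem_filter, mem_product, mem_range] at hn ⊢
    constructor
    · intro h
      refine ⟨⟨?_, ?_⟩, h⟩ <;> omega
    · exact fun h => h.2
  rw [Finset.sum_congr rfl h1, Finset.sum_mul_sum, ← Finset.sum_product']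
  exact Finset.sum_fiberwise_le_sum_of_sum_fiber_nonneg fun y _ =>
    Finset.sum_nonneg fun p _ => mul_nonneg (hu _) (hv _)

private theorem bdD_sq (k : ℕ) : (k + 1) ^ 2 ≤ 4 ^ k := by
  induction k with
  | zero => norm_num
  | succ m ih =>
    have h1 : (m + 1 + 1) ^ 2 ≤ 4 * (m + 1) ^ 2 := by
      rw [show 4 * (m + 1) ^ 2 = (m + 1 + 1) ^ 2 + (3 * m ^ 2 + 4 * m) by ring]
      exact Nat.le_add_right _ _
    calc (m + 1 + 1) ^ 2 ≤ 4 * (m + 1) ^ 2 := h1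
      _ ≤ 4 * 4 ^ m := Nat.mul_le_mul_left 4 ih
      _ = 4 ^ (m + 1) := by rw [pow_succ]; ring

private theorem bdD_wsum (N : ℕ) :
    ∑ i ∈ range N, bdD_w i * (7 / 2000 : ℝ) ^ i ≤ 86 / 1000 := by
  have h1 : ∀ i, bdD_w (i + 1) * (7 / 2000 : ℝ) ^ (i + 1) ≤
      24 * (7 / 2000) * (7 / 500 : ℝ) ^ i := by
    intro i
    have e1 : ((σ 1 (i + 1) : ℕ) : ℝ) ≤ 4 ^ i := by
      have e2 := (ArithmeticFunction.sigma_le_pow_succ 1 (i + 1)).trans (bdD_sq i)
      exact_mod_cast e2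
    unfold bdD_w
    rw [if_neg (by omega)]
    calc 24 * ((σ 1 (i + 1) : ℕ) : ℝ) * (7 / 2000 : ℝ) ^ (i + 1)
        ≤ 24 * 4 ^ i * (7 / 2000 : ℝ) ^ (i + 1) := by gcongr
      _ = 24 * (7 / 2000) * (7 / 500 : ℝ) ^ i := by
          rw [show (7 / 500 : ℝ) = 4 * (7 / 2000) by norm_num, mul_pow, pow_succ]
          ring
  have h2 : ∑ i ∈ range N, bdD_w i * (7 / 2000 : ℝ) ^ i ≤
      ∑ i ∈ range N, bdD_w (i + 1) * (7 / 2000 : ℝ) ^ (i + 1) := by
    rcases N with _ | M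
    · simp
    · rw [Finset.sum_range_succ', Finset.sum_range_succ]
      have e1 : bdD_w 0 * (7 / 2000 : ℝ) ^ 0 = 0 := by simp [bdD_w]
      have e2 : 0 ≤ bdD_w (M + 1) * (7 / 2000 : ℝ) ^ (M + 1) :=
        mul_nonneg (bdD_w_nonneg _) (by positivity)
      linarith
  calc ∑ i ∈ range N, bdD_w i * (7 / 2000 : ℝ) ^ i
      ≤ ∑ i ∈ range N, bdD_w (i + 1) * (7 / 2000 : ℝ) ^ (i + 1) := h2
    _ ≤ ∑ i ∈ range N, 24 * (7 / 2000) * (7 / 500 : ℝ) ^ i :=
        Finset.sum_le_sum fun i _ => h1 i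
    _ = 24 * (7 / 2000) * ∑ i ∈ range N, (7 / 500 : ℝ) ^ i := by rw [Finset.mul_sum]
    _ ≤ 24 * (7 / 2000) * (1 - 7 / 500)⁻¹ := by
        apply mul_le_mul_of_nonneg_left _ (by norm_num)
        exact sum_le_hasSum _ (fun _ _ => by positivity)
          (hasSum_geometric_of_lt_one (by norm_num) (by norm_num : (7 / 500 : ℝ) < 1))
    _ ≤ 86 / 1000 := by norm_num

theorem bd_dl : Bd (7 / 2000) (383 / 100000) (toR ℝ dl) := by
  intro N
  set r : ℝ := 7 / 2000 with hr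
  have h0 : ∀ n, |coeff n (toR ℝ dl)| = |((coeff n dl : ℤ) : ℝ)| := by
    intro n
    rw [Basis_coeff_toR]
  simp only [h0]
  set v : ℕ → ℝ := fun j => |((coeff j dl : ℤ) : ℝ)| * r ^ j with hv
  set u : ℕ → ℝ := fun i => bdD_w i * r ^ i with hu
  have hr0 : 0 < r := by rw [hr]; norm_num
  have hv0 : ∀ j, 0 ≤ v j := fun j => by positivity
  have hu0 : ∀ j, 0 ≤ u j := fun j => mul_nonneg (bdD_w_nonneg _) (by positivity)
  have h1 : ∀ n, v n ≤ (if n = 1 then r else 0) + ∑ p ∈ antidiagonal n, u p.1 * v p.2 := by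
    intro n
    have h2 := mul_le_mul_of_nonneg_right (bdD_rec n) (pow_nonneg hr0.le n)
    have h3 : (∑ p ∈ antidiagonal n, bdD_w p.1 * |((coeff p.2 dl : ℤ) : ℝ)|) * r ^ n =
        ∑ p ∈ antidiagonal n, u p.1 * v p.2 := by
      rw [Finset.sum_mul]
      refine Finset.sum_congr rfl fun p hp => ?_
      have h4 : p.1 + p.2 = n := by simpa using hp
      simp only [hu, hv]
      rw [← h4, pow_add]
      ring
    rw [add_mul, h3] at h2
    refine h2.trans (add_le_add ?_ le_rfl)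
    split_ifs with h5
    · subst h5
      rw [one_mul, pow_one]
    · rw [zero_mul]
  have h2 : ∑ n ∈ range N, v n ≤ r + (∑ i ∈ range N, u i) * ∑ j ∈ range N, v j := by
    calc ∑ n ∈ range N, v n
        ≤ ∑ n ∈ range N, ((if n = 1 then r else 0) + ∑ p ∈ antidiagonal n, u p.1 * v p.2) :=
          Finset.sum_le_sum fun n _ => h1 n
      _ = (∑ n ∈ range N, if n = 1 then r else 0) +
            ∑ n ∈ range N, ∑ p ∈ antidiagonal n, u p.1 * v p.2 := Finset.sum_add_distrib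
      _ ≤ r + (∑ i ∈ range N, u i) * ∑ j ∈ range N, v j := by
          refine add_le_add ?_ (bdD_cauchy N u v hu0 hv0)
          rw [Finset.sum_ite_eq']
          split_ifs
          · exact le_rfl
          · exact hr0.le
  have h3 : ∑ i ∈ range N, u i ≤ 86 / 1000 := bdD_wsum N
  have hS : 0 ≤ ∑ j ∈ range N, v j := Finset.sum_nonneg fun j _ => hv0 j
  have h4 : (∑ i ∈ range N, u i) * ∑ j ∈ range N, v j ≤ 86 / 1000 * ∑ j ∈ range N, v j :=
    mul_le_mul_of_nonneg_right h3 hS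
  show ∑ n ∈ range N, v n ≤ 383 / 100000
  have h5 : r = 7 / 2000 := hr
  rw [h5] at h2
  linarith

end Pool.Agent.Work.MP_b73316_nt
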