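import Pool.Agent.Work.MP_b73316_nt.BdA

/-!
Module BdF (size S): `ℓ¹` norm of `F_i` at `r = 7/2000` is finite.

PROOF.  `i = 0`: `FF = 1`, `bd_one`.  `i > 0`: `0 ≤ coeff n (Fs b) ≤ number of divisors ≤ n ≤ 2^n`
(`n ≥ 1`, each term `(d^b)⁻¹ ≤ 1`), so `∑_{n<N} |..| r^n ≤ ∑ (2r)^n ≤ 1/(1-2r)`.
-/

set_option autoImplicit false

open PowerSeries Finset

namespace Pool.Agent.Work.MP_b73316_nt

private theorem coeff_Fs_bound (b n : ℕ) :
    0 ≤ coeff n (Fs b) ∧ coeff n (Fs b) ≤ (2 : ℚ) ^ n := by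
  rw [Fs, coeff_mk]
  constructor
  · apply Finset.sum_nonneg
    intro d _
    positivity
  · calc ∑ d ∈ n.divisors, ((d : ℚ) ^ b)⁻¹ ≤ ∑ d ∈ n.divisors, (1 : ℚ) := by
          apply Finset.sum_le_sum
          intro d hd
          have h1 : 1 ≤ d := Nat.pos_of_mem_divisors hd
          have h2 : (1 : ℚ) ≤ (d : ℚ) ^ b := one_le_pow₀ (by exact_mod_cast h1)
          exact inv_le_one_of_one_le₀ h2
      _ = (n.divisors.card : ℚ) := by simp
      _ ≤ (n : ℚ) := by exact_mod_cast Nat.card_divisors_le_self n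
      _ ≤ (2 : ℚ) ^ n := by exact_mod_cast (Nat.lt_two_pow_self (n := n)).le

theorem bd_FF (kap : ℕ → ℕ) (i : ℕ) :
    ∃ C : ℝ, Bd (7 / 2000) C ((FF kap i).map (algebraMap ℚ ℝ)) := by
  by_cases hi : i = 0
  · refine ⟨1, ?_⟩
    rw [FF, if_pos hi, map_one]
    exact bd_one
  · refine ⟨(1 - 2 * (7 / 2000) : ℝ)⁻¹, ?_⟩
    intro N
    rw [FF, if_neg hi]
    have hs : Summable (fun n : ℕ => ((2 : ℝ) * (7 / 2000)) ^ n) :=
      summable_geometric_of_lt_one (by norm_num) (by norm_num)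
    rw [← tsum_geometric_of_lt_one (by norm_num : (0 : ℝ) ≤ 2 * (7 / 2000)) (by norm_num)]
    refine le_trans ?_ (hs.sum_le_tsum (Finset.range N) (fun n _ => by positivity))
    apply Finset.sum_le_sum
    intro n _
    rw [mul_pow]
    apply mul_le_mul_of_nonneg_right _ (by positivity)
    rw [coeff_map]
    obtain ⟨h1, h2⟩ := coeff_Fs_bound (2 * kap i + 1) n
    have h3 : (0 : ℝ) ≤ algebraMap ℚ ℝ (coeff n (Fs (2 * kap i + 1))) := by
      rw [eq_ratCast]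
      exact_mod_cast h1
    rw [abs_of_nonneg h3, eq_ratCast]
    exact_mod_cast h2

end Pool.Agent.Work.MP_b73316_nt
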