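import Pool.Agent.Work.MP_b73316_nt.BdE
import Pool.Agent.Work.MP_b73316_nt.BdD
import Pool.Agent.Work.MP_b73316_nt.BdF

/-!
Module Arc (size S-M): archimedean bound of the entries, `D = 4 n`, gauge `E₄^(9n)`.

PROOF.  Let `i = κ (4n+1) + e`, `κ ≤ K`, `e ≤ 4 n` (`i < (K+1)(4n+1)`).  In `ℤ⟦q⟧`:
`e4^(9n) tt^e xx^κ' = e4^(9n) dl^e e4i^(3e) xx^κ'` (`tt = dl * e4i^3`), `κ' = kap κ`.
If `e ≤ 3 n`, this is `e4^(9n-3e) dl^e xx^κ'` (`e4 * e4i = 1`); if `e > 3 n`, it is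
`e4i^(3e-9n) dl^e xx^κ'`.  With `r = 7/2000`, `bd_mul`, `bd_pow`, `bd_e4`, `bd_e4i`, `bd_dl`,
`bd_e6`, `bd_FF`: the series `e4^(9n) * row` mapped to `ℝ` satisfies `Bd r (C_κ rho n e)` with
`C_κ = (C_{e6} · 1000/133)^κ' · C_{F_κ}`.  Let `C = 1 + ∑_{κ ≤ K} C_κ` and use `bd_coeff`
(`1/r = 2000/7`).  (`coeff_map`; `(toR ℚ f).map (algebraMap ℚ ℝ) = toR ℝ f` is `Basis_map_toR`;
`rho ≥ 0`, `C_κ ≥ 0` by `bd_nonneg`.)
-/

set_option autoImplicit false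

open PowerSeries Finset MP0f16e1

namespace Pool.Agent.Work.MP_b73316_nt

private theorem arc_toR_mul (f g : PowerSeries ℤ) : toR ℝ (f * g) = toR ℝ f * toR ℝ g := by
  unfold toR
  exact map_mul _ _ _

private theorem arc_toR_pow (f : PowerSeries ℤ) (k : ℕ) : toR ℝ (f ^ k) = (toR ℝ f) ^ k := by
  unfold toR
  exact map_pow _ _ _

private theorem arc_map (f : PowerSeries ℤ) :
    (toR ℚ f).map (algebraMap ℚ ℝ) = toR ℝ f := by
  ext n
  unfold toR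
  rw [coeff_map, coeff_map, coeff_map]
  simp

private theorem arc_bd (n e : ℕ) : Bd (7 / 2000) (rho n e) (toR ℝ (e4 ^ (9 * n) * tt ^ e)) := by
  have hr : (0 : ℝ) ≤ 7 / 2000 := by norm_num
  unfold rho
  by_cases he : e ≤ 3 * n
  · rw [if_pos he]
    have h1 : e4 ^ (9 * n) * tt ^ e = e4 ^ (9 * n - 3 * e) * dl ^ e := by
      have h2 : 9 * n = (9 * n - 3 * e) + 3 * e := by omega
      calc e4 ^ (9 * n) * tt ^ e = e4 ^ ((9 * n - 3 * e) + 3 * e) * tt ^ e := by rw [← h2]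
        _ = e4 ^ (9 * n - 3 * e) * (tt * e4 ^ 3) ^ e := by
          rw [pow_add, pow_mul, mul_pow]
          ring
        _ = _ := by rw [tt_mul]
    rw [h1, arc_toR_mul, arc_toR_pow, arc_toR_pow]
    exact bd_mul hr (bd_pow hr bd_e4 _) (bd_pow hr bd_dl _)
  · rw [if_neg he]
    have h1 : e4 ^ (9 * n) * tt ^ e = e4i ^ (3 * e - 9 * n) * dl ^ e := by
      have h2 : 3 * e = (3 * e - 9 * n) + 9 * n := by omega
      unfold tt
      calc e4 ^ (9 * n) * (dl * e4i ^ 3) ^ e = e4 ^ (9 * n) * (dl ^ e * e4i ^ (3 * e)) := by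
            rw [mul_pow, ← pow_mul]
        _ = e4 ^ (9 * n) * (dl ^ e * e4i ^ ((3 * e - 9 * n) + 9 * n)) := by rw [← h2]
        _ = e4i ^ (3 * e - 9 * n) * dl ^ e * (e4 * e4i) ^ (9 * n) := by
          rw [pow_add, mul_pow]
          ring
        _ = _ := by rw [e4_mul_e4i, one_pow, mul_one]
    rw [h1, arc_toR_mul, arc_toR_pow, arc_toR_pow]
    exact bd_mul hr (bd_pow hr bd_e4i _) (bd_pow hr bd_dl _)

theorem arch_entry (kap : ℕ → ℕ) (K : ℕ) : ∃ C : ℝ, 0 < C ∧ ∀ n i l : ℕ,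
    i < (K + 1) * (4 * n + 1) →
    |((coeff l (toR ℚ (e4 ^ (9 * n)) * row kap (4 * n) i) : ℚ) : ℝ)| ≤
      C * rho n (i % (4 * n + 1)) * (2000 / 7) ^ l := by
  have hr : (0 : ℝ) ≤ 7 / 2000 := by norm_num
  obtain ⟨C6, hC6⟩ := bd_e6
  have hF : ∀ κ, ∃ C : ℝ, Bd (7 / 2000) C ((FF kap κ).map (algebraMap ℚ ℝ)) := fun κ =>
    bd_FF kap κ
  choose CF hCF using hF
  have hCF0 : ∀ κ, 0 ≤ CF κ := fun κ => bd_nonneg (hCF κ)
  have hx : Bd (7 / 2000) (C6 * (1000 / 133)) (toR ℝ xx) := by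
    unfold xx
    rw [arc_toR_mul]
    exact bd_mul hr hC6 bd_e4i
  set Cx := C6 * (1000 / 133) with hCx
  have hCx0 : 0 ≤ Cx := bd_nonneg hx
  set D : ℕ → ℝ := fun κ => Cx ^ kap κ * CF κ with hD
  have hD0 : ∀ κ, 0 ≤ D κ := fun κ => mul_nonneg (pow_nonneg hCx0 _) (hCF0 κ)
  have hS0 : 0 ≤ ∑ κ ∈ range (K + 1), D κ := Finset.sum_nonneg fun κ _ => hD0 κ
  refine ⟨1 + ∑ κ ∈ range (K + 1), D κ, by linarith, ?_⟩
  intro n i l hi
  set e := i % (4 * n + 1) with he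
  set κ := i / (4 * n + 1) with hκ
  have hκK : κ ∈ range (K + 1) := by
    rw [Finset.mem_range, hκ]
    exact Nat.div_lt_of_lt_mul (by rw [mul_comm]; exact hi)
  have hDκ : D κ ≤ ∑ κ ∈ range (K + 1), D κ :=
    Finset.single_le_sum (f := D) (fun κ _ => hD0 κ) hκK
  have hrho : 0 ≤ rho n e := bd_nonneg (arc_bd n e)
  have hmap : (toR ℚ (e4 ^ (9 * n)) * row kap (4 * n) i).map (algebraMap ℚ ℝ) =
      toR ℝ (e4 ^ (9 * n) * tt ^ e) * (toR ℝ xx) ^ kap κ *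
        (FF kap κ).map (algebraMap ℚ ℝ) := by
    unfold row
    rw [← he, ← hκ, map_mul, map_mul, arc_map, arc_map, arc_toR_mul, arc_toR_mul, arc_toR_pow xx]
    ring
  have hb := bd_mul hr (bd_mul hr (arc_bd n e) (bd_pow hr hx (kap κ))) (hCF κ)
  rw [← hmap] at hb
  have h1 := bd_coeff (by norm_num : (0 : ℝ) < 7 / 2000) hb l
  rw [coeff_map] at h1
  have h2 : (1 / (7 / 2000) : ℝ) = 2000 / 7 := by norm_num
  rw [h2] at h1
  refine h1.trans ?_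
  refine mul_le_mul_of_nonneg_right ?_ (by positivity)
  calc rho n e * Cx ^ kap κ * CF κ = D κ * rho n e := by
        rw [hD]
        ring
    _ ≤ (1 + ∑ κ ∈ range (K + 1), D κ) * rho n e :=
        mul_le_mul_of_nonneg_right (by linarith) hrho

end Pool.Agent.Work.MP_b73316_nt
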