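import Pool.Agent.Work.MP_b73316_nt.Defs

/-!
Module DetR (size S): Leibniz bound of a real determinant.

PROOF.  `Matrix.det_apply`: `det a = ∑ σ, sign σ • ∏ i, a (σ i) i`; each product is bounded by
`∏ i, ρ (σ i) * τ i = (∏ ρ) * ∏ τ` (`Finset.prod_mul_distrib`, `Equiv.prod_comp`), and there are `M!`
permutations (`Fintype.card_perm`).
-/

set_option autoImplicit false

open Finset

namespace Pool.Agent.Work.MP_b73316_nt

theorem det_real {M : ℕ} (a : Matrix (Fin M) (Fin M) ℝ) (ρ τ : Fin M → ℝ)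
    (h : ∀ i j, |a i j| ≤ ρ i * τ j) :
    |a.det| ≤ M.factorial * ((∏ i, ρ i) * ∏ j, τ j) := by
  rw [Matrix.det_apply]
  calc |∑ σ : Equiv.Perm (Fin M), Equiv.Perm.sign σ • ∏ i, a (σ i) i|
      ≤ ∑ σ : Equiv.Perm (Fin M), |Equiv.Perm.sign σ • ∏ i, a (σ i) i| :=
        Finset.abs_sum_le_sum_abs _ _
    _ ≤ ∑ _σ : Equiv.Perm (Fin M), ((∏ i, ρ i) * ∏ j, τ j) := by
        apply Finset.sum_le_sum
        intro σ _
        have h1 : |Equiv.Perm.sign σ • ∏ i, a (σ i) i| = ∏ i, |a (σ i) i| := by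
          rw [Units.smul_def, zsmul_eq_mul, abs_mul, Finset.abs_prod]
          rcases Int.units_eq_one_or (Equiv.Perm.sign σ) with h | h <;> simp [h]
        rw [h1]
        calc ∏ i, |a (σ i) i| ≤ ∏ i, (ρ (σ i) * τ i) :=
              Finset.prod_le_prod (fun i _ => abs_nonneg _) (fun i _ => h _ _)
          _ = _ := by rw [Finset.prod_mul_distrib, Equiv.prod_comp σ ρ]
    _ = _ := by simp [Fintype.card_perm]

end Pool.Agent.Work.MP_b73316_nt
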