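import Pool.Agent.Work.MP_b73316_nt.Defs

/-!
Module RhoS (size S-M): product of the row bounds.

PROOF.  `rho n e > 0`.  `log (∏_i rho n (i % (4n+1))) = ∑_i log rho n (i % (4n+1)) =
(K+1) ∑_{e ≤ 4n} log (rho n e)` (`i = κ (4n+1) + e`; e.g. induction on `K`, `Finset.sum_range_add`...,
`Fin.sum_univ_eq_sum_range`).  With `A = log (1867/1000)`, `B = log (1000/133)`,
`G = log (383/100000) < 0`:
`∑_{e ≤ 4n} log rho = A ∑_{e ≤ 3n} (9n - 3e) + B ∑_{3n < e ≤ 4n} (3e - 9n) + G ∑_{e ≤ 4n} e
= A (3 · 3n (3n+1)/2) + B (3 n (n+1)/2) + G (4n (4n+1)/2)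
= (27/2 A + 3/2 B + 8 G) n² + (9/2 A + 3/2 B + 2 G) n ≤ WW n² + 6 n`
(`A ≤ 1`, `B ≤ 3`: `log x ≤ x - 1` gives `A ≤ 0.867`; `B = 2 log (√7.52) ≤ 2 (2.75 - 1)` or
`B ≤ log 8 = 3 log 2 ≤ 2.1`; `G ≤ 0`; total `≤ 4.5 + 3.2 ≤ 10`; any constant is fine, the statement
has `10 n`).
-/

set_option autoImplicit false

open Finset

namespace Pool.Agent.Work.MP_b73316_nt

theorem rho_pos (n e : ℕ) : 0 < rho n e := by
  unfold rho
  split_ifs <;> positivity

private theorem sum_per (f : ℕ → ℝ) (m K : ℕ) :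
    ∑ i ∈ range (K * m), f (i % m) = K * ∑ e ∈ range m, f e := by
  induction K with
  | zero => simp
  | succ K ih =>
    rw [Nat.succ_mul, sum_range_add, ih, Nat.cast_succ, add_mul, one_mul]
    congr 1
    refine sum_congr rfl fun x hx => ?_
    rw [Nat.mul_add_mod', Nat.mod_eq_of_lt (mem_range.1 hx)]

private theorem sum_id (m : ℕ) : ∑ e ∈ range m, (e : ℝ) = m * (m - 1) / 2 := by
  induction m with
  | zero => simp
  | succ m ih =>
    rw [sum_range_succ, ih]
    push_cast
    ring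

private theorem log_rho (n e : ℕ) : Real.log (rho n e) =
    (if e ≤ 3 * n then Real.log (1867 / 1000) * (9 * n - 3 * e)
      else Real.log (1000 / 133) * (3 * e - 9 * n)) + Real.log (383 / 100000) * e := by
  unfold rho
  split_ifs with h
  · rw [Real.log_mul (by positivity) (by positivity), Real.log_pow, Real.log_pow,
      Nat.cast_sub (by omega)]
    push_cast
    ring
  · rw [Real.log_mul (by positivity) (by positivity), Real.log_pow, Real.log_pow,
      Nat.cast_sub (by omega)]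
    push_cast
    ring

private theorem sum_rho (n : ℕ) : ∑ e ∈ range (4 * n + 1), Real.log (rho n e) =
    WW * n ^ 2 + (9 / 2 * Real.log (1867 / 1000) + 3 / 2 * Real.log (1000 / 133) +
      2 * Real.log (383 / 100000)) * n := by
  simp only [log_rho]
  rw [sum_add_distrib, ← mul_sum, sum_id, show 4 * n + 1 = (3 * n + 1) + n by ring, sum_range_add]
  have h1 : ∑ x ∈ range (3 * n + 1), (if x ≤ 3 * n then Real.log (1867 / 1000) * (9 * n - 3 * x)
      else Real.log (1000 / 133) * (3 * x - 9 * n)) =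
      Real.log (1867 / 1000) * ((3 * n + 1) * (9 * n) / 2) := by
    have h3 : ∀ x ∈ range (3 * n + 1), (if x ≤ 3 * n then
        Real.log (1867 / 1000) * (9 * n - 3 * x) else Real.log (1000 / 133) * (3 * x - 9 * n)) =
        Real.log (1867 / 1000) * (9 * n) - 3 * Real.log (1867 / 1000) * x := fun x hx => by
      rw [if_pos (Nat.lt_succ_iff.1 (mem_range.1 hx))]
      ring
    rw [sum_congr rfl h3, sum_sub_distrib, sum_const, ← mul_sum, sum_id, card_range, nsmul_eq_mul]
    push_cast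
    ring
  have h2 : ∑ x ∈ range n, (if 3 * n + 1 + x ≤ 3 * n then
      Real.log (1867 / 1000) * (9 * n - 3 * ((3 * n + 1 + x : ℕ) : ℝ))
      else Real.log (1000 / 133) * (3 * ((3 * n + 1 + x : ℕ) : ℝ) - 9 * n)) =
      Real.log (1000 / 133) * (3 * n * (n + 1) / 2) := by
    have h3 : ∀ x ∈ range n, (if 3 * n + 1 + x ≤ 3 * n then
        Real.log (1867 / 1000) * (9 * n - 3 * ((3 * n + 1 + x : ℕ) : ℝ))
        else Real.log (1000 / 133) * (3 * ((3 * n + 1 + x : ℕ) : ℝ) - 9 * n)) =
        Real.log (1000 / 133) * (3 + 3 * x) := fun x _ => by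
      rw [if_neg (by omega)]
      push_cast
      ring
    rw [sum_congr rfl h3, ← mul_sum, sum_add_distrib, ← mul_sum, sum_id, sum_const, card_range,
      nsmul_eq_mul]
    ring
  rw [h1, h2, WW]
  push_cast
  ring

private theorem lin_le : 9 / 2 * Real.log (1867 / 1000) + 3 / 2 * Real.log (1000 / 133) +
    2 * Real.log (383 / 100000) ≤ 10 := by
  have h1 : Real.log (1867 / 1000) ≤ 1867 / 1000 - 1 :=
    Real.log_le_sub_one_of_pos (by norm_num)
  have h2 : Real.log (1000 / 133) ≤ Real.log (2 ^ 3) :=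
    Real.log_le_log (by norm_num) (by norm_num)
  rw [Real.log_pow] at h2
  have h3 := Real.log_two_lt_d9
  have h4 : Real.log (383 / 100000) ≤ 0 := Real.log_nonpos (by norm_num) (by norm_num)
  push_cast at h2
  linarith

theorem rho_prod (K n : ℕ) :
    Real.log (∏ i : Fin ((K + 1) * (4 * n + 1)), rho n ((i : ℕ) % (4 * n + 1))) ≤
      (K + 1) * (WW * n ^ 2 + 10 * n) := by
  rw [Real.log_prod fun i _ => (rho_pos _ _).ne',
    Fin.sum_univ_eq_sum_range (fun i => Real.log (rho n (i % (4 * n + 1)))),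
    sum_per (fun e => Real.log (rho n e)), sum_rho, Nat.cast_succ]
  refine mul_le_mul_of_nonneg_left ?_ (by positivity)
  have h := mul_le_mul_of_nonneg_right lin_le (Nat.cast_nonneg (α := ℝ) n)
  linarith

end Pool.Agent.Work.MP_b73316_nt
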