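import Pool.Agent.Work.MP_b73316_nt.Arc
import Pool.Agent.Work.MP_b73316_nt.RhoS
import Pool.Agent.Work.MP_b73316_nt.DetR

/-!
Module ArcT (size M): archimedean bound of the pivot minor.

PROOF.  Let `M = (K+1)(4n+1)`.  In `Piv.det` take `F = ℝ` and
`lam j R = (coeff (l j) (toR ℚ (e4^(9n)) * R) : ℝ)` (a `ℚ`-linear map).  It is unipotent: if the
coefficients of `R` below `l j` vanish then `coeff (l j) (u R) = coeff 0 u * coeff (l j) R` and
`coeff 0 (e4^(9n)) = 1`.  So `δ = det` and by `arch_entry` and `det_real` with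
`ρ_i = C rho n (i % (4n+1))`, `τ_j = (2000/7)^(l j)`:
`|δ| ≤ M! · C^M · ∏_i rho · (2000/7)^(∑ l j)`.  Take logarithms (`δ ≠ 0`):
`log |δ| ≤ log M! + M log C + (K+1)(WW n² + 10 n) + log (2000/7) ∑ l j`
(`rho_prod`, `rho_pos`), and `log M! ≤ M log M` (`M! ≤ M^M`, `Nat.factorial_le_pow`),
`M ≤ 5 (K+1) n` for `n ≥ 1`; `M log M + M |log C| + 10 (K+1) n = o(n²)`
(`Real.isLittleO_log_id_atTop`, or `log M ≤ 2 √M`), so it is `≤ ε n²` for `n ≥ n₀(K, C, ε)`.
-/

set_option autoImplicit false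

open PowerSeries Finset MP0f16e1

namespace Pool.Agent.Work.MP_b73316_nt

private theorem at_cc (k : ℕ) : coeff 0 (toR ℚ (e4 ^ k)) = 1 := by
  have h0 : constantCoeff e4 = 1 := by
    rw [← coeff_zero_eq_constantCoeff_apply]
    simp [e4]
  rw [toR, coeff_map, coeff_zero_eq_constantCoeff_apply, map_pow, h0, one_pow, map_one]

private theorem at_unip (u R : PowerSeries ℚ) (l : ℕ) (hu : coeff 0 u = 1)
    (h : ∀ k < l, coeff k R = 0) : coeff l (u * R) = coeff l R := by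
  rw [coeff_mul, Finset.sum_eq_single (0, l)]
  · rw [hu, one_mul]
  · rintro ⟨a, b⟩ hab hne
    rw [Finset.HasAntidiagonal.mem_antidiagonal] at hab
    have hb : b < l := by
      rcases Nat.eq_zero_or_pos a with h0 | h0
      · exfalso
        apply hne
        simp only at hab
        rw [h0, zero_add] at hab
        rw [h0, hab]
      · simp only at hab
        omega
    rw [h b hb, mul_zero]
  · intro h1
    exact absurd (Finset.HasAntidiagonal.mem_antidiagonal.2 (zero_add l)) h1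

/-- the functionals -/
private noncomputable def atLam (n l : ℕ) : PowerSeries ℚ →ₗ[ℚ] ℝ :=
  (Algebra.linearMap ℚ ℝ).comp ((PowerSeries.coeff (R := ℚ) l).comp
    (LinearMap.mulLeft ℚ (toR ℚ (e4 ^ (9 * n)))))

private theorem atLam_apply (n l : ℕ) (R : PowerSeries ℚ) :
    atLam n l R = ((coeff l (toR ℚ (e4 ^ (9 * n)) * R) : ℚ) : ℝ) := rfl

private theorem at_log {M : ℕ} {C : ℝ} (hC : 0 < C) (r : Fin M → ℝ) (hr : ∀ i, 0 < r i)
    (l : Fin M → ℕ) {x : ℝ} (hx : 0 < x)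
    (hb : x ≤ M.factorial * ((∏ i, C * r i) * ∏ j, (2000 / 7 : ℝ) ^ (l j))) :
    Real.log x ≤ Real.log (M.factorial : ℝ) + M * Real.log C + Real.log (∏ i, r i) +
      Real.log (2000 / 7) * ∑ j, (l j : ℝ) := by
  have hPi : 0 < ∏ i : Fin M, r i := Finset.prod_pos fun i _ => hr i
  have hprod1 : ∏ i : Fin M, C * r i = C ^ M * ∏ i : Fin M, r i := by
    rw [Finset.prod_mul_distrib, Finset.prod_const, Finset.card_univ, Fintype.card_fin]
  have hprod2 : ∏ j : Fin M, (2000 / 7 : ℝ) ^ (l j) = (2000 / 7 : ℝ) ^ (∑ j, l j) :=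
    Finset.prod_pow_eq_pow_sum _ _ _
  have hfac : (0 : ℝ) < M.factorial := by exact_mod_cast M.factorial_pos
  have hlog := Real.log_le_log hx hb
  rw [hprod1, hprod2, Real.log_mul hfac.ne' (by positivity), Real.log_mul (by positivity)
    (by positivity), Real.log_mul (by positivity) hPi.ne', Real.log_pow, Real.log_pow] at hlog
  push_cast at hlog
  linarith

private theorem at_fac (M : ℕ) (y : ℝ) (hM : 0 < M) (hy : (M : ℝ) ≤ y) :
    Real.log (M.factorial : ℝ) ≤ y * Real.log y := by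
  have hM1 : (1 : ℝ) ≤ M := by exact_mod_cast hM
  have hfac : (0 : ℝ) < M.factorial := by exact_mod_cast M.factorial_pos
  have h1 : ((M.factorial : ℕ) : ℝ) ≤ (M : ℝ) ^ M := by exact_mod_cast Nat.factorial_le_pow M
  have h2 := Real.log_le_log hfac h1
  rw [Real.log_pow] at h2
  have h3 : Real.log M ≤ Real.log y := Real.log_le_log (by linarith) hy
  have h4 : 0 ≤ Real.log (M : ℝ) := Real.log_nonneg hM1
  calc Real.log (M.factorial : ℝ) ≤ M * Real.log M := h2
    _ ≤ y * Real.log y := mul_le_mul hy h3 h4 (by linarith)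

private theorem at_small (a B ε : ℝ) (ha : 0 < a) (hε : 0 < ε) :
    ∃ n₀ : ℕ, ∀ n ≥ n₀, a * Real.log (a * n) + B ≤ ε * n := by
  have h1 : (fun x : ℝ => a * Real.log x + (a * Real.log a + B)) =o[Filter.atTop]
      (fun x : ℝ => x) :=
    (Real.isLittleO_log_id_atTop.const_mul_left a).add (Asymptotics.isLittleO_const_id_atTop _)
  have h2 := (h1.comp_tendsto tendsto_natCast_atTop_atTop).def hε
  obtain ⟨n₀, hn₀⟩ := Filter.eventually_atTop.1 h2
  refine ⟨max n₀ 1, fun n hn => ?_⟩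
  have h3 := hn₀ n (le_trans (le_max_left _ _) hn)
  have hn1 : 1 ≤ n := le_trans (le_max_right _ _) hn
  have hn2 : (0 : ℝ) < n := by exact_mod_cast hn1
  simp only [Function.comp_apply, Real.norm_eq_abs] at h3
  rw [abs_of_pos hn2] at h3
  rw [Real.log_mul ha.ne' hn2.ne']
  have h4 := le_trans (le_abs_self _) h3
  linarith

theorem arch_total (kap : ℕ → ℕ) (K : ℕ) (ε : ℝ) (hε : 0 < ε) :
    ∃ n₀ : ℕ, ∀ n ≥ n₀, ∀ (l : Fin ((K + 1) * (4 * n + 1)) → ℕ) (δ : ℚ),
      Piv (fun i : Fin ((K + 1) * (4 * n + 1)) => row kap (4 * n) i) l δ →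
      Real.log |(δ : ℝ)| ≤ ((K + 1) * WW + ε) * n ^ 2 +
        Real.log (2000 / 7) * ∑ j, (l j : ℝ) := by
  obtain ⟨C, hC, hent⟩ := arch_entry kap K
  have ha : (0 : ℝ) < 5 * (K + 1) := by positivity
  obtain ⟨n₀, hn₀⟩ := at_small (5 * (K + 1)) (5 * (K + 1) * |Real.log C| + 10 * (K + 1)) ε ha hε
  refine ⟨max n₀ 1, fun n hn l δ hP => ?_⟩
  have hsm := hn₀ n (le_trans (le_max_left _ _) hn)
  have hn1 : 1 ≤ n := le_trans (le_max_right _ _) hn
  have hnR : (1 : ℝ) ≤ n := by exact_mod_cast hn1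
  -- the determinant
  have hdet := hP.det ℝ (fun j => atLam n (l j)) (fun j R hR => by
    rw [atLam_apply, at_unip _ _ _ (at_cc _) hR]
    rfl)
  have hb := det_real (Matrix.of fun i j : Fin ((K + 1) * (4 * n + 1)) =>
      atLam n (l j) (row kap (4 * n) i))
    (fun i => C * rho n ((i : ℕ) % (4 * n + 1))) (fun j => (2000 / 7 : ℝ) ^ (l j)) (by
    intro i j
    rw [Matrix.of_apply, atLam_apply]
    exact hent n i (l j) i.2)
  rw [hdet, eq_ratCast] at hb
  have hMpos : 0 < (K + 1) * (4 * n + 1) := by positivity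
  have hδ : 0 < |(δ : ℝ)| := by
    rw [abs_pos]
    exact_mod_cast hP.ne
  have hlog := at_log hC _ (fun i : Fin ((K + 1) * (4 * n + 1)) => rho_pos n _) l hδ hb
  have hrho := rho_prod K n
  have hMR : (((K + 1) * (4 * n + 1) : ℕ) : ℝ) ≤ 5 * (K + 1) * n := by
    push_cast
    have h1 : (0 : ℝ) ≤ (K : ℝ) + 1 := by positivity
    nlinarith
  have hlf := at_fac _ _ hMpos hMR
  have hlC : (((K + 1) * (4 * n + 1) : ℕ) : ℝ) * Real.log C ≤
      5 * (K + 1) * n * |Real.log C| := by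
    calc (((K + 1) * (4 * n + 1) : ℕ) : ℝ) * Real.log C
        ≤ (((K + 1) * (4 * n + 1) : ℕ) : ℝ) * |Real.log C| :=
          mul_le_mul_of_nonneg_left (le_abs_self _) (Nat.cast_nonneg _)
      _ ≤ 5 * (K + 1) * n * |Real.log C| := mul_le_mul_of_nonneg_right hMR (abs_nonneg _)
  have hfin : n * (5 * (K + 1) * Real.log (5 * (K + 1) * n) +
      (5 * (K + 1) * |Real.log C| + 10 * (K + 1))) ≤ n * (ε * n) :=
    mul_le_mul_of_nonneg_left hsm (by linarith)
  have hexp : ((K : ℝ) + 1) * (WW * n ^ 2 + 10 * n) = (K + 1) * WW * n ^ 2 + 10 * (K + 1) * n := by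
    ring
  nlinarith

end Pool.Agent.Work.MP_b73316_nt
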