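import Pool.Agent.Work.MP_b73316_nt.Defs

/-!
Module BdA (size S): calculus of the `ℓ¹` norm `Bd r C f : ∀ N, ∑_{n < N} |f_n| r^n ≤ C`.

PROOF.  `0 ≤ C`: take `N = 0`.  `bd_mul`: `∑_{n<N} |(fg)_n| r^n ≤ ∑_{i<N} ∑_{j<N} |f_i| r^i |g_j| r^j`
(`coeff_mul`, the pairs `(i,j)` with `i + j < N` are among the pairs with `i < N`, `j < N`).
`bd_pow`: induction.  `bd_coeff`: one term of the sum for `N = n + 1`.  `bd_inv`: from `f * g = 1` and
`g = 1 + u`: `f = 1 - u f`; with `S_N = ∑_{n<N} |f_n| r^n`, `S_N ≤ 1 + c S_N` (the truncated inequality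
`∑_{n<N} |(uf)_n| r^n ≤ (∑_{n<N} |u_n| r^n) (∑_{n<N} |f_n| r^n)` of `bd_mul`), so
`S_N ≤ 1/(1-c)`.  The others are easy.
-/

set_option autoImplicit false

open PowerSeries Finset

namespace Pool.Agent.Work.MP_b73316_nt

theorem bd_nonneg {r C : ℝ} {f : PowerSeries ℝ} (hf : Bd r C f) : 0 ≤ C := by
  have h := hf 0
  simpa using h

theorem bd_mono {r C C' : ℝ} {f : PowerSeries ℝ} (hf : Bd r C f) (h : C ≤ C') : Bd r C' f :=
  fun N => (hf N).trans h

theorem bd_one {r : ℝ} : Bd r 1 1 := by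
  intro N
  rcases N with _ | N
  · simp
  · rw [Finset.sum_range_succ']
    simp [coeff_one]

theorem bd_add {r C C' : ℝ} {f g : PowerSeries ℝ} (hf : Bd r C f) (hg : Bd r C' g) (hr : 0 ≤ r) :
    Bd r (C + C') (f + g) := by
  intro N
  calc ∑ n ∈ range N, |coeff n (f + g)| * r ^ n
      ≤ ∑ n ∈ range N, (|coeff n f| * r ^ n + |coeff n g| * r ^ n) := by
        apply Finset.sum_le_sum
        intro n _
        rw [map_add, ← add_mul]
        exact mul_le_mul_of_nonneg_right (abs_add_le _ _) (pow_nonneg hr n)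
    _ = ∑ n ∈ range N, |coeff n f| * r ^ n + ∑ n ∈ range N, |coeff n g| * r ^ n :=
        Finset.sum_add_distrib
    _ ≤ C + C' := add_le_add (hf N) (hg N)

private theorem trunc_mul {r : ℝ} (hr : 0 ≤ r) (f g : PowerSeries ℝ) (N : ℕ) :
    ∑ n ∈ range N, |coeff n (f * g)| * r ^ n ≤
      (∑ n ∈ range N, |coeff n f| * r ^ n) * ∑ n ∈ range N, |coeff n g| * r ^ n := by
  rw [Finset.sum_mul_sum, ← Finset.sum_product']
  calc ∑ n ∈ range N, |coeff n (f * g)| * r ^ n
      ≤ ∑ n ∈ range N, ∑ p ∈ antidiagonal n,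
          (|coeff p.1 f| * r ^ p.1) * (|coeff p.2 g| * r ^ p.2) := by
        apply Finset.sum_le_sum
        intro n _
        rw [coeff_mul]
        calc |∑ p ∈ antidiagonal n, coeff p.1 f * coeff p.2 g| * r ^ n
            ≤ (∑ p ∈ antidiagonal n, |coeff p.1 f * coeff p.2 g|) * r ^ n :=
              mul_le_mul_of_nonneg_right (Finset.abs_sum_le_sum_abs _ _) (pow_nonneg hr n)
          _ = ∑ p ∈ antidiagonal n, (|coeff p.1 f| * r ^ p.1) * (|coeff p.2 g| * r ^ p.2) := by
              rw [Finset.sum_mul]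
              apply Finset.sum_congr rfl
              intro p hp
              rw [HasAntidiagonal.mem_antidiagonal] at hp
              rw [abs_mul, ← hp, pow_add]
              ring
    _ = ∑ x ∈ (range N).sigma (fun n => antidiagonal n),
          (|coeff x.2.1 f| * r ^ x.2.1) * (|coeff x.2.2 g| * r ^ x.2.2) := by
        rw [Finset.sum_sigma]
    _ = ∑ p ∈ ((range N).sigma (fun n => antidiagonal n)).image (fun x => x.2),
          (|coeff p.1 f| * r ^ p.1) * (|coeff p.2 g| * r ^ p.2) := by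
        rw [Finset.sum_image]
        rintro ⟨n, p⟩ hx ⟨m, q⟩ hy hpq
        simp only [Finset.coe_sigma, Set.mem_sigma_iff, Finset.mem_coe,
          HasAntidiagonal.mem_antidiagonal] at hx hy hpq
        subst hpq
        obtain ⟨_, h1⟩ := hx
        obtain ⟨_, h2⟩ := hy
        subst h1
        subst h2
        rfl
    _ ≤ ∑ p ∈ range N ×ˢ range N,
          (|coeff p.1 f| * r ^ p.1) * (|coeff p.2 g| * r ^ p.2) := by
        apply Finset.sum_le_sum_of_subset_of_nonneg
        · intro p hp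
          simp only [Finset.mem_image, Finset.mem_sigma, Finset.mem_range,
            HasAntidiagonal.mem_antidiagonal] at hp
          obtain ⟨⟨n, q⟩, ⟨h1, h2⟩, rfl⟩ := hp
          simp only [Finset.mem_product, Finset.mem_range]
          simp only at h1 h2 ⊢
          omega
        · intro p _ _
          positivity

theorem bd_mul {r C C' : ℝ} {f g : PowerSeries ℝ} (hr : 0 ≤ r) (hf : Bd r C f)
    (hg : Bd r C' g) : Bd r (C * C') (f * g) := by
  intro N
  refine (trunc_mul hr f g N).trans ?_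
  apply mul_le_mul (hf N) (hg N) _ (bd_nonneg hf)
  apply Finset.sum_nonneg
  intro n _
  positivity

theorem bd_pow {r C : ℝ} {f : PowerSeries ℝ} (hr : 0 ≤ r) (hf : Bd r C f) (k : ℕ) :
    Bd r (C ^ k) (f ^ k) := by
  induction k with
  | zero =>
    rw [pow_zero, pow_zero]
    exact bd_one
  | succ k ih =>
    rw [pow_succ, pow_succ]
    exact bd_mul hr ih hf

theorem bd_coeff {r C : ℝ} {f : PowerSeries ℝ} (hr : 0 < r) (hf : Bd r C f) (n : ℕ) :
    |coeff n f| ≤ C * (1 / r) ^ n := by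
  have h1 : |coeff n f| * r ^ n ≤ C := by
    refine le_trans ?_ (hf (n + 1))
    exact Finset.single_le_sum (f := fun n => |coeff n f| * r ^ n)
      (fun i _ => by positivity) (Finset.mem_range.mpr (Nat.lt_succ_self n))
  have h2 : 0 < r ^ n := pow_pos hr n
  rw [one_div, inv_pow, ← div_eq_mul_inv, le_div_iff₀ h2]
  exact h1

theorem bd_inv {r c : ℝ} {f g : PowerSeries ℝ} (hr : 0 ≤ r) (h : f * g = 1)
    (hg : Bd r c (g - 1)) (hc : c < 1) : Bd r (1 / (1 - c)) f := by
  intro N
  have hf : f = 1 - (g - 1) * f := by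
    have : (g - 1) * f = f * g - f := by ring
    rw [this, h]
    ring
  have h0 : 0 ≤ ∑ n ∈ range N, |coeff n f| * r ^ n := by
    apply Finset.sum_nonneg
    intro n _
    positivity
  have h1 : ∑ n ∈ range N, |coeff n f| * r ^ n ≤
      ∑ n ∈ range N, |coeff n (1 : PowerSeries ℝ)| * r ^ n +
        ∑ n ∈ range N, |coeff n ((g - 1) * f)| * r ^ n := by
    rw [← Finset.sum_add_distrib]
    apply Finset.sum_le_sum
    intro n _
    rw [← add_mul]
    apply mul_le_mul_of_nonneg_right _ (pow_nonneg hr n)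
    conv_lhs => rw [hf]
    rw [map_sub]
    exact abs_sub _ _
  have h2 : ∑ n ∈ range N, |coeff n (1 : PowerSeries ℝ)| * r ^ n ≤ 1 := bd_one N
  have h3 := trunc_mul hr (g - 1) f N
  have h4 : (∑ n ∈ range N, |coeff n (g - 1)| * r ^ n) * (∑ n ∈ range N, |coeff n f| * r ^ n) ≤
      c * ∑ n ∈ range N, |coeff n f| * r ^ n := mul_le_mul_of_nonneg_right (hg N) h0
  rw [le_div_iff₀ (by linarith)]
  nlinarith

end Pool.Agent.Work.MP_b73316_nt
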