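import Pool.Agent.Work.MP_b73316_nt.BdA
import Pool.Agent.Work.MP_b73316_nt.Ser

/-!
Module BdE (size S-M): `ℓ¹` norms of `E₄ - 1`, `E₄`, `1/E₄`, `E₆` at `r = 7/2000`.

PROOF.  `|coeff n (e4 - 1)| = 240 σ₃(n)` for `n ≥ 1`, and `0` for `n = 0`.  `σ₃(1) = 1`,
`σ₃(2) = 9`, `σ₃(3) = 28`, and `σ₃(n) ≤ n^4` for all `n` (at most `n` divisors, each `≤ n`).  With
`r = 0.0035`: `240 (r + 9 r² + 28 r³) ≤ 0.84 + 0.02646 + 0.00029 = 0.86675`; for `n ≥ 4`,
`n^4 ≤ 256 · 4^(n-4)` (since `(n+1)^4 ≤ 4 n^4` for `n ≥ 4`), so the tail is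
`≤ 240 · 256 r⁴ / (1 - 4 r) ≤ 0.00001`.  The total is `≤ 0.86676 < 0.867`.
`Bd r (1867/1000) E₄`: `bd_add` with `1`.  `Bd r (1000/133) (1/E₄)`: `bd_inv` with `c = 867/1000`.
`E₆`: `504 σ₅(n) ≤ 504 n^6 ≤ C 2^n`, any finite constant (`r < 1/2`, e.g. summability of
`n^6 r^n`, `summable_pow_mul_geometric_of_norm_lt_one`).
-/

set_option autoImplicit false

open PowerSeries Finset MP0f16e1

namespace Pool.Agent.Work.MP_b73316_nt

private theorem coeff_toR' (f : PowerSeries ℤ) (n : ℕ) :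
    coeff n (toR ℝ f) = ((coeff n f : ℤ) : ℝ) := by
  rw [toR, PowerSeries.coeff_map]
  rfl

private theorem c_e4 (n : ℕ) : coeff n (toR ℝ e4 - 1) =
    if n = 0 then 0 else 240 * ((ArithmeticFunction.sigma 3 n : ℕ) : ℝ) := by
  rw [map_sub, coeff_toR', e4, PowerSeries.coeff_mk, coeff_one]
  split_ifs <;> simp

private theorem four_pow (n : ℕ) : (n + 4) ^ 4 ≤ 4 ^ (n + 4) := by
  induction n with
  | zero => norm_num
  | succ n ih =>
    have h1 : (n + 1 + 4) ^ 4 ≤ 4 * (n + 4) ^ 4 := by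
      have : 4 * (n + 1 + 4) ≤ 5 * (n + 4) := by omega
      have h2 : (4 * (n + 1 + 4)) ^ 4 ≤ (5 * (n + 4)) ^ 4 := Nat.pow_le_pow_left this 4
      rw [mul_pow, mul_pow] at h2
      omega
    calc (n + 1 + 4) ^ 4 ≤ 4 * (n + 4) ^ 4 := h1
      _ ≤ 4 * 4 ^ (n + 4) := Nat.mul_le_mul_left 4 ih
      _ = 4 ^ (n + 1 + 4) := by ring

private theorem part (N : ℕ) :
    ∑ n ∈ range (N + 4), |coeff n (toR ℝ e4 - 1)| * (7 / 2000 : ℝ) ^ n ≤
      240 * (7 / 2000) + 2160 * (7 / 2000) ^ 2 + 6720 * (7 / 2000) ^ 3 +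
        240 * (7 / 500) ^ 4 / (1 - 7 / 500) * (1 - (7 / 500) ^ N) := by
  induction N with
  | zero =>
    have s1 : ArithmeticFunction.sigma 3 1 = 1 := by decide
    have s2 : ArithmeticFunction.sigma 3 2 = 9 := by decide
    have s3 : ArithmeticFunction.sigma 3 3 = 28 := by decide
    have c0 : coeff 0 (toR ℝ e4 - 1) = 0 := by rw [c_e4, if_pos rfl]
    have c1 : coeff 1 (toR ℝ e4 - 1) = 240 := by
      rw [c_e4, if_neg one_ne_zero, s1]
      norm_num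
    have c2 : coeff 2 (toR ℝ e4 - 1) = 2160 := by
      rw [c_e4, if_neg two_ne_zero, s2]
      norm_num
    have c3 : coeff 3 (toR ℝ e4 - 1) = 6720 := by
      rw [c_e4, if_neg three_ne_zero, s3]
      norm_num
    simp only [zero_add, Finset.sum_range_succ, Finset.sum_range_zero, c0, c1, c2, c3]
    norm_num
  | succ N ih =>
    rw [show N + 1 + 4 = (N + 4) + 1 by ring, Finset.sum_range_succ]
    have h1 : |coeff (N + 4) (toR ℝ e4 - 1)| * (7 / 2000 : ℝ) ^ (N + 4) ≤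
        240 * (7 / 500) ^ (N + 4) := by
      rw [c_e4, if_neg (by omega)]
      have h2 : ((ArithmeticFunction.sigma 3 (N + 4) : ℕ) : ℝ) ≤ 4 ^ (N + 4) := by
        have := (ArithmeticFunction.sigma_le_pow_succ 3 (N + 4)).trans (four_pow N)
        exact_mod_cast this
      have h3 : (0 : ℝ) ≤ 240 * ((ArithmeticFunction.sigma 3 (N + 4) : ℕ) : ℝ) := by positivity
      rw [abs_of_nonneg h3]
      calc 240 * ((ArithmeticFunction.sigma 3 (N + 4) : ℕ) : ℝ) * (7 / 2000 : ℝ) ^ (N + 4)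
          ≤ 240 * 4 ^ (N + 4) * (7 / 2000 : ℝ) ^ (N + 4) := by gcongr
        _ = 240 * (7 / 500) ^ (N + 4) := by
            rw [mul_assoc, ← mul_pow]
            norm_num
    have h4 : (240 : ℝ) * (7 / 500) ^ 4 / (1 - 7 / 500) * (1 - (7 / 500) ^ (N + 1)) =
        240 * (7 / 500) ^ 4 / (1 - 7 / 500) * (1 - (7 / 500) ^ N) + 240 * (7 / 500) ^ (N + 4) := by
      rw [pow_succ, pow_add]
      ring
    rw [h4]
    linarith

theorem bd_e4_sub : Bd (7 / 2000) (867 / 1000) (toR ℝ e4 - 1) := by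
  intro N
  have h1 : ∑ n ∈ range N, |coeff n (toR ℝ e4 - 1)| * (7 / 2000 : ℝ) ^ n ≤
      ∑ n ∈ range (N + 4), |coeff n (toR ℝ e4 - 1)| * (7 / 2000 : ℝ) ^ n := by
    apply Finset.sum_le_sum_of_subset_of_nonneg
    · exact Finset.range_mono (by omega)
    · intro n _ _
      positivity
  have h2 := part N
  have h3 : (0 : ℝ) ≤ (7 / 500) ^ N := by positivity
  have h4 : (240 : ℝ) * (7 / 500) ^ 4 / (1 - 7 / 500) * (1 - (7 / 500) ^ N) ≤
      240 * (7 / 500) ^ 4 / (1 - 7 / 500) * 1 := by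
    apply mul_le_mul_of_nonneg_left _ (by norm_num)
    linarith
  have h5 : (240 : ℝ) * (7 / 2000) + 2160 * (7 / 2000) ^ 2 + 6720 * (7 / 2000) ^ 3 +
      240 * (7 / 500) ^ 4 / (1 - 7 / 500) * 1 ≤ 867 / 1000 := by norm_num
  linarith

theorem bd_e4 : Bd (7 / 2000) (1867 / 1000) (toR ℝ e4) := by
  have h := bd_add (bd_one (r := (7 / 2000 : ℝ))) bd_e4_sub (by norm_num)
  rw [add_sub_cancel] at h
  exact bd_mono h (by norm_num)

theorem bd_e4i : Bd (7 / 2000) (1000 / 133) (toR ℝ e4i) := by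
  have h1 : toR ℝ e4i * toR ℝ e4 = 1 := by
    unfold toR
    rw [← map_mul, mul_comm, e4_mul_e4i, map_one]
  exact bd_mono (bd_inv (by norm_num) h1 bd_e4_sub (by norm_num)) (by norm_num)

theorem bd_e6 : ∃ C : ℝ, Bd (7 / 2000) C (toR ℝ e6) := by
  have hr : ‖(7 / 2000 : ℝ)‖ < 1 := by
    rw [Real.norm_eq_abs, abs_of_pos (by norm_num)]
    norm_num
  have h0 : Summable (fun n : ℕ => ((n : ℝ) ^ 0 * (7 / 2000 : ℝ) ^ n +
      504 * ((n : ℝ) ^ 6 * (7 / 2000 : ℝ) ^ n))) :=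
    (summable_pow_mul_geometric_of_norm_lt_one 0 hr).add
      ((summable_pow_mul_geometric_of_norm_lt_one 6 hr).mul_left 504)
  refine ⟨_, fun N => le_trans (Finset.sum_le_sum fun n _ => ?_)
    (h0.sum_le_tsum (range N) (fun n _ => by positivity))⟩
  rw [coeff_toR', e6, PowerSeries.coeff_mk]
  have hp : (0 : ℝ) < (7 / 2000 : ℝ) ^ n := by positivity
  have h1 : |(((if n = 0 then 1 else -504 * ((ArithmeticFunction.sigma 5 n : ℕ) : ℤ) : ℤ)) : ℝ)| ≤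
      1 + 504 * (n : ℝ) ^ 6 := by
    split_ifs with hn
    · subst hn
      norm_num
    · have h2 : ((ArithmeticFunction.sigma 5 n : ℕ) : ℝ) ≤ (n : ℝ) ^ 6 := by
        exact_mod_cast ArithmeticFunction.sigma_le_pow_succ 5 n
      push_cast
      rw [abs_mul, abs_neg, abs_of_nonneg (by norm_num : (0 : ℝ) ≤ 504),
        abs_of_nonneg (Nat.cast_nonneg _)]
      linarith
  calc _ ≤ (1 + 504 * (n : ℝ) ^ 6) * (7 / 2000 : ℝ) ^ n :=
        mul_le_mul_of_nonneg_right h1 hp.le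
    _ = (n : ℝ) ^ 0 * (7 / 2000 : ℝ) ^ n + 504 * ((n : ℝ) ^ 6 * (7 / 2000 : ℝ) ^ n) := by ring

end Pool.Agent.Work.MP_b73316_nt
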