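import Pool.Agent.Work.MP_0f16e1_nt.Ramanujan

/-!
# MP_b73316_nt (non-vanishing of `p`-adic zeta values): definitions

THEOREM (helper28; idea of the method together with helper82).  The set of the primes `p` for which
`ζ_p(3)`, `ζ_p(5)` are not both zero has positive lower density.  The set of the primes `p` for which
`ζ_p(3), ζ_p(5), ζ_p(7)` are not all zero has upper density `≥ 2/25`, for `3, 5, 7, 9` it is
`≥ 1/10`, and it is positive for `5, 7, 9, 11` and for `3, 7, 9, 11`.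

Notation.  `t = 1/j = Δ/E₄³ = q - ...`, `x = E₆/E₄ = 1 - ...` (integral `q`-series),
`F_i = ∑ σ_{-(2 kap i + 1)}(n) q^n` (`i = 1, ..., K`), `F_0 = 1`, `kap 0 = 0`.
Rows: `t^e x^(kap i) F_i`, `0 ≤ e ≤ D`, `0 ≤ i ≤ K`: row number `i (D+1) + e`.
-/

open PowerSeries Finset Filter MP0f16e1
open scoped ArithmeticFunction.sigma

noncomputable section

namespace Pool.Agent.Work.MP_b73316_nt

/-! ## the statement -/

/-- the sequence whose limit is `ζ_p(n)` (expression of the frozen statement) -/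
def zs (p n : ℕ) [Fact p.Prime] (k : ℕ) : ℚ_[p] :=
  ((p : ℚ_[p]) ^ n / ((p : ℚ_[p]) ^ n - 1)) * ((n : ℚ_[p]) - 1)⁻¹ *
    (((p : ℚ_[p]) ^ k)⁻¹ *
      ∑ m ∈ (Finset.range (p ^ k)).filter (fun m => ¬ p ∣ m), ((m : ℚ_[p]) ^ (n - 1))⁻¹)

/-- `p` is prime, `ζ_p(n)` exists and is not zero -/
def NV (p n : ℕ) : Prop :=
  ∃ h : p.Prime, haveI := Fact.mk h; ∃ L : ℚ_[p], L ≠ 0 ∧ Tendsto (zs p n) atTop (nhds L)

/-! ## the rows -/

/-- `1 / E₄` -/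
def e4i : PowerSeries ℤ := invOfUnit e4 1

/-- `t = 1/j = Δ / E₄³` -/
def tt : PowerSeries ℤ := dl * e4i ^ 3

/-- `x = E₆ / E₄` -/
def xx : PowerSeries ℤ := e6 * e4i

/-- `∑_{n ≥ 1} (∑_{d ∣ n} d^(-b)) q^n` -/
def Fs (b : ℕ) : PowerSeries ℚ := PowerSeries.mk fun n => ∑ d ∈ n.divisors, ((d : ℚ) ^ b)⁻¹

/-- `F_i` -/
def FF (kap : ℕ → ℕ) (i : ℕ) : PowerSeries ℚ := if i = 0 then 1 else Fs (2 * kap i + 1)

/-- exponent of the denominators of `F_i` -/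
def bb (kap : ℕ → ℕ) (i : ℕ) : ℕ := if i = 0 then 0 else 2 * kap i + 1

/-- row number `i (D+1) + e` -/
def row (kap : ℕ → ℕ) (D i : ℕ) : PowerSeries ℚ :=
  toR ℚ (tt ^ (i % (D + 1)) * xx ^ (kap (i / (D + 1)))) * FF kap (i / (D + 1))

/-! ## `p`-adic sums -/

/-- `∑ r^(k-1)` over the odd `r < p^N` prime to `p` -/
def VV (p : ℕ) [Fact p.Prime] (k : ℤ) (N : ℕ) : ℚ_[p] :=
  ∑ r ∈ (range (p ^ N)).filter (fun r => ¬ p ∣ r ∧ Odd r), (r : ℚ_[p]) ^ (k - 1)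

/-- `∑ m^k` over the `m < p^N` prime to `p` -/
def UU (p : ℕ) [Fact p.Prime] (k : ℤ) (N : ℕ) : ℚ_[p] :=
  ∑ m ∈ (range (p ^ N)).filter (fun m => ¬ p ∣ m), (m : ℚ_[p]) ^ k

/-- `H` is the `q`-expansion `(2^k - 1) (-B_k/(2k) + ∑ σ_{k-1}(n) q^n)` -/
def IsH (p : ℕ) [Fact p.Prime] (k : ℕ) (H : PowerSeries ℤ_[p]) : Prop :=
  ((coeff 0 H : ℤ_[p]) : ℚ_[p]) = -((2 : ℚ_[p]) ^ k - 1) * ((bernoulli k : ℚ) : ℚ_[p]) / (2 * k) ∧
  ∀ n, 1 ≤ n → coeff n H = ((2 : ℤ_[p]) ^ k - 1) * ((σ (k - 1) n : ℕ) : ℤ_[p])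

/-- `F` is the series `∑ σ_{-b}(n) q^n` truncated at `q^p`, as a `p`-integral series -/
def IsF (p : ℕ) [Fact p.Prime] (b : ℕ) (F : PowerSeries ℤ_[p]) : Prop :=
  ∀ n < p, ((coeff n F : ℤ_[p]) : ℚ_[p]) = ((coeff n (Fs b) : ℚ) : ℚ_[p])

/-! ## weights of the bad primes -/

/-- number of `s ∈ {1,...,11}` with `s (p + 12) + 12 E < 12 l` -/
def ww (E p l : ℕ) : ℕ := ((Icc 1 11).filter (fun s => s * (p + 12) + 12 * E < 12 * l)).card

/-- `∑ log p` over the primes `p ≤ x` in `G` -/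
def thG (G : Set ℕ) (x : ℕ) : ℝ := by
  classical exact ∑ p ∈ (Icc 1 x).filter (fun p => p.Prime ∧ p ∈ G), Real.log p

/-- `G_u(l) = ∑_{s ≤ 11} max (0, u (l - D)/s - l)` -/
def GG (u D l : ℝ) : ℝ := ∑ s ∈ Icc (1 : ℕ) 11, max 0 (u * (l - D) / s - l)

/-- `2 ∫_1^m G_u(a) da` for `D = 1` -/
def gain (u m : ℝ) : ℝ :=
  ∑ s ∈ Icc (1 : ℕ) 11, if u < (u - s) * m then ((u - s) * m - u) ^ 2 / (s * (u - s)) else 0

/-- all the `ζ_p(2 kap i + 1)`, `1 ≤ i ≤ K`, vanish and `p ≥ P` is prime -/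
def Bad (kap : ℕ → ℕ) (K P p : ℕ) : Prop :=
  P ≤ p ∧ ∃ h : p.Prime, haveI := Fact.mk h;
    ∀ i ∈ Icc 1 K, Tendsto (zs p (2 * kap i + 1)) atTop (nhds 0)

/-- constant of the archimedean bound (`D = 4 n`, per row type, in units of `n²`) -/
def WW : ℝ := 27 / 2 * Real.log (1867 / 1000) + 3 / 2 * Real.log (1000 / 133) +
  8 * Real.log (383 / 100000)

/-- `l` (strictly increasing) and `δ` are the pivot columns and the pivot minor of the rows `A`: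
`l j` is the order of a nonzero combination of the `A i`, and `δ` is the determinant of the values at
the `A i` of any functionals `lam j` which are unipotent at `l j` -/
structure Piv {M : ℕ} (A : Fin M → PowerSeries ℚ) (l : Fin M → ℕ) (δ : ℚ) : Prop where
  mono : StrictMono l
  ne : δ ≠ 0
  comb : ∀ j : Fin M, ∃ c : Fin M → ℚ, (∑ i, c i • A i) ≠ 0 ∧
    ∀ k < l j, coeff k (∑ i, c i • A i) = 0
  det : ∀ (F : Type) [Field F] [Algebra ℚ F] (lam : Fin M → (PowerSeries ℚ →ₗ[ℚ] F)),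
    (∀ j, ∀ R : PowerSeries ℚ, (∀ k < l j, coeff k R = 0) →
      lam j R = algebraMap ℚ F (coeff (l j) R)) →
    (Matrix.of fun i j => lam j (A i)).det = algebraMap ℚ F δ

/-! ## `ℓ¹` norms of power series -/

/-- `∑ |f_n| r^n ≤ C` -/
def Bd (r C : ℝ) (f : PowerSeries ℝ) : Prop := ∀ N, ∑ n ∈ range N, |coeff n f| * r ^ n ≤ C

/-- bound of the row `e` in the archimedean gauge, `D = 4 n` -/
def rho (n e : ℕ) : ℝ :=
  (if e ≤ 3 * n then (1867 / 1000 : ℝ) ^ (9 * n - 3 * e) else (1000 / 133 : ℝ) ^ (3 * e - 9 * n)) *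
    (383 / 100000 : ℝ) ^ e

end Pool.Agent.Work.MP_b73316_nt

end
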