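import Pool.Agent.Work.MP_b73316_nt.Defs

/-!
Module Pf (size S-M): product formula for a rational number.

PROOF.  `δ = a / b` with `a = δ.num.natAbs`, `b = δ.den` up to sign, `log |δ| = log a - log b`,
`log a = ∑ p ∈ a.primeFactors, a.factorization p * log p`
(`Nat.factorization_prod_pow_eq_self`, `Real.log_prod`), same for `b`, `padicValRat p δ =
padicValNat p a - padicValNat p b`.  So `log |δ| = ∑ p ∈ P, v_p(δ) log p` for every finite set `P` of
primes containing the prime factors of `a` and `b`.  Take `P` = primes up to a large bound `N' ≥ N`.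
For `p ≤ N`: `‖δ‖_p = p^(-v_p(δ)) ≤ p^(-z p)` gives `z p ≤ v_p(δ)`
(`padicNormE.eq_padicNorm`, `padicNorm`/`Padic.norm_rat...`); for `p > N`: `‖δ‖_p ≤ 1` gives
`0 ≤ v_p(δ)`.  `log p ≥ 0`.
-/

set_option autoImplicit false

open Finset

namespace Pool.Agent.Work.MP_b73316_nt

private theorem log_nat_sum (n : ℕ) (N : ℕ) (hN : n ≤ N) :
    Real.log n = ∑ p ∈ (Icc 1 N).filter Nat.Prime, (padicValNat p n : ℝ) * Real.log p := by
  rw [Real.log_nat_eq_sum_factorization]
  rw [Finsupp.sum_of_support_subset (s := (Icc 1 N).filter Nat.Prime)]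
  · apply Finset.sum_congr rfl
    intro p hp
    rw [Nat.factorization_def n (Finset.mem_filter.1 hp).2]
  · intro p hp
    rw [Nat.support_factorization] at hp
    have h1 := Nat.prime_of_mem_primeFactors hp
    have h2 := Nat.le_of_mem_primeFactors hp
    rw [Finset.mem_filter, Finset.mem_Icc]
    exact ⟨⟨h1.one_lt.le, h2.trans hN⟩, h1⟩
  · intro i _
    simp

private theorem val_bound (p : ℕ) [Fact p.Prime] (δ : ℚ) (hδ : δ ≠ 0) (z : ℤ)
    (h : ‖(δ : ℚ_[p])‖ ≤ (p : ℝ) ^ (-z)) : z ≤ padicValRat p δ := by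
  have hp1 : (1 : ℝ) < p := by exact_mod_cast (Fact.out : p.Prime).one_lt
  rw [Padic.eq_padicNorm, padicNorm.eq_zpow_of_nonzero hδ] at h
  push_cast at h
  have := (zpow_le_zpow_iff_right₀ hp1).1 h
  linarith

theorem prod_formula (δ : ℚ) (hδ : δ ≠ 0) (N : ℕ) (z : ℕ → ℤ)
    (h1 : ∀ (p : ℕ) [Fact p.Prime], p ≤ N → ‖(δ : ℚ_[p])‖ ≤ (p : ℝ) ^ (-z p))
    (h2 : ∀ (p : ℕ) [Fact p.Prime], N < p → ‖(δ : ℚ_[p])‖ ≤ 1) :
    ∑ p ∈ (Icc 1 N).filter Nat.Prime, (z p : ℝ) * Real.log p ≤ Real.log |(δ : ℝ)| := by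
  set N' : ℕ := N + δ.num.natAbs + δ.den with hN'
  have hnum : δ.num.natAbs ≠ 0 := by
    rw [Int.natAbs_ne_zero]
    exact Rat.num_ne_zero.2 hδ
  have hlog : Real.log |(δ : ℝ)| =
      ∑ p ∈ (Icc 1 N').filter Nat.Prime, (padicValRat p δ : ℝ) * Real.log p := by
    have e1 : |(δ : ℝ)| = (δ.num.natAbs : ℝ) / (δ.den : ℝ) := by
      rw [Rat.cast_def, abs_div, Nat.abs_cast, Nat.cast_natAbs, Int.cast_abs]
    rw [e1, Real.log_div (by exact_mod_cast hnum) (by exact_mod_cast δ.den_nz),
      log_nat_sum δ.num.natAbs N' (by omega), log_nat_sum δ.den N' (by omega),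
      ← Finset.sum_sub_distrib]
    apply Finset.sum_congr rfl
    intro p _
    rw [padicValRat, padicValInt, Int.cast_sub, Int.cast_natCast, Int.cast_natCast]
    ring
  rw [hlog]
  have hsub : (Icc 1 N).filter Nat.Prime ⊆ (Icc 1 N').filter Nat.Prime := by
    apply Finset.filter_subset_filter
    apply Finset.Icc_subset_Icc le_rfl
    omega
  calc ∑ p ∈ (Icc 1 N).filter Nat.Prime, (z p : ℝ) * Real.log p
      ≤ ∑ p ∈ (Icc 1 N).filter Nat.Prime, (padicValRat p δ : ℝ) * Real.log p := by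
        apply Finset.sum_le_sum
        intro p hp
        rw [Finset.mem_filter, Finset.mem_Icc] at hp
        haveI := Fact.mk hp.2
        have := val_bound p δ hδ (z p) (h1 p hp.1.2)
        apply mul_le_mul_of_nonneg_right _ (Real.log_nonneg (by exact_mod_cast hp.1.1))
        exact_mod_cast this
    _ ≤ _ := by
        apply Finset.sum_le_sum_of_subset_of_nonneg hsub
        intro p hp hp2
        rw [Finset.mem_filter, Finset.mem_Icc] at hp hp2
        haveI := Fact.mk hp.2
        have hlt : N < p := by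
          by_contra hcon
          exact hp2 ⟨⟨hp.1.1, by omega⟩, hp.2⟩
        have := val_bound p δ hδ 0 (by simpa using h2 p hlt)
        apply mul_nonneg _ (Real.log_nonneg (by exact_mod_cast hp.1.1))
        exact_mod_cast this

end Pool.Agent.Work.MP_b73316_nt
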