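import Pool.Agent.Work.MP_b73316_nt.PadV
import Pool.Agent.Work.MP_b73316_nt.Pf

/-!
Module MainI (size M): the main inequality `∑_j (Γ(l_j) - b_j ψ(l_j)) ≤ log |δ|`.

PROOF.  Apply `prod_formula` with `N` and
`z p = (∑_j (if p is bad and l j < p then ww (D + kap K + 22) p (l j) else 0)) -
∑_j bb_j * Nat.log p (l j)`.  `h1`: `padic_bad` for bad `p` (`Bad kap K P p` with
`P = 4^(kap K) + 2 kap K + 14`), `padic_all` otherwise.  `h2`: for `p > N`, `l j ≤ 12 l j ≤ N < p`, so
`Nat.log p (l j) = 0` and `padic_all` gives `‖δ‖ ≤ 1`.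
The left side of `prod_formula` is `∑_j [∑_{p ≤ N prime, bad, l j < p} ww log p - bb_j
∑_{p ≤ N prime} Nat.log p (l j) log p]` (exchange the sums), and
`∑_{p ≤ N prime} Nat.log p (l j) log p = ψ(l j)` (`Chebyshev.psi_eq_sum_mul_log_prime`: the sum over
the primes `p ≤ l j ≤ N`; for `l j < p`, `Nat.log p (l j) = 0`).  `Bad` implies prime.
-/

set_option autoImplicit false

open PowerSeries Finset Filter MP0f16e1

namespace Pool.Agent.Work.MP_b73316_nt

/-- `∑_{p ≤ N prime} log_p(m) log p = ψ(m)` for `m ≤ N` -/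
private theorem mainI_psi (m N : ℕ) (hm : m ≤ N) :
    ∑ p ∈ (Icc 1 N).filter Nat.Prime, (Nat.log p m : ℝ) * Real.log p = Chebyshev.psi m := by
  rw [Chebyshev.psi_eq_sum_mul_log_prime]
  symm
  apply sum_subset
  · intro p hp
    rw [Nat.mem_primesLE] at hp
    rw [mem_filter, mem_Icc]
    exact ⟨⟨hp.2.one_lt.le, hp.1.trans hm⟩, hp.2⟩
  · intro p hp hp2
    rw [mem_filter] at hp
    rw [Nat.mem_primesLE] at hp2
    have h : m < p := by
      by_contra hcon
      exact hp2 ⟨not_lt.1 hcon, hp.2⟩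
    rw [Nat.log_of_lt h]
    simp

open Classical in
theorem main_ineq (kap : ℕ → ℕ) (h0 : kap 0 = 0) (hk : StrictMono kap) (K D : ℕ)
    (l : Fin ((K + 1) * (D + 1)) → ℕ) (δ : ℚ)
    (hP : Piv (fun i : Fin ((K + 1) * (D + 1)) => row kap D i) l δ) (N : ℕ)
    (hN : ∀ j, 12 * l j ≤ N) :
    ∑ j : Fin ((K + 1) * (D + 1)),
      ((∑ p ∈ (Icc 1 N).filter (fun p => p.Prime ∧
          p ∈ {p | Bad kap K (4 ^ kap K + 2 * kap K + 14) p} ∧ l j < p),
        (ww (D + (kap K + 22)) p (l j) : ℝ) * Real.log p) -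
        (bb kap ((j : ℕ) / (D + 1)) : ℝ) * Chebyshev.psi (l j)) ≤ Real.log |(δ : ℝ)| := by
  have hlN : ∀ j, l j ≤ N := fun j => by
    have := hN j
    omega
  set G : Set ℕ := {p | Bad kap K (4 ^ kap K + 2 * kap K + 14) p} with hG
  let W : ℕ → Fin ((K + 1) * (D + 1)) → ℕ := fun p j =>
    if p ∈ G ∧ l j < p then ww (D + (kap K + 22)) p (l j) else 0
  let B : ℕ → Fin ((K + 1) * (D + 1)) → ℕ := fun p j =>
    bb kap ((j : ℕ) / (D + 1)) * Nat.log p (l j)
  let z : ℕ → ℤ := fun p => (∑ j, (W p j : ℤ)) - ∑ j, (B p j : ℤ)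
  have hall : ∀ (p : ℕ) [Fact p.Prime], ‖(δ : ℚ_[p])‖ ≤ (p : ℝ) ^ (∑ j, (B p j : ℤ)) := by
    intro p hp
    have h := padic_all kap hk K D l δ hP p
    refine h.trans (le_of_eq ?_)
    have he : (∑ j : Fin ((K + 1) * (D + 1)),
        (bb kap ((j : ℕ) / (D + 1)) * Nat.log p (l j) : ℤ)) = ∑ j, (B p j : ℤ) := by
      refine sum_congr rfl fun j _ => ?_
      simp only [B]
      push_cast
      rfl
    rw [he]
  have h1 : ∀ (p : ℕ) [Fact p.Prime], p ≤ N → ‖(δ : ℚ_[p])‖ ≤ (p : ℝ) ^ (-z p) := by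
    intro p hp hpN
    by_cases hb : p ∈ G
    · have hb' := hb
      obtain ⟨hPp, h, hv⟩ := hb
      have h := padic_bad kap h0 hk K D l δ hP p hPp hv
      refine h.trans (le_of_eq ?_)
      have he : (∑ j : Fin ((K + 1) * (D + 1)),
          (bb kap ((j : ℕ) / (D + 1)) * Nat.log p (l j) : ℤ)) = ∑ j, (B p j : ℤ) := by
        refine sum_congr rfl fun j _ => ?_
        simp only [B]
        push_cast
        rfl
      have he2 : (∑ j : Fin ((K + 1) * (D + 1)),
          ((if l j < p then ww (D + kap K + 22) p (l j) else 0 : ℕ) : ℤ)) =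
          ∑ j, (W p j : ℤ) := by
        refine sum_congr rfl fun j _ => ?_
        simp only [W, hb', true_and, Nat.add_assoc]
      have hz : -z p = (∑ j, (B p j : ℤ)) - ∑ j, (W p j : ℤ) := by
        simp only [z]
        ring
      rw [he, he2, hz]
    · refine (hall p).trans (le_of_eq ?_)
      have hW : ∀ j, W p j = 0 := fun j => by
        simp only [W]
        rw [if_neg]
        exact fun hh => hb hh.1
      have hz : -z p = ∑ j, (B p j : ℤ) := by
        simp [z, hW]
      rw [hz]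
  have h2 : ∀ (p : ℕ) [Fact p.Prime], N < p → ‖(δ : ℚ_[p])‖ ≤ 1 := by
    intro p hp hNp
    have h := hall p
    have hB : ∀ j, B p j = 0 := fun j => by
      simp only [B]
      rw [Nat.log_of_lt ((hlN j).trans_lt hNp), mul_zero]
    simpa [hB] using h
  have h := prod_formula δ hP.ne N z h1 h2
  refine le_trans (le_of_eq ?_) h
  rw [sum_sub_distrib]
  have hz : ∀ p, (z p : ℝ) * Real.log p =
      (∑ j, (W p j : ℝ) * Real.log p) - ∑ j, (B p j : ℝ) * Real.log p := by
    intro p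
    simp only [z]
    push_cast
    rw [sub_mul, sum_mul, sum_mul]
  rw [sum_congr rfl fun p _ => hz p, sum_sub_distrib, sum_comm, sum_comm (s := (Icc 1 N).filter Nat.Prime)]
  congr 1
  · refine sum_congr rfl fun j _ => ?_
    have hf : (Icc 1 N).filter (fun p => p.Prime ∧ p ∈ G ∧ l j < p) =
        ((Icc 1 N).filter Nat.Prime).filter (fun p => p ∈ G ∧ l j < p) := by
      rw [filter_filter]
    rw [hf, sum_filter]
    refine sum_congr rfl fun p _ => ?_
    simp only [W]
    split_ifs <;> simp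
  · refine sum_congr rfl fun j _ => ?_
    rw [← mainI_psi (l j) N (hlN j), mul_sum]
    refine sum_congr rfl fun p _ => ?_
    simp only [B]
    push_cast
    ring

end Pool.Agent.Work.MP_b73316_nt
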