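import Pool.Agent.Work.MP_b73316_nt.CoreA
import Pool.Agent.Work.MP_b73316_nt.ArcT
import Pool.Agent.Work.MP_b73316_nt.MainI
import Pool.Agent.Work.MP_b73316_nt.Gam
import Pool.Agent.Work.MP_b73316_nt.Exc
import Pool.Agent.Work.MP_b73316_nt.Idl

/-!
Module Core (size M-L): the contradiction.

PROOF.  Notation: `λ = log (2000/7) > 0`, `m = K+1`, `u = 12 (1 - δ) > 0`, `b_i = bb kap i`,
`b_K = bb kap K ≥ b_i` for `i ≤ K` (`kap` strictly increasing), `D = 4 n`, `M = m (4n+1)`,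
`den = ∑_{i ≤ K} b_i (2i+1)`.  Let `σ > 0` be the slack of `c2`:
`σ = 8 gain - 8 den - 8 λ m² - m WW`.  Take `η₁` from `coreA` with `β = λ + b_K`.  Choose
`ε₁ > 0` with `ε₁ + b_K ε₁ ≤ η₁` and `8 (ε₁ + b_K ε₁) m² ≤ σ/8`, `ε₃ = σ/8`, and `ε > 0` (the `ε` of
the theorem) with `176 m (ε/4) ≤ σ/8` (i.e. `44 m ε ≤ σ/8`); `λ' = λ + ε₁ + b_K ε₁`.
Constants: `C₁` from `gam (kap K + 22) δ ε₁`, `C₂` from `psi_near ε₁`, `n₁` from
`arch_total kap K ε₃`.
Let `n` be large, `l, δ'` a pivot datum, `12 l_j ≤ Y`, and suppose the conclusion fails: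
`thG Bᶜ x ≤ δ x + ε n = δ x + η D` for all `x ≤ Y`, with `η = ε/4`, `B = {p | Bad ..}`.
`main_ineq` with `N = Y`, `gam` (for each `l_j`), `psi_near`, `arch_total`:
`∑_j (GG u D l_j - ε₁ l_j - 11 η D - C₁ - b_j ((1 + ε₁) l_j + C₂)) ≤ log |δ'| ≤ (m WW + ε₃) n² +
λ ∑ l_j`, where `b_j = bb kap (j/(4n+1)) ≤ b_K`.  As `l_j ≥ 0`, this gives
`∑_j (GG u D l_j - (λ' + b_j) l_j) ≤ (m WW + ε₃) n² + M (11 η D + C₁ + b_K |C₂|)`.
By `exc` (`lam = λ'`, `B = b_K`, hypothesis from `coreA`, `λ' + b_K ≤ λ + b_K + η₁`; the map is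
`Piv.mono`) the left side is `≥ ∑_{j<M} (GG u D j - (λ' + b_j) j)`, and by `idl` this is
`≥ 8 n² gain - (4n+1)²/2 (λ' m² + den)`.  Divide by `n²`, `n → ∞`: the difference
(right minus left) is `≤ n² [m WW + ε₃ + 176 m η + 8 (λ' m² + den) - 8 gain] + C n ≤ n² (-σ + σ/8 +
σ/8 + σ/8) + C n < 0` for `n` large, a contradiction.
-/

set_option autoImplicit false

open PowerSeries Finset Filter MP0f16e1

namespace Pool.Agent.Work.MP_b73316_nt

private theorem core_bb (kap : ℕ → ℕ) (hk : StrictMono kap) {i K : ℕ} (h : i ≤ K) :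
    bb kap i ≤ bb kap K := by
  unfold bb
  split_ifs with h1 h2
  · exact le_rfl
  · exact Nat.zero_le _
  · omega
  · have := hk.monotone h
    omega

/-- the final contradiction, real numbers -/
private theorem core_num {n G lam0 den m WWc bK ε₁ η C₄ σ : ℝ} (hn : 1 ≤ n)
    (hlam0 : 0 ≤ lam0) (hden : 0 ≤ den) (hm : 0 ≤ m) (hbK : 0 ≤ bK) (hε₁ : 0 ≤ ε₁)
    (hC₄ : 0 ≤ C₄)
    (hσ : σ = 8 * G - (8 * den + 8 * lam0 * m ^ 2 + m * WWc))
    (he2 : 8 * ((1 + bK) * ε₁) * m ^ 2 ≤ σ / 8) (hηm : 176 * m * η ≤ σ / 8)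
    (hbig : 8 * (5 * ((lam0 + (1 + bK) * ε₁) * m ^ 2 + den) + 44 * m * η + 5 * m * C₄) <
      5 * σ * n)
    (hfin : (4 * n) ^ 2 / 2 * G - (4 * n + 1) ^ 2 / 2 *
        ((lam0 + (1 + bK) * ε₁) * m ^ 2 + den) ≤
      (m * WWc + σ / 8) * n ^ 2 + m * (4 * n + 1) * (44 * η * n + C₄)) : False := by
  set P : ℝ := (lam0 + (1 + bK) * ε₁) * m ^ 2 + den with hP
  have hP0 : 0 ≤ P := by positivity
  have h9 : 5 * σ / 8 ≤ 8 * G - m * WWc - 8 * P - σ / 8 - 176 * m * η := by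
    have h1 : 8 * P = 8 * lam0 * m ^ 2 + 8 * ((1 + bK) * ε₁) * m ^ 2 + 8 * den := by
      rw [hP]
      ring
    linarith
  have h10 := mul_le_mul_of_nonneg_left h9 (sq_nonneg n)
  have h11 : n ^ 2 * (8 * G - m * WWc - 8 * P - σ / 8 - 176 * m * η) ≤
      (4 * n + 1 / 2) * P + 44 * m * η * n + m * C₄ * (4 * n + 1) := by
    linarith
  have h12 : (4 * n + 1 / 2) * P ≤ 5 * n * P :=
    mul_le_mul_of_nonneg_right (by linarith) hP0
  have h13 : m * C₄ * (4 * n + 1) ≤ m * C₄ * (5 * n) :=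
    mul_le_mul_of_nonneg_left (by linarith) (by positivity)
  have h14 : n * (8 * (5 * P + 44 * m * η + 5 * m * C₄)) < n * (5 * σ * n) :=
    mul_lt_mul_of_pos_left hbig (by linarith)
  have h15 : n ^ 2 * (5 * σ / 8) ≤ 5 * n * P + 44 * m * η * n + m * C₄ * (5 * n) := by
    linarith
  linarith

theorem core (kap : ℕ → ℕ) (h0 : kap 0 = 0) (hk : StrictMono kap) (K : ℕ) (δ : ℝ)
    (hδ : 0 ≤ δ) (hδ1 : δ < 1)
    (c1 : (Real.log (2000 / 7) + bb kap K) * (K + 1) < GG (12 * (1 - δ)) 1 (K + 1))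
    (c2 : 8 * ∑ i ∈ range (K + 1), (bb kap i : ℝ) * (2 * i + 1) +
      8 * Real.log (2000 / 7) * (K + 1) ^ 2 + (K + 1) * WW < 8 * gain (12 * (1 - δ)) (K + 1)) :
    ∃ (n₀ : ℕ) (ε : ℝ), 0 < ε ∧ ∀ n : ℕ, n₀ ≤ n →
      ∀ (l : Fin ((K + 1) * (4 * n + 1)) → ℕ) (δ' : ℚ),
      Piv (fun i : Fin ((K + 1) * (4 * n + 1)) => row kap (4 * n) i) l δ' →
      ∀ Y : ℕ, (∀ j, 12 * l j ≤ Y) →
        ∃ x ≤ Y, δ * x + ε * n <
          thG {p | Bad kap K (4 ^ kap K + 2 * kap K + 14) p}ᶜ x := by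
  set lam0 : ℝ := Real.log (2000 / 7) with hlam0
  set u : ℝ := 12 * (1 - δ) with hu
  set m : ℝ := (K : ℝ) + 1 with hm
  set bK : ℝ := (bb kap K : ℝ) with hbK
  set den : ℝ := ∑ i ∈ range (K + 1), (bb kap i : ℝ) * (2 * i + 1) with hden
  have hlam0pos : 0 < lam0 := Real.log_pos (by norm_num)
  have hupos : 0 < u := by
    rw [hu]
    linarith
  have hmpos : 0 < m := by positivity
  have hbK0 : 0 ≤ bK := Nat.cast_nonneg _
  have hden0 : 0 ≤ den := sum_nonneg fun i _ => by positivity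
  set σ : ℝ := 8 * gain u m - (8 * den + 8 * lam0 * m ^ 2 + m * WW) with hσ
  have hσ0 : 0 < σ := by
    rw [hσ]
    linarith
  obtain ⟨η₁, nA, hη₁, hA⟩ := coreA u m (lam0 + bK) hupos.le hmpos.le c1
  set ε₁ : ℝ := min (η₁ / (1 + bK)) (σ / (64 * (1 + bK) * m ^ 2)) with hε₁
  have hε₁0 : 0 < ε₁ := lt_min (by positivity) (by positivity)
  have he1 : (1 + bK) * ε₁ ≤ η₁ := by
    have h1 := min_le_left (η₁ / (1 + bK)) (σ / (64 * (1 + bK) * m ^ 2))
    rw [← hε₁, le_div_iff₀ (by positivity)] at h1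
    linarith
  have he2 : 8 * ((1 + bK) * ε₁) * m ^ 2 ≤ σ / 8 := by
    have h1 := min_le_right (η₁ / (1 + bK)) (σ / (64 * (1 + bK) * m ^ 2))
    rw [← hε₁, le_div_iff₀ (by positivity)] at h1
    linarith
  set ε : ℝ := σ / (352 * m) with hε
  have hε0 : 0 < ε := by positivity
  set η : ℝ := ε / 4 with hη
  have hη0 : 0 < η := by positivity
  have hηm : 176 * m * η ≤ σ / 8 := by
    rw [hη, hε]
    apply le_of_eq
    field_simp
    ring
  obtain ⟨C₁, hC₁⟩ := gam (kap K + 22) δ ε₁ hδ hδ1 hε₁0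
  obtain ⟨C₂, hC₂⟩ := psi_near ε₁ hε₁0
  obtain ⟨n₁, hn₁⟩ := arch_total kap K (σ / 8) (by positivity)
  set C₄ : ℝ := |C₁| + bK * |C₂| with hC₄
  have hC₄0 : 0 ≤ C₄ := by positivity
  set lam' : ℝ := lam0 + (1 + bK) * ε₁ with hlam'
  have hlam'0 : 0 ≤ lam' := by positivity
  obtain ⟨n₂, hn₂⟩ := exists_nat_gt
    (8 * (5 * (lam' * m ^ 2 + den) + 44 * m * η + 5 * m * C₄) / (5 * σ))
  refine ⟨max 1 (max nA (max n₁ n₂)), ε, hε0, ?_⟩
  intro n hn l δ' hP Y hY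
  have hg1 : 1 ≤ n := (le_max_left _ _).trans hn
  have hn' := (le_max_right _ _).trans hn
  have hgA : nA ≤ n := (le_max_left _ _).trans hn'
  have hn'' := (le_max_right _ _).trans hn'
  have hgn₁ : n₁ ≤ n := (le_max_left _ _).trans hn''
  have hgn₂ : n₂ ≤ n := (le_max_right _ _).trans hn''
  by_contra hcon
  push Not at hcon
  have hn1 : (1 : ℝ) ≤ n := by exact_mod_cast hg1
  have hD : ((4 * n : ℕ) : ℝ) = 4 * n := by push_cast; ring
  have hM : (((K + 1) * (4 * n + 1) : ℕ) : ℝ) = m * (4 * n + 1) := by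
    push_cast
    ring
  have hbj : ∀ j : Fin ((K + 1) * (4 * n + 1)),
      (bb kap ((j : ℕ) / (4 * n + 1)) : ℝ) ≤ bK := by
    intro j
    have h1 : (j : ℕ) / (4 * n + 1) ≤ K := by
      have h2 : (j : ℕ) / (4 * n + 1) < K + 1 := by
        rw [Nat.div_lt_iff_lt_mul (by omega)]
        exact j.2
      omega
    rw [hbK]
    exact_mod_cast core_bb kap hk h1
  have hmain := main_ineq kap h0 hk K (4 * n) l δ' hP Y hY
  have hsum : ∑ j : Fin ((K + 1) * (4 * n + 1)), (GG u ((4 * n : ℕ) : ℝ) (l j) -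
      (lam' + (bb kap ((j : ℕ) / (4 * n + 1)) : ℝ)) * l j + (lam0 * l j -
      (44 * η * n + C₄))) ≤ Real.log |(δ' : ℝ)| := by
    refine le_trans (sum_le_sum fun j _ => ?_) hmain
    have hg := hC₁ {p | Bad kap K (4 ^ kap K + 2 * kap K + 14) p} (4 * n) (l j) Y η hη0.le (hY j)
      (fun x hx => by
        refine (hcon x (hx.trans (hY j))).trans (le_of_eq ?_)
        rw [hD, hη]
        ring)
    have hψ : Chebyshev.psi (l j) ≤ (1 + ε₁) * l j + |C₂| := by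
      have h1 := (abs_le.mp (hC₂ (l j))).2
      have h2 := le_abs_self C₂
      linarith
    have hb0 : (0 : ℝ) ≤ (bb kap ((j : ℕ) / (4 * n + 1)) : ℝ) := Nat.cast_nonneg _
    have hb1 := hbj j
    have hl0 : (0 : ℝ) ≤ (l j : ℝ) := Nat.cast_nonneg _
    have hbψ : (bb kap ((j : ℕ) / (4 * n + 1)) : ℝ) * Chebyshev.psi (l j) ≤
        (bb kap ((j : ℕ) / (4 * n + 1)) : ℝ) * l j + bK * ε₁ * l j + bK * |C₂| := by
      have h1 := mul_le_mul_of_nonneg_left hψ hb0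
      have h2 : (bb kap ((j : ℕ) / (4 * n + 1)) : ℝ) * (ε₁ * l j + |C₂|) ≤
          bK * (ε₁ * l j + |C₂|) := mul_le_mul_of_nonneg_right hb1 (by positivity)
      linarith
    refine le_trans ?_ (sub_le_sub_right (le_trans hg (le_of_eq ?_)) _)
    · have h1 := le_abs_self C₁
      rw [hD]
      linarith
    · refine sum_congr ?_ fun _ _ => rfl
      ext p
      simp only [mem_filter]
  have harch := hn₁ n hgn₁ l δ' hP
  rw [sum_add_distrib, sum_sub_distrib _ (fun _ => 44 * η * n + C₄), ← mul_sum, sum_const,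
    card_univ, Fintype.card_fin, nsmul_eq_mul, hM] at hsum
  have hexc := exc ((K + 1) * (4 * n + 1)) u ((4 * n : ℕ) : ℝ) lam' bK hupos.le
    (Nat.cast_nonneg _) (fun j => (bb kap ((j : ℕ) / (4 * n + 1)) : ℝ)) hbj l hP.mono (by
      rw [hM, hD]
      refine le_trans ?_ (hA n hgA)
      refine mul_le_mul_of_nonneg_right ?_ (by positivity)
      linarith)
  have hidl := idl kap K (4 * n) u lam' hupos hlam'0
  rw [hD] at hidl
  rw [div_lt_iff₀ (by positivity)] at hn₂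
  refine core_num (n := n) (G := gain u m) (lam0 := lam0) (den := den) (m := m) (WWc := WW)
    (bK := bK) (ε₁ := ε₁) (η := η) (C₄ := C₄) (σ := σ) hn1 hlam0pos.le hden0 hmpos.le hbK0
    hε₁0.le hC₄0 hσ he2 hηm ?_ ?_
  · have h1 : (n₂ : ℝ) ≤ n := by exact_mod_cast hgn₂
    have h2 : (n₂ : ℝ) * (5 * σ) ≤ n * (5 * σ) := mul_le_mul_of_nonneg_right h1 (by positivity)
    linarith
  · rw [hD] at hexc hsum
    linarith

end Pool.Agent.Work.MP_b73316_nt
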