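import Pool.Agent.Work.MP_b73316_nt.Ser

/-!
Module DenM (size S): denominators of the rows.

PROOF.  `row = (integral series) * FF`, so `coeff l (row)` is a sum of integers times
`coeff n (FF kap i')`, `n ≤ l`, `i' = i / (D+1)`; in `ℚ_[p]` the norm of the sum is at most the maximum
of the norms, the norm of an integer is `≤ 1`.  `i' = 0`: `FF = 1`, `bb = 0`.  `i' > 0`: for `n = 0` the
coefficient is `0` (`Nat.divisors 0 = ∅`), for `n ≥ 1` it is `∑_{d ∣ n} d^(-b)`, `b = bb kap i'`, and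
`‖d^(-b)‖ = p^(b v_p(d)) ≤ p^(b log_p n) ≤ p^(b log_p l)` (`padicValNat_dvd_iff_le`,
`Nat.pow_le_of_le_log`, `Nat.le_log_of_pow_le`: `p^(v_p(d)) ∣ d ≤ n`; `Nat.log_mono_right`).
-/

set_option autoImplicit false

open PowerSeries Finset MP0f16e1

namespace Pool.Agent.Work.MP_b73316_nt

private theorem nrm_nat {p : ℕ} [Fact p.Prime] {d : ℕ} (hd : d ≠ 0) :
    ‖((d : ℕ) : ℚ_[p])‖ = (p : ℝ) ^ (-(padicValNat p d : ℤ)) := by
  rw [Padic.norm_eq_zpow_neg_valuation (by exact_mod_cast hd), Padic.valuation_natCast]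

private theorem nrm_inv {p : ℕ} [Fact p.Prime] {d l b : ℕ} (hd : d ≠ 0) (hdl : d ≤ l) :
    ‖(((d : ℚ_[p]) ^ b)⁻¹ : ℚ_[p])‖ ≤ (p : ℝ) ^ (b * Nat.log p l) := by
  have hp : (1 : ℝ) ≤ p := by exact_mod_cast (Fact.out : p.Prime).one_lt.le
  rw [norm_inv, norm_pow, nrm_nat hd, zpow_neg, inv_pow, inv_inv, zpow_natCast, ← pow_mul,
    mul_comm]
  refine pow_le_pow_right₀ hp (Nat.mul_le_mul_left _ ?_)
  exact (padicValNat_le_nat_log d).trans (Nat.log_mono_right hdl)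

private theorem FF_den (kap : ℕ → ℕ) (i n l p : ℕ) [Fact p.Prime] (hn : n ≤ l) :
    ‖((coeff n (FF kap i) : ℚ) : ℚ_[p])‖ ≤ (p : ℝ) ^ (bb kap i * Nat.log p l) := by
  have hp : (1 : ℝ) ≤ p := by exact_mod_cast (Fact.out : p.Prime).one_lt.le
  by_cases hi : i = 0
  · have h1 : (1 : ℝ) ≤ (p : ℝ) ^ (bb kap i * Nat.log p l) := one_le_pow₀ hp
    refine le_trans ?_ h1
    unfold FF
    rw [if_pos hi, coeff_one]
    split_ifs
    · simp
    · simp
  · unfold FF bb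
    rw [if_neg hi, if_neg hi]
    unfold Fs
    rw [coeff_mk, Rat.cast_sum]
    refine IsUltrametricDist.norm_sum_le_of_forall_le_of_nonneg (by positivity) ?_
    intro d hd
    have hdvd := Nat.dvd_of_mem_divisors hd
    have hn0 : n ≠ 0 := (Nat.mem_divisors.1 hd).2
    have hd0 : d ≠ 0 := fun h => hn0 (Nat.eq_zero_of_zero_dvd (h ▸ hdvd))
    have hdl : d ≤ l := (Nat.le_of_dvd (Nat.pos_of_ne_zero hn0) hdvd).trans hn
    have := nrm_inv (p := p) (b := 2 * kap i + 1) hd0 hdl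
    push_cast
    exact this

theorem row_den (kap : ℕ → ℕ) (D i l p : ℕ) [Fact p.Prime] :
    ‖((coeff l (row kap D i) : ℚ) : ℚ_[p])‖ ≤
      (p : ℝ) ^ (bb kap (i / (D + 1)) * Nat.log p l) := by
  unfold row
  rw [coeff_mul, Rat.cast_sum]
  refine IsUltrametricDist.norm_sum_le_of_forall_le_of_nonneg (by positivity) ?_
  intro x hx
  rw [HasAntidiagonal.mem_antidiagonal] at hx
  rw [Rat.cast_mul, norm_mul]
  have h1 : ‖((coeff x.1 (toR ℚ (tt ^ (i % (D + 1)) * xx ^ (kap (i / (D + 1))))) : ℚ) : ℚ_[p])‖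
      ≤ 1 := by
    unfold toR
    rw [coeff_map]
    have := Padic.norm_int_le_one (p := p)
      (coeff x.1 (tt ^ (i % (D + 1)) * xx ^ (kap (i / (D + 1)))))
    simpa using this
  have h2 := FF_den kap (i / (D + 1)) x.2 l p (by omega)
  calc _ ≤ 1 * (p : ℝ) ^ (bb kap (i / (D + 1)) * Nat.log p l) :=
        mul_le_mul h1 h2 (norm_nonneg _) zero_le_one
    _ = _ := one_mul _

end Pool.Agent.Work.MP_b73316_nt
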