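import Pool.Agent.Work.MP_b73316_nt.Defs

/-!
Module DetP (size S-M): Leibniz bound of a `p`-adic determinant.

PROOF.  `Matrix.det_apply`; the norm of a sum in `ℚ_[p]` is at most the largest norm of the terms
(`padicNormE.nonarchimedean`, `IsUltrametricDist.norm_sum_le` / `norm_sum_le_of_forall_le...`), the sign
has norm `1`.  For a permutation `σ` the norm of `∏ j, a (σ j) j` is at most
`p ^ (∑ j, (b (σ j) * v j) - ∑ j, w j)` (`zpow` of a sum, `Finset.prod_zpow`..., induction), and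
`∑ j, b (σ j) * v j ≤ ∑ j, b j * v j` by the rearrangement inequality (`b`, `v` monotone:
`Monovary.sum_comp_perm_mul_le_sum_mul`); `1 < p`.
-/

set_option autoImplicit false

open Finset

namespace Pool.Agent.Work.MP_b73316_nt

private theorem prod_zpow_sum {ι : Type*} (x : ℝ) (hx : x ≠ 0) (s : Finset ι) (f : ι → ℤ) :
    ∏ i ∈ s, x ^ (f i) = x ^ (∑ i ∈ s, f i) := by
  classical
  induction s using Finset.induction_on with
  | empty => simp
  | insert a s ha ih => rw [Finset.prod_insert ha, Finset.sum_insert ha, zpow_add₀ hx, ih]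

theorem det_padic (p : ℕ) [Fact p.Prime] {M : ℕ} (a : Matrix (Fin M) (Fin M) ℚ_[p])
    (b v w : Fin M → ℕ) (hb : Monotone b) (hv : Monotone v)
    (h : ∀ i j, ‖a i j‖ ≤ (p : ℝ) ^ ((b i * v j : ℤ) - w j)) :
    ‖a.det‖ ≤ (p : ℝ) ^ ((∑ j, (b j * v j : ℤ)) - ∑ j, (w j : ℤ)) := by
  have hp1 : (1 : ℝ) < p := by exact_mod_cast (Fact.out : p.Prime).one_lt
  have hp0 : (0 : ℝ) < p := by linarith
  rw [Matrix.det_apply]
  apply IsUltrametricDist.norm_sum_le_of_forall_le_of_nonneg (zpow_nonneg hp0.le _)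
  intro σ _
  have h1 : ‖Equiv.Perm.sign σ • ∏ i, a (σ i) i‖ = ∏ i, ‖a (σ i) i‖ := by
    rw [Units.smul_def, zsmul_eq_mul, norm_mul, norm_prod]
    rcases Int.units_eq_one_or (Equiv.Perm.sign σ) with h | h <;> simp [h]
  rw [h1]
  calc ∏ i, ‖a (σ i) i‖ ≤ ∏ i, (p : ℝ) ^ ((b (σ i) * v i : ℤ) - w i) :=
        Finset.prod_le_prod (fun _ _ => norm_nonneg _) (fun i _ => h _ _)
    _ = (p:ℝ) ^ (∑ i, ((b (σ i) * v i : ℤ) - w i)) := prod_zpow_sum _ hp0.ne' _ _
    _ ≤ _ := by
        apply zpow_le_zpow_right₀ hp1.le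
        rw [Finset.sum_sub_distrib]
        apply sub_le_sub_right
        have := (hb.monovary hv).sum_comp_perm_mul_le_sum_mul (σ := σ)
        exact_mod_cast this

end Pool.Agent.Work.MP_b73316_nt
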