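import Pool.Agent.Work.MP_0f16e1_nt.Hasse
import Pool.Agent.Work.MP_b73316_nt.Defs

/-!
Module Ep (size S): a `p`-integral form `E ≡ 1 mod p` of weight `p - 1` with constant term `1`.

PROOF.  `one_mem` (Hasse.lean): `1 ∈ MF (ZMod p) (p-1)`.  `MF_lift` for the surjective ring
homomorphism `PadicInt.toZMod : ℤ_[p] →+* ZMod p` gives `E' ∈ MF ℤ_[p] (p-1)` with `E'.map _ = 1`:
all coefficients of `E' - 1` are in the kernel of `toZMod`, the ideal generated by `p`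
(`PadicInt.ker_toZMod`, `PadicInt.maximalIdeal_eq_span_p`).  Its constant term `a ≡ 1 mod p` is a unit;
`E = a⁻¹ • E'` has constant term `1`, `a⁻¹ ≡ 1 mod p`, and `E ≡ 1`.
-/

set_option autoImplicit false

open PowerSeries Finset MP0f16e1

namespace Pool.Agent.Work.MP_b73316_nt

theorem ep (p : ℕ) [Fact p.Prime] (hp : 5 ≤ p) :
    ∃ E ∈ MF ℤ_[p] (p - 1), coeff 0 E = 1 ∧ ∀ n, (p : ℤ_[p]) ∣ coeff n (E - 1) := by
  obtain ⟨F, hF, hF1⟩ := MF_lift (PadicInt.toZMod : ℤ_[p] →+* ZMod p)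
    (ZMod.ringHom_surjective _) (one_mem p hp)
  have hdvd : ∀ n, (p : ℤ_[p]) ∣ coeff n (F - 1) := by
    intro n
    have h1 : PadicInt.toZMod (coeff n (F - 1)) = 0 := by
      have h0 := congrArg (coeff n) hF1
      rw [coeff_map] at h0
      rw [map_sub, map_sub, h0, coeff_one, coeff_one]
      split_ifs <;> simp
    have h2 : coeff n (F - 1) ∈ RingHom.ker (PadicInt.toZMod : ℤ_[p] →+* ZMod p) := h1
    rw [PadicInt.ker_toZMod, PadicInt.maximalIdeal_eq_span_p, Ideal.mem_span_singleton] at h2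
    exact h2
  have ha : (p : ℤ_[p]) ∣ coeff 0 F - 1 := by
    have := hdvd 0
    rw [map_sub, coeff_one, if_pos rfl] at this
    exact this
  have hu : IsUnit (coeff 0 F) := by
    rw [← IsLocalRing.notMem_maximalIdeal, PadicInt.maximalIdeal_eq_span_p,
      Ideal.mem_span_singleton]
    intro h
    have h3 : (p : ℤ_[p]) ∣ 1 := by
      have := dvd_sub h ha
      rwa [sub_sub_cancel] at this
    exact PadicInt.prime_p.not_unit (isUnit_of_dvd_one h3)
  obtain ⟨u, hu⟩ := hu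
  refine ⟨(↑u⁻¹ : ℤ_[p]) • F, Submodule.smul_mem _ _ hF, ?_, ?_⟩
  · rw [coeff_smul, ← hu, smul_eq_mul, Units.inv_mul]
  · intro n
    have h4 : coeff n ((↑u⁻¹ : ℤ_[p]) • F - 1) = (↑u⁻¹ : ℤ_[p]) * coeff n (F - 1) -
        (↑u⁻¹ : ℤ_[p]) * (coeff 0 F - 1) * coeff n (1 : PowerSeries ℤ_[p]) := by
      rw [map_sub, map_sub, coeff_smul, smul_eq_mul, ← hu, mul_sub, mul_sub, Units.inv_mul]
      ring
    rw [h4]
    exact dvd_sub (Dvd.dvd.mul_left (hdvd n) _) (Dvd.dvd.mul_right (Dvd.dvd.mul_left ha _) _)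

end Pool.Agent.Work.MP_b73316_nt
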