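import Pool.Agent.Work.MP_b73316_nt.Low

/-!
Module Fin (assembly; proved from the stubs).
-/

set_option autoImplicit false

open Finset Filter

namespace Pool.Agent.Work.MP_b73316_nt

/-- if the set of the primes with a nonzero value in `S` is finite, `cnt S` is bounded -/
private theorem cnt_bdd (S : Finset ℕ) (h : {p : ℕ | ∃ n ∈ S, NV p n}.Finite) :
    ∃ C : ℕ, ∀ X, cnt S X ≤ C := by
  classical
  refine ⟨h.toFinset.card, fun X => ?_⟩
  unfold cnt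
  apply Finset.card_le_card
  intro p hp
  rw [Finset.mem_filter] at hp
  rw [Set.Finite.mem_toFinset]
  exact hp.2

private theorem pi_unbdd (c : ℝ) (hc : 0 < c) (C : ℝ) :
    ∀ᶠ X : ℕ in atTop, C < c * Nat.primeCounting X := by
  have h1 : Tendsto (fun X : ℕ => (Nat.primeCounting X : ℝ)) atTop atTop :=
    tendsto_natCast_atTop_atTop.comp Nat.tendsto_primeCounting
  have h2 := h1.const_mul_atTop hc
  exact h2.eventually_gt_atTop C

private theorem inf_of_freq (S : Finset ℕ) (c : ℝ) (hc : 0 < c)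
    (h : ∃ᶠ X : ℕ in atTop, c * Nat.primeCounting X ≤ cnt S X) :
    {p : ℕ | ∃ n ∈ S, NV p n}.Infinite := by
  intro hfin
  obtain ⟨C, hC⟩ := cnt_bdd S hfin
  obtain ⟨X, h1, h2⟩ := (h.and_eventually (pi_unbdd c hc C)).exists
  have h3 : (cnt S X : ℝ) ≤ C := by exact_mod_cast hC X
  linarith

private theorem exists_inf (S : Finset ℕ) (h : {p : ℕ | ∃ n ∈ S, NV p n}.Infinite) :
    ∃ n ∈ S, {p : ℕ | NV p n}.Infinite := by
  by_contra hcon
  push Not at hcon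
  apply h
  have h1 : {p : ℕ | ∃ n ∈ S, NV p n} = ⋃ n ∈ S, {p : ℕ | NV p n} := by
    ext p
    simp
  rw [h1]
  apply Set.Finite.biUnion S.finite_toSet
  intro n hn
  exact hcon n hn

theorem final :
    (∃ c : ℝ, 0 < c ∧ ∀ᶠ X : ℕ in atTop, c * Nat.primeCounting X ≤ cnt {3, 5} X) ∧
    (∃ᶠ X : ℕ in atTop, (2 / 25 : ℝ) * Nat.primeCounting X ≤ cnt {3, 5, 7} X) ∧
    (∃ᶠ X : ℕ in atTop, (1 / 10 : ℝ) * Nat.primeCounting X ≤ cnt {3, 5, 7, 9} X) ∧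
    (∃ᶠ X : ℕ in atTop, (1 / 200 : ℝ) * Nat.primeCounting X ≤ cnt {5, 7, 9, 11} X) ∧
    (∃ᶠ X : ℕ in atTop, (1 / 80 : ℝ) * Nat.primeCounting X ≤ cnt {3, 7, 9, 11} X) ∧
    (∃ n₁ ∈ ({3, 5, 7, 9, 11} : Finset ℕ), ∃ n₂ ∈ ({3, 5, 7, 9, 11} : Finset ℕ), n₁ ≠ n₂ ∧
      {p : ℕ | NV p n₁}.Infinite ∧ {p : ℕ | NV p n₂}.Infinite) := by
  have hA3 : ∃ᶠ X : ℕ in atTop, (2 / 25 : ℝ) * Nat.primeCounting X ≤ cnt {3, 5, 7} X := by
    refine up kA rfl kA_mono 3 (2 / 25) (161 / 2000) (by norm_num) (by norm_num) (by norm_num)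
      cond_A3 _ ?_
    intro i hi
    rw [Finset.mem_Icc] at hi
    obtain ⟨h1, h2⟩ := hi
    interval_cases i <;> simp [kA]
  have hA4 : ∃ᶠ X : ℕ in atTop, (1 / 10 : ℝ) * Nat.primeCounting X ≤ cnt {3, 5, 7, 9} X := by
    refine up kA rfl kA_mono 4 (1 / 10) (201 / 2000) (by norm_num) (by norm_num) (by norm_num)
      cond_A4 _ ?_
    intro i hi
    rw [Finset.mem_Icc] at hi
    obtain ⟨h1, h2⟩ := hi
    interval_cases i <;> simp [kA]
  have hB4 : ∃ᶠ X : ℕ in atTop, (1 / 200 : ℝ) * Nat.primeCounting X ≤ cnt {5, 7, 9, 11} X := by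
    refine up kB rfl kB_mono 4 (1 / 200) (11 / 2000) (by norm_num) (by norm_num) (by norm_num)
      cond_B4 _ ?_
    intro i hi
    rw [Finset.mem_Icc] at hi
    obtain ⟨h1, h2⟩ := hi
    interval_cases i <;> simp [kB]
  have hC4 : ∃ᶠ X : ℕ in atTop, (1 / 80 : ℝ) * Nat.primeCounting X ≤ cnt {3, 7, 9, 11} X := by
    refine up kC rfl kC_mono 4 (1 / 80) (27 / 2000) (by norm_num) (by norm_num) (by norm_num)
      cond_C4 _ ?_
    intro i hi
    rw [Finset.mem_Icc] at hi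
    obtain ⟨h1, h2⟩ := hi
    interval_cases i <;> simp [kC]
  obtain ⟨c, hc, hlow⟩ := low
  refine ⟨⟨c, hc, hlow⟩, hA3, hA4, hB4, hC4, ?_⟩
  obtain ⟨n₁, hn₁, h1⟩ := exists_inf {3, 5} (inf_of_freq _ c hc hlow.frequently)
  have hn : n₁ = 3 ∨ n₁ = 5 := by simpa using hn₁
  rcases hn with rfl | rfl
  · obtain ⟨n₂, hn₂, h2⟩ := exists_inf {5, 7, 9, 11} (inf_of_freq _ _ (by norm_num) hB4)
    refine ⟨3, by simp, n₂, ?_, ?_, h1, h2⟩
    · simp at hn₂ ⊢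
      tauto
    · rintro rfl
      simp at hn₂
  · obtain ⟨n₂, hn₂, h2⟩ := exists_inf {3, 7, 9, 11} (inf_of_freq _ _ (by norm_num) hC4)
    refine ⟨5, by simp, n₂, ?_, ?_, h1, h2⟩
    · simp at hn₂ ⊢
      tauto
    · rintro rfl
      simp at hn₂

end Pool.Agent.Work.MP_b73316_nt
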