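import Pool.Agent.Work.MP_b73316_nt.Defs

/-!
Module PolyB (size S-M): partial fractions `P(T)/f(T)^s` in the basis `T^l / f(T)^(a(l))`.

Here `aa E d l = ⌈(l - E)/d⌉` (`0` for `l ≤ E`).

PROOF.  Induction on `s`.  `s = 0`: `deg P ≤ E`, `P(T) = ∑_{l ≤ E} P_l T^l` and `aa E d l = 0` for
`l ≤ E`.  Step `s → s+1`, `deg P ≤ E + (s+1) d`, put `m = E + s d`.  There is a polynomial `Q` with
`deg Q ≤ m` and `X^(m+1) ∣ P - Q f` (because `f(0) = 1`: `Q` is the truncation at degree `m` of the
power series `P · f⁻¹`; or solve recursively).  `P - Q f` has degree `≤ m + d` (as `deg f ≤ d`), so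
`P - Q f = ∑_{m < l ≤ m + d} c_l X^l`.  Multiply by `fi^(s+1)` (`fi * f(T) = 1`):
`P(T) fi^(s+1) = Q(T) fi^s + ∑_{m<l≤m+d} c_l T^l fi^(s+1)`; for `m < l ≤ m + d`,
`aa E d l = s + 1`; use the induction hypothesis for `Q`.
-/

set_option autoImplicit false

open PowerSeries Finset

namespace Pool.Agent.Work.MP_b73316_nt

/-- `⌈(l - E)/d⌉` -/
def aa (E d l : ℕ) : ℕ := if l ≤ E then 0 else (l - E + d - 1) / d

private theorem aa_small (E d l : ℕ) (h : l ≤ E) : aa E d l = 0 := by
  simp [aa, h]

private theorem aa_top (E d s k : ℕ) (hk : k < d) :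
    aa E d (E + s * d + 1 + k) = s + 1 := by
  have h1 : ¬ (E + s * d + 1 + k ≤ E) := by omega
  unfold aa
  rw [if_neg h1]
  have h2 : E + s * d + 1 + k - E + d - 1 = k + (s + 1) * d := by
    have : (s + 1) * d = s * d + d := by ring
    omega
  rw [h2, Nat.add_mul_div_right _ _ (by omega : 0 < d), Nat.div_eq_of_lt hk]
  omega

private theorem divStep {R : Type} [CommRing R] (f P : Polynomial R) (hf0 : f.coeff 0 = 1) (m : ℕ) :
    ∃ Q S : Polynomial R, Q.natDegree ≤ m ∧ P - Q * f = Polynomial.X ^ (m + 1) * S := by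
  induction m with
  | zero =>
    have h0 : (P - Polynomial.C (P.coeff 0) * f).coeff 0 = 0 := by
      simp [hf0]
    obtain ⟨S, hS⟩ := Polynomial.X_dvd_iff.2 h0
    exact ⟨Polynomial.C (P.coeff 0), S, by simp, by simpa using hS⟩
  | succ m ih =>
    obtain ⟨Q, S, hQ, hS⟩ := ih
    have h0 : (S - Polynomial.C (S.coeff 0) * f).coeff 0 = 0 := by
      simp [hf0]
    obtain ⟨S', hS'⟩ := Polynomial.X_dvd_iff.2 h0
    refine ⟨Q + Polynomial.C (S.coeff 0) * Polynomial.X ^ (m + 1), S', ?_, ?_⟩
    · refine (Polynomial.natDegree_add_le _ _).trans (max_le (by omega) ?_)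
      exact Polynomial.natDegree_C_mul_X_pow_le _ _
    · calc P - (Q + Polynomial.C (S.coeff 0) * Polynomial.X ^ (m + 1)) * f
          = (P - Q * f) - Polynomial.X ^ (m + 1) * (Polynomial.C (S.coeff 0) * f) := by ring
        _ = Polynomial.X ^ (m + 1) * (S - Polynomial.C (S.coeff 0) * f) := by rw [hS]; ring
        _ = Polynomial.X ^ (m + 1 + 1) * S' := by rw [hS']; ring

theorem polyB {R : Type} [CommRing R] (T fi : PowerSeries R) (f : Polynomial R) (d E : ℕ)
    (hd : 1 ≤ d) (hf0 : f.coeff 0 = 1) (hfd : f.natDegree ≤ d)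
    (hfi : fi * Polynomial.aeval T f = 1) (s : ℕ) (P : Polynomial R)
    (hP : P.natDegree ≤ E + s * d) :
    ∃ c : ℕ → R, Polynomial.aeval T P * fi ^ s =
      ∑ l ∈ range (E + s * d + 1), c l • (T ^ l * fi ^ (aa E d l)) := by
  induction s generalizing P with
  | zero =>
    refine ⟨fun l => P.coeff l, ?_⟩
    rw [Polynomial.aeval_eq_sum_range' (n := E + 0 * d + 1) (by omega) T, pow_zero, mul_one]
    refine Finset.sum_congr rfl fun l hl => ?_
    rw [aa_small E d l (by have := Finset.mem_range.1 hl; omega), pow_zero, mul_one]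
  | succ s ih =>
    obtain ⟨Q, S, hQ, hS⟩ := divStep f P hf0 (E + s * d)
    obtain ⟨cQ, hcQ⟩ := ih Q hQ
    set G := P - Q * f with hG
    have hsd : (s + 1) * d = s * d + d := by ring
    have hGd : G.natDegree < (E + s * d + 1) + d := by
      have h1 : G.natDegree ≤ max P.natDegree (Q * f).natDegree := Polynomial.natDegree_sub_le _ _
      have h2 : (Q * f).natDegree ≤ Q.natDegree + f.natDegree := Polynomial.natDegree_mul_le
      have h3 : max P.natDegree (Q * f).natDegree ≤ E + s * d + d :=
        max_le (by omega) (by omega)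
      omega
    have hG0 : ∀ l < E + s * d + 1, G.coeff l = 0 := by
      intro l hl
      rw [hS, Polynomial.coeff_X_pow_mul']
      rw [if_neg (by omega)]
    have hGs : Polynomial.aeval T G =
        ∑ k ∈ range d, G.coeff (E + s * d + 1 + k) • T ^ (E + s * d + 1 + k) := by
      rw [Polynomial.aeval_eq_sum_range' hGd T, Finset.sum_range_add]
      rw [Finset.sum_eq_zero (s := range (E + s * d + 1)) (fun l hl => by
        rw [hG0 l (Finset.mem_range.1 hl), zero_smul]), zero_add]
    have hPs : Polynomial.aeval T P = Polynomial.aeval T G +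
        Polynomial.aeval T Q * Polynomial.aeval T f := by
      rw [hG]
      simp
    refine ⟨fun l => if l < E + s * d + 1 then cQ l else G.coeff l, ?_⟩
    have hsplit : E + (s + 1) * d + 1 = (E + s * d + 1) + d := by omega
    rw [hsplit, Finset.sum_range_add]
    have e1 : ∑ l ∈ range (E + s * d + 1),
        (if l < E + s * d + 1 then cQ l else G.coeff l) • (T ^ l * fi ^ (aa E d l)) =
        Polynomial.aeval T Q * fi ^ s := by
      rw [hcQ]
      refine Finset.sum_congr rfl fun l hl => ?_
      rw [if_pos (Finset.mem_range.1 hl)]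
    have e2 : ∑ k ∈ range d,
        (if E + s * d + 1 + k < E + s * d + 1 then cQ (E + s * d + 1 + k)
          else G.coeff (E + s * d + 1 + k)) •
          (T ^ (E + s * d + 1 + k) * fi ^ (aa E d (E + s * d + 1 + k))) =
        Polynomial.aeval T G * fi ^ (s + 1) := by
      rw [hGs, Finset.sum_mul]
      refine Finset.sum_congr rfl fun k hk => ?_
      rw [if_neg (by omega), aa_top E d s k (Finset.mem_range.1 hk), smul_mul_assoc]
    rw [e1, e2, hPs, add_mul, add_comm]
    congr 1
    calc Polynomial.aeval T Q * Polynomial.aeval T f * fi ^ (s + 1)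
        = Polynomial.aeval T Q * fi ^ s * (fi * Polynomial.aeval T f) := by ring
      _ = Polynomial.aeval T Q * fi ^ s := by rw [hfi, mul_one]

end Pool.Agent.Work.MP_b73316_nt
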