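import Pool.Agent.Work.MP_b73316_nt.Lim1b

/-!
Module Lim3 (size S-M): the sequence `zs` converges; its limit is `0` only if `μ = 0`.

PROOF.  Let `n ≥ 3` be odd, `k = 1 - n = -(n-1)` (even, `≠ 0`).  `zs p n N = c · p^(-N) UU p k N` with
`c = p^n/(p^n - 1) · 1/(n-1) ≠ 0` (`m^k = (m^(n-1))⁻¹`; `p^n ≠ 1`, `n ≠ 1` in `ℚ_[p]`, characteristic
`0`).  By `mu_exists`, `p^(-N) UU p k N → k μ / (2^k - 1)` (`2^k ≠ 1` because `k ≠ 0`,
characteristic `0`; `p^(-2N)/p^(-N) → 0`).  So the limit of `zs` is `c k μ/(2^k-1)`.  If it is `0`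
(uniqueness of limits) then `μ = 0`, and the first part of `mu_exists` is the claim.
-/

set_option autoImplicit false

open Finset Filter

namespace Pool.Agent.Work.MP_b73316_nt

private theorem two_pow_ne {p : ℕ} [Fact p.Prime] (j : ℕ) (hj : 1 ≤ j) :
    (2 : ℚ_[p]) ^ (-(j : ℤ)) - 1 ≠ 0 := by
  intro h
  have h1 : (2 : ℚ_[p]) ^ (-(j : ℤ)) = 1 := sub_eq_zero.mp h
  rw [zpow_neg, inv_eq_one, zpow_natCast] at h1
  have h2 : ((2 ^ j : ℕ) : ℚ_[p]) = ((1 : ℕ) : ℚ_[p]) := by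
    push_cast
    exact h1
  have h3 : 2 ^ j = 1 := Nat.cast_injective h2
  have h4 : 2 ≤ 2 ^ j := by
    calc 2 = 2 ^ 1 := rfl
      _ ≤ 2 ^ j := Nat.pow_le_pow_right (by norm_num) hj
  omega

private theorem main {p : ℕ} [Fact p.Prime] (hp : p ≠ 2) (κ : ℕ) (hκ : 1 ≤ κ) :
    ∃ μ : ℚ_[p], (∀ N : ℕ, 1 ≤ N → ‖VV p (-(2 * κ : ℤ)) N - μ‖ ≤ (p : ℝ) ^ (-(N : ℤ))) ∧
      ∃ C : ℚ_[p], C ≠ 0 ∧ Tendsto (zs p (2 * κ + 1)) atTop (nhds (C * μ)) := by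
  have hpr : p.Prime := Fact.out
  have hp1 : (1 : ℝ) < p := by exact_mod_cast hpr.one_lt
  have hp0 : (0 : ℝ) < p := by linarith
  have hpQ : (p : ℚ_[p]) ≠ 0 := by
    exact_mod_cast hpr.ne_zero
  obtain ⟨μ, hμ⟩ := mu_exists p hp (-(2 * κ : ℤ)) ⟨-(κ : ℤ), by ring⟩
  refine ⟨μ, fun N hN => (hμ N hN).1, ?_⟩
  set k : ℤ := -(2 * κ : ℤ) with hk
  set A : ℚ_[p] := (2 : ℚ_[p]) ^ k - 1 with hA
  have hA0 : A ≠ 0 := by
    have := two_pow_ne (p := p) (2 * κ) (by omega)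
    rw [hA, hk]
    exact_mod_cast this
  have hk0 : (k : ℚ_[p]) ≠ 0 := by
    have : k ≠ 0 := by omega
    exact_mod_cast this
  set c : ℚ_[p] := ((p : ℚ_[p]) ^ (2 * κ + 1) / ((p : ℚ_[p]) ^ (2 * κ + 1) - 1)) *
    (((2 * κ + 1 : ℕ) : ℚ_[p]) - 1)⁻¹ with hc
  have hc0 : c ≠ 0 := by
    rw [hc]
    refine mul_ne_zero (div_ne_zero (pow_ne_zero _ hpQ) ?_) (inv_ne_zero ?_)
    · intro h
      have h1 : ((p ^ (2 * κ + 1) : ℕ) : ℚ_[p]) = ((1 : ℕ) : ℚ_[p]) := by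
        push_cast
        exact sub_eq_zero.mp h
      have h2 : p ^ (2 * κ + 1) = 1 := Nat.cast_injective h1
      have h3 : 1 < p ^ (2 * κ + 1) := Nat.one_lt_pow (by omega) hpr.one_lt
      omega
    · intro h
      have h1 : (((2 * κ + 1 : ℕ)) : ℚ_[p]) = ((1 : ℕ) : ℚ_[p]) := by
        rw [Nat.cast_one]
        exact sub_eq_zero.mp h
      have h2 : 2 * κ + 1 = 1 := Nat.cast_injective h1
      omega
  refine ⟨c * k / A, div_ne_zero (mul_ne_zero hc0 hk0) hA0, ?_⟩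
  have h1 : Tendsto (fun N : ℕ => A * (((p : ℚ_[p]) ^ N)⁻¹ * UU p k N)) atTop
      (nhds (k * μ)) := by
    rw [tendsto_iff_norm_sub_tendsto_zero]
    have h2 : Tendsto (fun N : ℕ => ((p : ℝ)⁻¹) ^ N) atTop (nhds 0) :=
      tendsto_pow_atTop_nhds_zero_of_lt_one (by positivity) (inv_lt_one_of_one_lt₀ hp1)
    refine squeeze_zero' (Eventually.of_forall fun N => norm_nonneg _) ?_ h2
    filter_upwards [eventually_ge_atTop 1] with N hN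
    have h3 := (hμ N hN).2
    have h4 : A * (((p : ℚ_[p]) ^ N)⁻¹ * UU p k N) - k * μ =
        ((p : ℚ_[p]) ^ N)⁻¹ * (A * UU p k N - k * (p : ℚ_[p]) ^ N * μ) := by
      have : (p : ℚ_[p]) ^ N ≠ 0 := pow_ne_zero _ hpQ
      field_simp
    rw [h4, norm_mul, norm_inv, Padic.norm_p_pow]
    calc ((p : ℝ) ^ (-(N : ℤ)))⁻¹ * ‖A * UU p k N - k * (p : ℚ_[p]) ^ N * μ‖
        ≤ ((p : ℝ) ^ (-(N : ℤ)))⁻¹ * (p : ℝ) ^ (-(2 * N : ℤ)) := by gcongr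
      _ = ((p : ℝ)⁻¹) ^ N := by
          rw [← zpow_neg, ← zpow_add₀ hp0.ne', inv_pow, ← zpow_natCast, ← zpow_neg]
          congr 1
          ring
  have h5 : ∀ N : ℕ, zs p (2 * κ + 1) N = c / A * (A * (((p : ℚ_[p]) ^ N)⁻¹ * UU p k N)) := by
    intro N
    have h6 : UU p k N = ∑ m ∈ (Finset.range (p ^ N)).filter (fun m => ¬ p ∣ m),
        ((m : ℚ_[p]) ^ (2 * κ + 1 - 1))⁻¹ := by
      unfold UU
      refine sum_congr rfl fun m _ => ?_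
      rw [hk, zpow_neg, Nat.add_sub_cancel]
      congr 1
      exact_mod_cast zpow_natCast (m : ℚ_[p]) (2 * κ)
    rw [zs, ← h6, ← hc]
    field_simp
  have h7 : Tendsto (zs p (2 * κ + 1)) atTop (nhds (c / A * (k * μ))) := by
    refine (h1.const_mul (c / A)).congr fun N => ?_
    rw [h5 N]
  have h8 : c / A * (k * μ) = c * k / A * μ := by ring
  rwa [h8] at h7

theorem zs_tendsto (p : ℕ) [Fact p.Prime] (hp : p ≠ 2) (n : ℕ) (hn : Odd n) (h3 : 3 ≤ n) :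
    ∃ L : ℚ_[p], Tendsto (zs p n) atTop (nhds L) := by
  obtain ⟨κ, rfl⟩ := hn
  obtain ⟨μ, -, C, -, h⟩ := main hp κ (by omega)
  exact ⟨_, h⟩

theorem van_V (p : ℕ) [Fact p.Prime] (hp : p ≠ 2) (κ : ℕ) (hκ : 1 ≤ κ)
    (h : Tendsto (zs p (2 * κ + 1)) atTop (nhds 0)) (N : ℕ) (hN : 1 ≤ N) :
    ‖VV p (-(2 * κ : ℤ)) N‖ ≤ (p : ℝ) ^ (-(N : ℤ)) := by
  obtain ⟨μ, h1, C, hC, h2⟩ := main hp κ hκ
  have h3 : C * μ = 0 := tendsto_nhds_unique h2 h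
  have h4 : μ = 0 := by
    rcases mul_eq_zero.mp h3 with h5 | h5
    · exact absurd h5 hC
    · exact h5
  have h5 := h1 N hN
  rwa [h4, sub_zero] at h5

end Pool.Agent.Work.MP_b73316_nt
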