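import Pool.Agent.Work.MP_b73316_nt.Lim2

/-!
Module Hmf (size S-M): `(2^k - 1) G_k` is a `p`-integral modular form of weight `k`.

PROOF.  (1) `x = -(2^k - 1) B_k/(2k) ∈ ℚ_p` has norm `≤ 1`: `V_bern` with `N = 1` and `‖VV‖ ≤ 1` give
`‖(2^k - 1)(1 - p^(k-1)) B_k / k‖ ≤ 1`, and `1 - p^(k-1)`, `2` have norm `1`.  So `H` with `IsH p k H`
exists (coefficients in `ℤ_[p]`).
(2) `H ∈ MF ℤ_[p] k`.  Mathlib: `EisensteinSeries.E_qExpansion_coeff` (`3 ≤ k`, `k` even): the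
`q`-expansion of `E_k` is `1 - (2k/B_k) ∑ σ_{k-1}(n) q^n`, `EisensteinSeries.E_ne_zero`..., and `B_k ≠ 0`
(see how `Pool/Agent/Work/MP_0f16e1_nt/Hasse.lean` does it; if `B_k = 0` in Mathlib's formula the
coefficient would be `0` and `E_k = 1` is impossible in weight `k ≥ 4`; or use
`riemannZeta_two_mul_nat` / positivity of zeta: `B_k ≠ 0` for even `k ≥ 2`).  So the rational series
`P = mk (n = 0: -(2^k-1) B_k/(2k); n ≥ 1: (2^k-1) σ_{k-1}(n))` maps to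
`-(2^k-1) B_k/(2k) · E_k` in `ℂ⟦q⟧`, in `MF ℂ k` by `form_mem`; `MF_sat` (`ℚ → ℂ`) gives `P ∈ MF ℚ k`,
`MF_map` (`ℚ → ℚ_[p]`) gives `P ∈ MF ℚ_[p] k`, this is the image of `H`, and `MF_sat`
(`ℤ_[p] → ℚ_[p]` injective) gives the claim.
-/

set_option autoImplicit false

open PowerSeries Finset MP0f16e1

namespace Pool.Agent.Work.MP_b73316_nt

private theorem hm_bern (k : ℕ) (hk : Even k) (hk4 : 4 ≤ k) : bernoulli k ≠ 0 := by
  obtain ⟨m, rfl⟩ := hk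
  have hm : m ≠ 0 := by omega
  intro h
  have h1 := riemannZeta_two_mul_nat hm
  rw [show 2 * m = m + m by ring, h] at h1
  simp only [Rat.cast_zero, mul_zero, zero_div] at h1
  refine riemannZeta_ne_zero_of_one_le_re (s := 2 * (m : ℂ)) ?_ h1
  have h2 : (2 * (m : ℂ)).re = 2 * (m : ℝ) := by simp
  rw [h2]
  have h3 : (1 : ℝ) ≤ m := by exact_mod_cast Nat.one_le_iff_ne_zero.2 hm
  linarith

private theorem hm_mem (k : ℕ) (hk : Even k) (hk4 : 4 ≤ k) :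
    (PowerSeries.mk fun n => if n = 0 then -((2 : ℚ) ^ k - 1) * bernoulli k / (2 * k)
      else ((2 : ℚ) ^ k - 1) * (ArithmeticFunction.sigma (k - 1) n : ℕ)) ∈ MF ℚ k := by
  have hk3 : 3 ≤ k := by omega
  have hB := hm_bern k hk hk4
  have hBC : ((bernoulli k : ℚ) : ℂ) ≠ 0 := by exact_mod_cast hB
  have hkC : (k : ℂ) ≠ 0 := by
    have : k ≠ 0 := by omega
    exact_mod_cast this
  refine MF_sat (algebraMap ℚ ℂ) (algebraMap ℚ ℂ).injective ?_
  have h1 : (PowerSeries.mk fun n => if n = 0 then -((2 : ℚ) ^ k - 1) * bernoulli k / (2 * k)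
      else ((2 : ℚ) ^ k - 1) * (ArithmeticFunction.sigma (k - 1) n : ℕ)).map (algebraMap ℚ ℂ) =
      (-((2 : ℂ) ^ k - 1) * ((bernoulli k : ℚ) : ℂ) / (2 * k)) •
        UpperHalfPlane.qExpansion 1 (ModularForm.E hk3 : UpperHalfPlane → ℂ) := by
    ext n
    rw [coeff_map, coeff_mk, coeff_smul, EisensteinSeries.E_qExpansion_coeff hk3 hk]
    split_ifs with h0
    · simp
    · rw [smul_eq_mul]
      simp only [eq_ratCast]
      push_cast
      field_simp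
  rw [h1]
  exact Submodule.smul_mem _ _ (form_mem k hk _)

private theorem hm_unit (p : ℕ) [Fact p.Prime] {r : ℕ} (h : ¬ p ∣ r) : ‖(r : ℚ_[p])‖ = 1 := by
  rw [Padic.norm_natCast_eq_one_iff]
  exact ((Fact.out : p.Prime).coprime_iff_not_dvd.2 h)

private theorem hm_int (p k : ℕ) [Fact p.Prime] (hp : 5 ≤ p) (hk : Even k) (hk4 : 4 ≤ k) :
    ‖-((2 : ℚ_[p]) ^ k - 1) * ((bernoulli k : ℚ) : ℚ_[p]) / (2 * k)‖ ≤ 1 := by
  have h1 := V_bern p (by omega) k hk (by omega) 1 le_rfl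
  have hVV : ‖VV p k 1‖ ≤ 1 := by
    unfold VV
    refine IsUltrametricDist.norm_sum_le_of_forall_le_of_nonneg zero_le_one fun r hr => ?_
    rw [norm_zpow, hm_unit p (mem_filter.1 hr).2.1, one_zpow]
  have hp1 : (p : ℝ) ^ (-((1 : ℕ) : ℤ)) ≤ 1 := by
    rw [Nat.cast_one, zpow_neg_one]
    refine inv_le_one_of_one_le₀ ?_
    have : 1 ≤ p := by omega
    exact_mod_cast this
  set y := ((2 : ℚ_[p]) ^ k - 1) * (1 - (p : ℚ_[p]) ^ (k - 1)) *
      ((bernoulli k : ℚ) : ℚ_[p]) / k with hy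
  have hyn : ‖y‖ ≤ 1 := by
    have h2 : y = VV p k 1 - (VV p k 1 - y) := by ring
    rw [h2, sub_eq_add_neg]
    refine (IsUltrametricDist.norm_add_le_max _ _).trans (max_le hVV ?_)
    rw [norm_neg]
    exact h1.trans hp1
  have h3 : ‖(1 : ℚ_[p]) - (p : ℚ_[p]) ^ (k - 1)‖ = 1 := by
    have h4 : ‖(p : ℚ_[p]) ^ (k - 1)‖ < 1 := by
      rw [norm_pow]
      exact pow_lt_one₀ (norm_nonneg _) Padic.norm_p_lt_one (by omega)
    have h5 : ‖-((p : ℚ_[p]) ^ (k - 1))‖ ≠ ‖(1 : ℚ_[p])‖ := by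
      rw [norm_neg, norm_one]
      exact h4.ne
    rw [sub_eq_add_neg, IsUltrametricDist.norm_add_eq_max_of_norm_ne_norm h5.symm, norm_neg,
      norm_one]
    exact max_eq_left h4.le
  have h6 : ‖(2 : ℚ_[p])‖ = 1 := by
    have h7 := hm_unit p (r := 2) (fun h => by
      have := Nat.le_of_dvd (by norm_num) h
      omega)
    exact_mod_cast h7
  have h8 : (1 : ℚ_[p]) - (p : ℚ_[p]) ^ (k - 1) ≠ 0 := by
    rw [← norm_ne_zero_iff, h3]
    exact one_ne_zero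
  have h9 : (2 : ℚ_[p]) ≠ 0 := by
    rw [← norm_ne_zero_iff, h6]
    exact one_ne_zero
  have hk0 : (k : ℚ_[p]) ≠ 0 := by
    have : k ≠ 0 := by omega
    exact_mod_cast this
  have h10 : -((2 : ℚ_[p]) ^ k - 1) * ((bernoulli k : ℚ) : ℚ_[p]) / (2 * k) =
      -(y / (2 * (1 - (p : ℚ_[p]) ^ (k - 1)))) := by
    rw [hy]
    field_simp
  rw [h10, norm_neg, norm_div, norm_mul, h3, h6]
  simpa using hyn

theorem hmf (p k : ℕ) [Fact p.Prime] (hp : 5 ≤ p) (hk : Even k) (hk4 : 4 ≤ k) :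
    ∃ H ∈ MF ℤ_[p] k, IsH p k H := by
  let x : ℤ_[p] := ⟨-((2 : ℚ_[p]) ^ k - 1) * ((bernoulli k : ℚ) : ℚ_[p]) / (2 * k),
    hm_int p k hp hk hk4⟩
  have hx : (x : ℚ_[p]) = -((2 : ℚ_[p]) ^ k - 1) * ((bernoulli k : ℚ) : ℚ_[p]) / (2 * k) := rfl
  refine ⟨PowerSeries.mk fun n => if n = 0 then x else
    ((2 : ℤ_[p]) ^ k - 1) * ((ArithmeticFunction.sigma (k - 1) n : ℕ) : ℤ_[p]), ?_, ?_, ?_⟩
  · refine MF_sat (PadicInt.Coe.ringHom (p := p)) Subtype.val_injective ?_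
    have h1 := MF_map (algebraMap ℚ ℚ_[p]) (hm_mem k hk hk4)
    convert h1 using 1
    ext n
    rw [coeff_map, coeff_map, coeff_mk, coeff_mk]
    split_ifs with h0
    · rw [eq_ratCast]
      push_cast
      exact hx
    · rw [eq_ratCast]
      change ((((2 : ℤ_[p]) ^ k - 1) *
        ((ArithmeticFunction.sigma (k - 1) n : ℕ) : ℤ_[p]) : ℤ_[p]) : ℚ_[p]) = _
      push_cast
      rfl
  · rw [coeff_mk, if_pos rfl, hx]
  · intro n hn
    rw [coeff_mk, if_neg (by omega)]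

end Pool.Agent.Work.MP_b73316_nt
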