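import Pool.Agent.Work.MP_b73316_nt.Ser

/-!
Module Str0 (size S-M): structure of forms: `G = g(t) E₄^w E₆^β` and the polynomial `f`.

Notation: `β = k/2 % 2`, `w = (k - 6β)/4`, `nS k = (k - 6β)/12`.

PROOF.  `str0`: by `Basis_repr` with `j0 = 0` (`MF R k` is the span of all `mono R j a b`,
`12 j + 4 a + 6 b = k`), `G = ∑_{j ≤ nS k} c_j g R k j`, `g R k j = toR (dl^j e4^((k-12j-6β)/4) e6^β)`,
and `dl = tt e4^3`, `(k - 12 j - 6 β)/4 + 3 j = w` for `j ≤ nS k`, if `6 β ≤ k`.  (If `6 β > k` then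
`k = 2` and `MF R 2 = ⊥` since `12 j + 4 a + 6 b = 2` is impossible: `G = 0`, `g = 0`.)
`fpoly`: `k = p - 1`, `β = (p-1)/2 % 2`, `E = f₀(t) E₄^w E₆^β`, `f = f₀ · (1 - 1728 X)^β`; constant
terms: `f₀(0) = 1`; degree `≤ nS (p-1) + β = dd p`; and `f(t) E₄^(w+3β) = E E₄^(3β)(1-1728t)^β E₆^(-β)`,
i.e. `f(t) E₄^(w + 3β) = E E₆^β` because `(1 - 1728 t) E₄³ = E₆²` (`v_eq`): if `β = 1`,
`f₀(t) (1 - 1728 t) E₄^(w+3) = f₀(t) E₄^w E₆² = E E₆`.  Here `w + 3 β = (p - 1 + 6β)/4`.
`dd_bound`: `12 dd p ≤ p - 1 - 6β + 12 β ≤ p + 5`; `dd p ≥ 1` for `p ≥ 13`;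
`12 dd p ≥ (p - 1 - 6β - 8) + 12 β`, because `4 ∣ p - 1 - 6β`.
-/

set_option autoImplicit false

open PowerSeries Finset MP0f16e1

namespace Pool.Agent.Work.MP_b73316_nt

/-- degree bound of the supersingular polynomial -/
def dd (p : ℕ) : ℕ := (p - 1 - 6 * ((p - 1) / 2 % 2)) / 12 + (p - 1) / 2 % 2

private theorem toR_mul' (R : Type*) [CommRing R] (a b : PowerSeries ℤ) :
    toR R (a * b) = toR R a * toR R b := by
  unfold toR
  exact map_mul _ _ _

private theorem toR_pow' (R : Type*) [CommRing R] (a : PowerSeries ℤ) (n : ℕ) :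
    toR R (a ^ n) = toR R a ^ n := by
  unfold toR
  exact map_pow _ _ _

theorem str0 {R : Type} [CommRing R] (k : ℕ) (hk : Even k) (G : PowerSeries R)
    (hG : G ∈ MF R k) : ∃ g : Polynomial R, g.natDegree ≤ nS k ∧
      G = Polynomial.aeval (toR R tt) g *
        toR R (e4 ^ ((k - 6 * (k / 2 % 2)) / 4) * e6 ^ (k / 2 % 2)) := by
  by_cases h6 : 6 * (k / 2 % 2) ≤ k
  · have h1 : ∃ c : ℕ → R, G = ∑ j ∈ Finset.Icc 0 (nS k), c j • g R k j := by
      apply Basis_repr R
      have h : {f : PowerSeries R | ∃ j a b : ℕ, 0 ≤ j ∧ 12 * j + 4 * a + 6 * b = k ∧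
          f = mono R j a b} = {f | ∃ j a b : ℕ, 12 * j + 4 * a + 6 * b = k ∧ f = mono R j a b} := by
        ext f
        simp
      rw [h]
      exact hG
    obtain ⟨c, hc⟩ := h1
    refine ⟨∑ j ∈ Finset.Icc 0 (nS k), Polynomial.C (c j) * Polynomial.X ^ j, ?_, ?_⟩
    · refine Polynomial.natDegree_sum_le_of_forall_le _ _ fun j hj => ?_
      rw [Finset.mem_Icc] at hj
      exact (Polynomial.natDegree_C_mul_X_pow_le _ _).trans hj.2
    · rw [hc, map_sum, Finset.sum_mul]
      refine Finset.sum_congr rfl fun j hj => ?_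
      rw [Finset.mem_Icc] at hj
      have hj2 : 12 * j ≤ k - 6 * (k / 2 % 2) := by
        have h2 := hj.2
        unfold nS at h2
        have h3 := (Nat.le_div_iff_mul_le (by norm_num : 0 < 12)).1 h2
        omega
      have hw : (k - 6 * (k / 2 % 2)) / 4 = 3 * j + (k - 12 * j - 6 * (k / 2 % 2)) / 4 := by
        omega
      rw [map_mul, map_pow, Polynomial.aeval_C, Polynomial.aeval_X, hw]
      unfold g mono
      rw [← tt_mul, Algebra.smul_def]
      simp only [toR_mul', toR_pow']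
      ring
  · have h1 : MF R k = ⊥ := by
      unfold MF
      rw [Submodule.span_eq_bot]
      rintro f ⟨j, a, b, h1, -⟩
      exfalso
      apply h6
      have h2 : k / 2 % 2 = b % 2 := by omega
      rw [h2]
      omega
    rw [h1, Submodule.mem_bot] at hG
    exact ⟨0, by simp, by rw [hG, map_zero, zero_mul]⟩

theorem fpoly (p : ℕ) [Fact p.Prime] (hp : 5 ≤ p) (E : PowerSeries ℤ_[p])
    (hE : E ∈ MF ℤ_[p] (p - 1)) (h0 : coeff 0 E = 1) :
    ∃ f : Polynomial ℤ_[p], f.coeff 0 = 1 ∧ f.natDegree ≤ dd p ∧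
      Polynomial.aeval (toR ℤ_[p] tt) f *
        toR ℤ_[p] (e4 ^ ((p - 1 + 6 * ((p - 1) / 2 % 2)) / 4)) =
      E * toR ℤ_[p] (e6 ^ ((p - 1) / 2 % 2)) := by
  have hpp : p.Prime := Fact.out
  obtain ⟨m, hm⟩ := hpp.odd_of_ne_two (by omega)
  obtain ⟨f₀, hf1, hf2⟩ := str0 (p - 1) ⟨m, by omega⟩ E hE
  have hf0 : f₀.coeff 0 = 1 := by
    have h1 : constantCoeff (Polynomial.aeval (toR ℤ_[p] tt) f₀) = f₀.coeff 0 := by
      rw [Polynomial.aeval_def, Polynomial.hom_eval₂]
      have h2 : constantCoeff (toR ℤ_[p] tt) = 0 := by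
        have h3 := tt_pow_coeff_lt (l := 1) (k := 0) (by norm_num)
        rw [pow_one] at h3
        rw [← coeff_zero_eq_constantCoeff_apply]
        unfold toR
        rw [coeff_map, h3, map_zero]
      rw [h2, Polynomial.eval₂_at_zero]
      simp
    have h4 : constantCoeff (toR ℤ_[p] (e4 ^ ((p - 1 - 6 * ((p - 1) / 2 % 2)) / 4) *
        e6 ^ ((p - 1) / 2 % 2))) = 1 := by
      have h5 : constantCoeff e4 = 1 := by
        rw [← coeff_zero_eq_constantCoeff_apply]
        simp [e4]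
      have h6 : constantCoeff e6 = 1 := by
        rw [← coeff_zero_eq_constantCoeff_apply]
        simp [e6]
      rw [← coeff_zero_eq_constantCoeff_apply]
      unfold toR
      rw [coeff_map, coeff_zero_eq_constantCoeff_apply, map_mul, map_pow, map_pow, h5, h6]
      simp
    rw [coeff_zero_eq_constantCoeff_apply, hf2, map_mul, h1, h4, mul_one] at h0
    exact h0
  rcases Nat.mod_two_eq_zero_or_one ((p - 1) / 2) with hb | hb
  · refine ⟨f₀, hf0, ?_, ?_⟩
    · refine hf1.trans ?_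
      unfold nS dd
      omega
    · rw [hb] at hf2 ⊢
      rw [hf2]
      simp only [mul_zero, Nat.sub_zero, pow_zero, mul_one, add_zero]
      unfold toR
      rw [map_one, mul_one]
  · refine ⟨f₀ * (1 - 1728 * Polynomial.X), ?_, ?_, ?_⟩
    · rw [Polynomial.mul_coeff_zero, hf0]
      simp
    · refine Polynomial.natDegree_mul_le.trans ?_
      have h1 : (1 - 1728 * Polynomial.X : Polynomial ℤ_[p]).natDegree ≤ 1 := by
        refine (Polynomial.natDegree_sub_le _ _).trans ?_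
        rw [Polynomial.natDegree_one]
        refine max_le (by norm_num) ?_
        have h2 : (1728 : Polynomial ℤ_[p]) = Polynomial.C 1728 := by
          rw [← map_ofNat Polynomial.C]
        rw [h2]
        exact (Polynomial.natDegree_C_mul_le _ _).trans Polynomial.natDegree_X_le
      unfold nS at hf1
      unfold dd
      rw [hb] at hf1 ⊢
      omega
    · rw [hb] at hf2 ⊢
      have hw : (p - 1 + 6 * 1) / 4 = (p - 1 - 6 * 1) / 4 + 3 := by omega
      rw [hw, hf2, map_mul, pow_one, pow_add, toR_mul', toR_mul']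
      have h1 : Polynomial.aeval (toR ℤ_[p] tt) (1 - 1728 * Polynomial.X : Polynomial ℤ_[p]) *
          toR ℤ_[p] (e4 ^ 3) =
          toR ℤ_[p] e6 * toR ℤ_[p] e6 := by
        rw [← toR_mul', ← sq, ← v_eq, toR_mul']
        congr 1
        rw [map_sub, map_one, map_mul, Polynomial.aeval_X]
        unfold toR
        rw [map_sub, map_one, map_mul]
        congr 2
        rw [map_ofNat, map_ofNat]
      rw [mul_assoc, mul_assoc, mul_assoc, ← h1]
      ring

theorem dd_bound (p : ℕ) [Fact p.Prime] (hp : 13 ≤ p) : 1 ≤ dd p ∧ 12 * dd p ≤ p + 5 ∧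
    p - 1 + 6 * ((p - 1) / 2 % 2) ≤ 12 * dd p + 8 := by
  have hpp : p.Prime := Fact.out
  obtain ⟨m, hm⟩ := hpp.odd_of_ne_two (by omega)
  unfold dd
  rcases Nat.mod_two_eq_zero_or_one ((p - 1) / 2) with hb | hb
  · rw [hb]
    omega
  · rw [hb]
    omega

end Pool.Agent.Work.MP_b73316_nt
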