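import Pool.Agent.Work.MP_b73316_nt.Cng
import Pool.Agent.Work.MP_b73316_nt.Hmf
import Pool.Agent.Work.MP_b73316_nt.Str0

/-!
Module Str1 (size M): for a prime `p` with `ζ_p(2κ+1) = 0` the series `x^κ F` is, modulo `p^s` and
`q^p`, a polynomial in `t` divided by `f(t)^s`.

Notation.  `β = (p-1)/2 % 2`, `a₁ = (p - 1 + 6β)/4` (so `4 a₁ - 6β = p - 1`), `k_i = i(p-1) - 2κ`,
`β_i = k_i/2 % 2`, `w_i = (k_i - 6 β_i)/4`.  `hf` says `f(t) E₄^(a₁) = E E₆^β`, so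
`E = f(t) E₄^(a₁) E₆^(-β)` (all the series `E₄, E₆` are invertible).

PROOF.  `s = 0`: trivial (`P = 0`).  Let `s ≥ 1`.  For `1 ≤ i ≤ s` take `H_i ∈ MF ℤ_p k_i` from `hmf`
(`k_i ≥ 13` even) and `H_i = g_i(t) E₄^(w_i) E₆^(β_i)`, `deg g_i ≤ nS k_i`, from `str0`.
`cng`: modulo `(p^s, q^p)`: `(1 - 4^κ) E^s F ≡ -4^κ ∑_{i=1}^s (-1)^i C(s,i) E^(s-i) H_i`.
Multiply by `x^κ (E₄^(-a₁) E₆^β)^s`; since `E E₄^(-a₁) E₆^β = f(t)` (as `E₆^β/E₄^(a₁) · E = f(t)`, from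
`hf`):
`(1 - 4^κ) f(t)^s x^κ F ≡ -4^κ ∑_i (-1)^i C(s,i) f(t)^(s-i) · [x^κ H_i (E₄^(-a₁) E₆^β)^i]`.
The bracket is `g_i(t) E₆^(κ + iβ + β_i) E₄^(w_i - κ - i a₁)`.  Now `κ + iβ + β_i = 2 v_i` is even
(`k_i/2 = i(p-1)/2 - κ ≡ iβ + κ` mod 2), and `4 w_i = k_i - 6β_i`, `4 a₁ = p - 1 + 6β`, so
`4 (w_i - κ - i a₁) = -2κ - 6β_i - 4κ - 6 iβ = -12 v_i`: the bracket is
`g_i(t) (E₆²/E₄³)^(v_i) = g_i(t) (1 - 1728 t)^(v_i)` (`v_eq`).
So `P = -4^κ (1 - 4^κ)⁻¹ ∑_i (-1)^i C(s,i) f^(s-i) (1 - 1728 X)^(v_i) g_i`; `1 - 4^κ` is a unit of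
`ℤ_p` because `0 < 4^κ - 1 < p`.  Degree: `≤ (s-i) dd p + v_i + nS k_i`, and
`12 (v_i + nS k_i) ≤ 6(κ + iβ + β_i) + i(p-1) - 2κ - 6β_i = 4κ + i(p - 1 + 6β) ≤ 4κ + i (12 dd p + 8)`
(third part of `dd_bound`), so `v_i + nS k_i ≤ i dd p + (4κ + 88)/12 ≤ i dd p + κ + 22`.
To avoid negative powers in Lean: `toR (e4i)` is the inverse of `toR e4`; for `e6` use
`invOfUnit e6 1`, or multiply the congruence by powers of `e4i` and `e6` only: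
`x^κ (e4i^(a₁) e6^β)^s`, and use `hf` in the form `E e4i^(a₁) e6^β = f(t)`.
-/

set_option autoImplicit false

open PowerSeries Finset MP0f16e1

namespace Pool.Agent.Work.MP_b73316_nt

private theorem dvd_mul_coeff {R : Type*} [CommRing R] {c : R} {N : ℕ} {Q : PowerSeries R}
    (M : PowerSeries R) (h : ∀ n < N, c ∣ coeff n Q) : ∀ n < N, c ∣ coeff n (M * Q) := by
  intro n hn
  rw [PowerSeries.coeff_mul]
  refine Finset.dvd_sum fun x hx => ?_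
  have h1 : x.2 ≤ n := by
    rw [HasAntidiagonal.mem_antidiagonal] at hx
    omega
  exact (h x.2 (by omega)).mul_left _

private theorem arith (p κ i : ℕ) (hodd : p % 2 = 1) (hi : 1 ≤ i) (hp : 2 * κ + 14 ≤ p) :
    ∃ v : ℕ, κ + i * ((p - 1) / 2 % 2) + (i * (p - 1) - 2 * κ) / 2 % 2 = 2 * v ∧
      κ + i * ((p - 1 + 6 * ((p - 1) / 2 % 2)) / 4) =
        (i * (p - 1) - 2 * κ - 6 * ((i * (p - 1) - 2 * κ) / 2 % 2)) / 4 + 3 * v ∧
      Even (i * (p - 1) - 2 * κ) ∧ 13 ≤ i * (p - 1) - 2 * κ ∧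
      12 * (v + nS (i * (p - 1) - 2 * κ)) ≤ 4 * κ + i * (p - 1 + 6 * ((p - 1) / 2 % 2)) := by
  unfold nS
  obtain ⟨h', hh⟩ : ∃ h', p = 4 * h' + 1 ∨ p = 4 * h' + 3 := ⟨p / 4, by omega⟩
  obtain ⟨j, hj⟩ : ∃ j, j = i * h' := ⟨_, rfl⟩
  have hjh : h' ≤ j := by
    rw [hj]
    exact Nat.le_mul_of_pos_left _ hi
  rcases hh with rfl | rfl
  · have e1 : 4 * h' + 1 - 1 = 4 * h' := by omega
    have e2 : 4 * h' / 2 % 2 = 0 := by omega
    have e3 : i * (4 * h') = 4 * j := by rw [hj]; ring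
    have e4 : (4 * h' + 6 * 0) / 4 = h' := by omega
    rw [e1, e2, e4, e3, ← hj, Nat.mul_zero, Nat.mul_zero, Nat.add_zero, Nat.add_zero, e3]
    refine ⟨(κ + (4 * j - 2 * κ) / 2 % 2) / 2, ?_, ?_, ?_, ?_, ?_⟩
    · omega
    · omega
    · exact ⟨2 * j - κ, by omega⟩
    · omega
    · omega
  · have e1 : 4 * h' + 3 - 1 = 4 * h' + 2 := by omega
    have e2 : (4 * h' + 2) / 2 % 2 = 1 := by omega
    have e3 : i * (4 * h' + 2) = 4 * j + 2 * i := by rw [hj]; ring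
    have e4 : (4 * h' + 2 + 6 * 1) / 4 = h' + 2 := by omega
    have e5 : i * (h' + 2) = j + 2 * i := by rw [hj]; ring
    have e6 : i * (4 * h' + 2 + 6 * 1) = 4 * j + 8 * i := by rw [hj]; ring
    rw [e1, e2, e4, e3, e5, e6, Nat.mul_one]
    refine ⟨(κ + i + (4 * j + 2 * i - 2 * κ) / 2 % 2) / 2, ?_, ?_, ?_, ?_, ?_⟩
    · omega
    · omega
    · exact ⟨2 * j + i - κ, by omega⟩
    · omega
    · omega

private theorem unit_four (p κ : ℕ) [Fact p.Prime] (hκ : 1 ≤ κ) (hp : 4 ^ κ < p) :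
    ∃ w : ℤ_[p], w * (1 - (4 : ℤ_[p]) ^ κ) = 1 := by
  have h1 : IsUnit (1 - (4 : ℤ_[p]) ^ κ) := by
    by_contra h
    rw [PadicInt.not_isUnit_iff] at h
    have e1 : (1 - (4 : ℤ_[p]) ^ κ) = (((1 - 4 ^ κ : ℤ)) : ℤ_[p]) := by push_cast; rfl
    rw [e1, PadicInt.norm_int_lt_one_iff_dvd] at h
    have e2 : (p : ℤ) ∣ 4 ^ κ - 1 := by
      have := (dvd_neg (α := ℤ)).2 h
      rwa [neg_sub] at this
    have e3 : (4 : ℤ) ≤ 4 ^ κ := by
      calc (4 : ℤ) = 4 ^ 1 := by norm_num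
        _ ≤ 4 ^ κ := pow_le_pow_right₀ (by norm_num) hκ
    have e4 := Int.le_of_dvd (by omega) e2
    have e5 : (4 : ℤ) ^ κ < p := by exact_mod_cast hp
    omega
  obtain ⟨w, hw⟩ := h1.exists_left_inv
  exact ⟨w, hw⟩

theorem str1 (p κ s : ℕ) [Fact p.Prime] (hκ : 1 ≤ κ) (hp : 4 ^ κ + 2 * κ + 14 ≤ p) (hs : s ≤ 11)
    (hv : ∀ N, 1 ≤ N → ‖VV p (-(2 * κ : ℤ)) N‖ ≤ (p : ℝ) ^ (-(N : ℤ)))
    (E : PowerSeries ℤ_[p]) (hE : ∀ n, (p : ℤ_[p]) ∣ coeff n (E - 1))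
    (f : Polynomial ℤ_[p]) (hfd : f.natDegree ≤ dd p)
    (hf : Polynomial.aeval (toR ℤ_[p] tt) f *
        toR ℤ_[p] (e4 ^ ((p - 1 + 6 * ((p - 1) / 2 % 2)) / 4)) =
      E * toR ℤ_[p] (e6 ^ ((p - 1) / 2 % 2)))
    (F : PowerSeries ℤ_[p]) (hF : IsF p (2 * κ + 1) F) :
    ∃ P : Polynomial ℤ_[p], P.natDegree ≤ s * dd p + κ + 22 ∧ ∀ n < p,
      (p : ℤ_[p]) ^ s ∣ coeff n (Polynomial.aeval (toR ℤ_[p] tt) f ^ s *
        (toR ℤ_[p] (xx ^ κ) * F) - Polynomial.aeval (toR ℤ_[p] tt) P) := by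
  classical
  have hp0 : p.Prime := Fact.out
  have h4 : 0 < 4 ^ κ := by positivity
  have hodd : p % 2 = 1 := by
    rcases hp0.eq_two_or_odd with h | h
    · omega
    · exact h
  have hp' : 2 * κ + 14 ≤ p := by omega
  have hH : ∀ i, ∃ H : PowerSeries ℤ_[p], 1 ≤ i → H ∈ MF ℤ_[p] (i * (p - 1) - 2 * κ) ∧
      IsH p (i * (p - 1) - 2 * κ) H := by
    intro i
    by_cases hi : 1 ≤ i
    · obtain ⟨v, -, -, h3, h4, -⟩ := arith p κ i hodd hi hp'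
      obtain ⟨H, hH1, hH2⟩ := hmf p (i * (p - 1) - 2 * κ) (by omega) h3 (by omega)
      exact ⟨H, fun _ => ⟨hH1, hH2⟩⟩
    · exact ⟨0, fun h => absurd h hi⟩
  choose H hH using hH
  -- the ring homomorphism
  obtain ⟨Φ, hΦ⟩ : ∃ Φ : PowerSeries ℤ →+* PowerSeries ℤ_[p], ∀ f, toR ℤ_[p] f = Φ f :=
    ⟨PowerSeries.map (Int.castRingHom ℤ_[p]), fun _ => rfl⟩
  have hAA : Φ e4 * Φ e4i = 1 := by rw [← map_mul, e4_mul_e4i, map_one]
  have hV : (1 - 1728 * Φ tt) * Φ e4 ^ 3 = Φ e6 ^ 2 := by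
    have h1 := congrArg Φ v_eq
    rw [map_mul, map_sub, map_one, map_mul, map_ofNat, map_pow, map_pow] at h1
    exact h1
  have hX : Φ xx = Φ e6 * Φ e4i := by rw [← map_mul]; rfl
  rw [hΦ, hΦ, hΦ, map_pow, map_pow] at hf
  simp only [hΦ, map_pow]
  obtain ⟨β, hβ⟩ : ∃ β, β = (p - 1) / 2 % 2 := ⟨_, rfl⟩
  obtain ⟨a₁, ha₁⟩ : ∃ a₁, a₁ = (p - 1 + 6 * ((p - 1) / 2 % 2)) / 4 := ⟨_, rfl⟩
  rw [← ha₁, ← hβ] at hf
  obtain ⟨G, hG⟩ : ∃ G, G = Φ e6 ^ β * Φ e4i ^ a₁ := ⟨_, rfl⟩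
  obtain ⟨fT, hfT⟩ : ∃ fT, fT = Polynomial.aeval (Φ tt) f := ⟨_, rfl⟩
  rw [← hfT] at hf
  have hEG : E * G = fT := by
    calc E * G = (E * Φ e6 ^ β) * Φ e4i ^ a₁ := by rw [hG]; ring
      _ = fT * (Φ e4 * Φ e4i) ^ a₁ := by rw [← hf, mul_pow]; ring
      _ = fT := by rw [hAA, one_pow, mul_one]
  have hg : ∀ i, ∃ (g : Polynomial ℤ_[p]) (v : ℕ), 1 ≤ i → i ≤ 11 →
      Φ xx ^ κ * G ^ i * H i = Polynomial.aeval (Φ tt) g * (1 - 1728 * Φ tt) ^ v ∧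
      g.natDegree + v ≤ i * dd p + κ + 22 := by
    intro i
    by_cases hi : 1 ≤ i
    · obtain ⟨v, h1, h2, h3, h4, h5⟩ := arith p κ i hodd hi hp'
      obtain ⟨g, hg1, hg2⟩ := str0 (i * (p - 1) - 2 * κ) h3 (H i) (hH i hi).1
      refine ⟨g, v, fun _ hi11 => ⟨?_, ?_⟩⟩
      · obtain ⟨bi, hbi⟩ : ∃ bi, bi = (i * (p - 1) - 2 * κ) / 2 % 2 := ⟨_, rfl⟩
        obtain ⟨wi, hwi⟩ : ∃ wi, wi = (i * (p - 1) - 2 * κ -
          6 * ((i * (p - 1) - 2 * κ) / 2 % 2)) / 4 := ⟨_, rfl⟩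
        rw [hΦ, hΦ, map_mul, map_pow, map_pow, ← hwi, ← hbi] at hg2
        rw [← hβ, ← hbi] at h1
        rw [← ha₁, ← hwi] at h2
        have e1 : Φ e4i ^ (κ + i * a₁) * Φ e4 ^ wi = Φ e4i ^ (3 * v) := by
          rw [h2, pow_add]
          calc Φ e4i ^ wi * Φ e4i ^ (3 * v) * Φ e4 ^ wi
              = (Φ e4 * Φ e4i) ^ wi * Φ e4i ^ (3 * v) := by rw [mul_pow]; ring
            _ = Φ e4i ^ (3 * v) := by rw [hAA, one_pow, one_mul]
        have e2 : Φ e6 ^ (κ + i * β + bi) * Φ e4i ^ (3 * v) = (1 - 1728 * Φ tt) ^ v := by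
          rw [h1, pow_mul (Φ e6), ← hV]
          calc ((1 - 1728 * Φ tt) * Φ e4 ^ 3) ^ v * Φ e4i ^ (3 * v)
              = (1 - 1728 * Φ tt) ^ v * (Φ e4 * Φ e4i) ^ (3 * v) := by
                rw [mul_pow, mul_pow, ← pow_mul]; ring
            _ = (1 - 1728 * Φ tt) ^ v := by rw [hAA, one_pow, mul_one]
        calc Φ xx ^ κ * G ^ i * H i
            = Polynomial.aeval (Φ tt) g * (Φ e6 ^ (κ + i * β + bi) *
                (Φ e4i ^ (κ + i * a₁) * Φ e4 ^ wi)) := by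
              rw [hX, hG, hg2, mul_pow, mul_pow, ← pow_mul, ← pow_mul, pow_add, pow_add, pow_add,
                mul_comm β i, mul_comm a₁ i]
              ring
          _ = Polynomial.aeval (Φ tt) g * (1 - 1728 * Φ tt) ^ v := by rw [e1, e2]
      · have h6 := (dd_bound p (by omega)).2.2
        have h7 : i * (p - 1 + 6 * ((p - 1) / 2 % 2)) ≤ i * (12 * dd p + 8) :=
          Nat.mul_le_mul_left _ h6
        have h8 : i * (12 * dd p + 8) = 12 * (i * dd p) + 8 * i := by ring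
        omega
    · exact ⟨0, 0, fun h => absurd h hi⟩
  choose g v hgv using hg
  obtain ⟨w, hw⟩ := unit_four p κ hκ (by omega)
  obtain ⟨S, hS⟩ : ∃ S : Polynomial ℤ_[p], S = ∑ i ∈ Icc 1 s,
      Polynomial.C ((-1) ^ i * (s.choose i : ℤ_[p])) *
        (f ^ (s - i) * (g i * (1 - Polynomial.C 1728 * Polynomial.X) ^ v i)) := ⟨_, rfl⟩
  have hSdeg : S.natDegree ≤ s * dd p + κ + 22 := by
    rw [hS]
    refine Polynomial.natDegree_sum_le_of_forall_le _ _ fun i hi => ?_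
    rw [mem_Icc] at hi
    refine (Polynomial.natDegree_C_mul_le _ _).trans ?_
    refine Polynomial.natDegree_mul_le.trans ?_
    have h1 : (f ^ (s - i)).natDegree ≤ (s - i) * dd p :=
      Polynomial.natDegree_pow_le.trans (Nat.mul_le_mul_left _ hfd)
    have h2 : (g i * (1 - Polynomial.C 1728 * Polynomial.X) ^ v i).natDegree ≤
        (g i).natDegree + v i := by
      refine Polynomial.natDegree_mul_le.trans (Nat.add_le_add_left ?_ _)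
      refine Polynomial.natDegree_pow_le.trans ?_
      have h3 : (1 - Polynomial.C 1728 * Polynomial.X : Polynomial ℤ_[p]).natDegree ≤ 1 := by
        compute_degree
      calc v i * _ ≤ v i * 1 := Nat.mul_le_mul_left _ h3
        _ = v i := mul_one _
    have h3 := (hgv i hi.1 (by omega)).2
    have h4 : (s - i) * dd p + i * dd p = s * dd p := by
      rw [← Nat.add_mul, Nat.sub_add_cancel hi.2]
    omega
  refine ⟨Polynomial.C (-(w * 4 ^ κ)) * S, (Polynomial.natDegree_C_mul_le _ _).trans hSdeg, ?_⟩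
  have hc := cng p κ s hp' hs hv E hE H (fun i h1 _ => (hH i h1).2) F hF
  have hc2 := dvd_mul_coeff (Polynomial.aeval (Φ tt) (Polynomial.C w) * (Φ xx ^ κ * G ^ s)) hc
  have hST : Polynomial.aeval (Φ tt) S = ∑ i ∈ Icc 1 s, ((-1) ^ i * (s.choose i : ℤ_[p])) •
      (fT ^ (s - i) * (Φ xx ^ κ * G ^ i * H i)) := by
    rw [hS, map_sum]
    refine Finset.sum_congr rfl fun i hi => ?_
    rw [mem_Icc] at hi
    rw [(hgv i hi.1 (by omega)).1, map_mul, Polynomial.aeval_C, ← Algebra.smul_def, map_mul,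
      map_mul, map_pow, map_pow, map_sub, map_one, map_mul, Polynomial.aeval_C, Polynomial.aeval_X,
      ← hfT, map_ofNat]
  have hmain : Polynomial.aeval (Φ tt) (Polynomial.C w) * (Φ xx ^ κ * G ^ s) *
      ((1 - (4 : ℤ_[p]) ^ κ) • (E ^ s * F) +
      (4 : ℤ_[p]) ^ κ • ∑ i ∈ Icc 1 s, ((-1) ^ i * (s.choose i : ℤ_[p])) • (E ^ (s - i) * H i)) =
      fT ^ s * (Φ xx ^ κ * F) - Polynomial.aeval (Φ tt) (Polynomial.C (-(w * 4 ^ κ)) * S) := by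
    have e1 : (Φ xx ^ κ * G ^ s) * (E ^ s * F) = fT ^ s * (Φ xx ^ κ * F) := by
      rw [← hEG, mul_pow]; ring
    have e2 : (Φ xx ^ κ * G ^ s) * ∑ i ∈ Icc 1 s, ((-1) ^ i * (s.choose i : ℤ_[p])) •
        (E ^ (s - i) * H i) = Polynomial.aeval (Φ tt) S := by
      rw [hST, Finset.mul_sum]
      refine Finset.sum_congr rfl fun i hi => ?_
      rw [mem_Icc] at hi
      rw [mul_smul_comm]
      congr 1
      rw [← hEG, mul_pow]
      have e3 : G ^ s = G ^ (s - i) * G ^ i := by rw [← pow_add, Nat.sub_add_cancel hi.2]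
      rw [e3]
      ring
    rw [map_mul, Polynomial.aeval_C, Polynomial.aeval_C, ← Algebra.smul_def, ← Algebra.smul_def,
      smul_mul_assoc, mul_add, mul_smul_comm, mul_smul_comm, e1, e2, smul_add, smul_smul, hw,
      one_smul, smul_smul, neg_smul, sub_neg_eq_add]
  intro n hn
  have h1 := hc2 n hn
  rw [hmain] at h1
  rw [← hfT]
  exact h1

end Pool.Agent.Work.MP_b73316_nt
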