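import Pool.Agent.Work.MP_b73316_nt.Defs

/-!
Module Lim1 (size M): `(2^k - 1) ∑ m^k ≡ k p^N ∑_{r odd} r^(k-1)` modulo `p^(2N)`.

PROOF.  `p` odd.  For `m < p^N` prime to `p` let `r = 2 m mod p^N`, so `2 m = r + ε p^N` with
`ε ∈ {0, 1}`; `m ↦ r` is a bijection of `{m < p^N : p ∤ m}` (injective since `2` is invertible modulo
`p^N`; finite set), and `ε = 1` iff `r` is odd (`p^N` is odd).  For `u, h ∈ ℤ_p`, `u` a unit, `k ∈ ℤ`:
`(u + p^N h)^k ≡ u^k + k p^N h u^(k-1)` modulo `p^(2N)`: for `k ≥ 0` induction on `k`; for `k < 0`,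
`k = -n`: `(u + p^N h)^n (u^(-n) - n p^N h u^(-n-1)) ≡ 1` modulo `p^(2N)`, multiply by
`(u+p^N h)^(-n)` (norm `1`).  With `u = r`, `h = ε`: `2^k m^k = (2m)^k ≡ r^k + k ε p^N r^(k-1)`.  Sum
over `m`: `2^k UU = UU + k p^N VV` modulo `p^(2N)` (norm of a sum `≤` maximum of the norms).
-/

set_option autoImplicit false

open Finset

namespace Pool.Agent.Work.MP_b73316_nt

/-- natural exponents -/
private theorem near_nat {p : ℕ} [Fact p.Prime] {B : ℝ} (hB : 0 ≤ B) {u x : ℚ_[p]} (hu : ‖u‖ = 1)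
    (hw : ‖u + x‖ = 1) (hx : ‖x‖ * ‖x‖ ≤ B) (n : ℕ) :
    ‖(u + x) ^ n - u ^ n - (n : ℚ_[p]) * x * (u ^ n * u⁻¹)‖ ≤ B := by
  have hu0 : u ≠ 0 := by
    intro h
    rw [h, norm_zero] at hu
    exact zero_ne_one hu
  induction n with
  | zero => simpa using hB
  | succ n ih =>
    have e : (u + x) ^ (n + 1) - u ^ (n + 1) - ((n + 1 : ℕ) : ℚ_[p]) * x * (u ^ (n + 1) * u⁻¹) =
        (u + x) * ((u + x) ^ n - u ^ n - (n : ℚ_[p]) * x * (u ^ n * u⁻¹)) +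
          (n : ℚ_[p]) * (x * x) * (u ^ n * u⁻¹) := by
      push_cast
      field_simp
      ring
    rw [e]
    refine (IsUltrametricDist.norm_add_le_max _ _).trans (max_le ?_ ?_)
    · rw [norm_mul, hw, one_mul]
      exact ih
    · rw [norm_mul, norm_mul, norm_mul, norm_mul, norm_pow, norm_inv, hu, one_pow, inv_one,
        mul_one, mul_one]
      have h1 : ‖(n : ℚ_[p])‖ ≤ 1 := by
        have := Padic.norm_int_le_one (p := p) (n : ℤ)
        exact_mod_cast this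
      calc ‖(n : ℚ_[p])‖ * (‖x‖ * ‖x‖) ≤ 1 * (‖x‖ * ‖x‖) := by gcongr
        _ ≤ B := by rw [one_mul]; exact hx

theorem pow_near (p : ℕ) [Fact p.Prime] (k : ℤ) (N : ℕ) (u h : ℚ_[p]) (hu : ‖u‖ = 1)
    (hh : ‖h‖ ≤ 1) (hN : 1 ≤ N) :
    ‖(u + (p : ℚ_[p]) ^ N * h) ^ k - u ^ k - k * (p : ℚ_[p]) ^ N * h * u ^ (k - 1)‖ ≤
      (p : ℝ) ^ (-(2 * N : ℤ)) := by
  have hp1 : (1 : ℝ) < p := by exact_mod_cast (Fact.out : p.Prime).one_lt
  have hp0 : (0 : ℝ) < p := by linarith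
  have hu0 : u ≠ 0 := by
    intro h
    rw [h, norm_zero] at hu
    exact zero_ne_one hu
  obtain ⟨x, hx⟩ : ∃ x : ℚ_[p], x = (p : ℚ_[p]) ^ N * h := ⟨_, rfl⟩
  set B : ℝ := (p : ℝ) ^ (-(2 * N : ℤ)) with hB
  have hB0 : 0 ≤ B := by positivity
  have hxn : ‖x‖ ≤ (p : ℝ) ^ (-(N : ℤ)) := by
    rw [hx, norm_mul, Padic.norm_p_pow]
    exact mul_le_of_le_one_right (by positivity) hh
  have hxx : ‖x‖ * ‖x‖ ≤ B := by
    calc ‖x‖ * ‖x‖ ≤ (p : ℝ) ^ (-(N : ℤ)) * (p : ℝ) ^ (-(N : ℤ)) := by gcongr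
      _ = B := by
        rw [hB, ← zpow_add₀ hp0.ne']
        congr 1
        ring
  have hx1 : ‖x‖ < 1 := by
    refine hxn.trans_lt ?_
    rw [zpow_neg, zpow_natCast]
    exact inv_lt_one_of_one_lt₀ (one_lt_pow₀ hp1 (by omega))
  have hw : ‖u + x‖ = 1 := by
    have h1 : ‖x‖ < ‖u‖ := by rwa [hu]
    rw [IsUltrametricDist.norm_add_eq_max_of_norm_ne_norm h1.ne', hu]
    exact max_eq_left hx1.le
  have hw0 : u + x ≠ 0 := by
    intro h0
    rw [h0, norm_zero] at hw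
    exact zero_ne_one hw
  rw [mul_assoc (k : ℚ_[p]), ← hx]
  obtain ⟨n, rfl | rfl⟩ := k.eq_nat_or_neg
  · have h1 := near_nat hB0 hu hw hxx n
    have e : (u + x) ^ (n : ℤ) - u ^ (n : ℤ) - ((n : ℤ) : ℚ_[p]) * x *
        u ^ ((n : ℤ) - 1) = (u + x) ^ n - u ^ n - (n : ℚ_[p]) * x * (u ^ n * u⁻¹) := by
      rw [zpow_sub_one₀ hu0, zpow_natCast, zpow_natCast]
      push_cast
      ring
    rw [e]
    exact h1
  · have h1 := near_nat hB0 hu hw hxx n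
    obtain ⟨E, hE⟩ : ∃ E, E = (u + x) ^ n - u ^ n - (n : ℚ_[p]) * x * (u ^ n * u⁻¹) := ⟨_, rfl⟩
    rw [← hE] at h1
    have hn1 : ‖(n : ℚ_[p])‖ ≤ 1 := by
      have := Padic.norm_int_le_one (p := p) (n : ℤ)
      exact_mod_cast this
    have e : (u + x) ^ (-(n : ℤ)) - u ^ (-(n : ℤ)) - ((-(n : ℤ) : ℤ) : ℚ_[p]) * x *
        u ^ (-(n : ℤ) - 1) = ((u + x) ^ n)⁻¹ * ((u ^ n)⁻¹ * (-E) +
          (n : ℚ_[p]) * ((n : ℚ_[p]) * (x * x)) * (u⁻¹ * u⁻¹) +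
          (n : ℚ_[p]) * x * ((u ^ n)⁻¹ * u⁻¹) * E) := by
      rw [zpow_sub_one₀ hu0, zpow_neg, zpow_neg, zpow_natCast, zpow_natCast]
      have hA : (u + x) ^ n = E + u ^ n + (n : ℚ_[p]) * x * (u ^ n * u⁻¹) := by
        rw [hE]
        ring
      have hA0 : (u + x) ^ n ≠ 0 := pow_ne_zero _ hw0
      have hU0 : u ^ n ≠ 0 := pow_ne_zero _ hu0
      have h2 : (u + x) ^ n * (((u + x) ^ n)⁻¹ - (u ^ n)⁻¹ -
          ((-(n : ℤ) : ℤ) : ℚ_[p]) * x * ((u ^ n)⁻¹ * u⁻¹)) =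
          (u ^ n)⁻¹ * (-E) + (n : ℚ_[p]) * ((n : ℚ_[p]) * (x * x)) * (u⁻¹ * u⁻¹) +
          (n : ℚ_[p]) * x * ((u ^ n)⁻¹ * u⁻¹) * E := by
        rw [mul_sub, mul_sub, mul_inv_cancel₀ hA0, hA]
        push_cast
        field_simp
        ring
      rw [← h2, inv_mul_cancel_left₀ hA0]
    rw [e, norm_mul, norm_inv, norm_pow, hw, one_pow, inv_one, one_mul]
    refine (IsUltrametricDist.norm_add_le_max _ _).trans (max_le
      ((IsUltrametricDist.norm_add_le_max _ _).trans (max_le ?_ ?_)) ?_)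
    · rw [norm_mul, norm_inv, norm_pow, hu, one_pow, inv_one, one_mul, norm_neg]
      exact h1
    · rw [norm_mul, norm_mul, norm_mul, norm_mul, norm_mul, norm_inv, hu, inv_one, mul_one,
        mul_one]
      calc ‖(n : ℚ_[p])‖ * (‖(n : ℚ_[p])‖ * (‖x‖ * ‖x‖)) ≤ 1 * (1 * (‖x‖ * ‖x‖)) := by gcongr
        _ ≤ B := by rw [one_mul, one_mul]; exact hxx
    · rw [norm_mul, norm_mul, norm_mul, norm_mul, norm_inv, norm_inv, norm_pow, hu, one_pow,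
        inv_one, mul_one, mul_one]
      calc ‖(n : ℚ_[p])‖ * ‖x‖ * ‖E‖ ≤ 1 * 1 * B := by
            gcongr
        _ = B := by ring

theorem UV (p : ℕ) [Fact p.Prime] (hp : p ≠ 2) (k : ℤ) (N : ℕ) (hN : 1 ≤ N) :
    ‖((2 : ℚ_[p]) ^ k - 1) * UU p k N - k * (p : ℚ_[p]) ^ N * VV p k N‖ ≤
      (p : ℝ) ^ (-(2 * N : ℤ)) := by
  have hpp : p.Prime := Fact.out
  have hodd : Odd p := hpp.odd_of_ne_two hp
  have hp0 : 0 < p ^ N := pow_pos hpp.pos _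
  have hpNodd : Odd (p ^ N) := hodd.pow
  have hdvd : p ∣ p ^ N := dvd_pow_self p (by omega)
  have h2p : ¬ p ∣ 2 := fun h => hp ((Nat.prime_dvd_prime_iff_eq hpp Nat.prime_two).1 h)
  set S := (range (p ^ N)).filter (fun m => ¬ p ∣ m) with hS
  set G : ℕ → ℚ_[p] := fun r => (r : ℚ_[p]) ^ k +
    k * (p : ℚ_[p]) ^ N * (if Odd r then 1 else 0) * (r : ℚ_[p]) ^ (k - 1) with hG
  obtain ⟨c, hc⟩ : ∃ c, 2 * c = p ^ N + 1 := by
    obtain ⟨d, hd⟩ := hpNodd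
    exact ⟨d + 1, by omega⟩
  have hpc : ¬ p ∣ c := by
    intro h
    have h1 : p ∣ p ^ N + 1 := hc ▸ dvd_mul_of_dvd_right h 2
    have h2 : p ∣ 1 := (Nat.dvd_add_right hdvd).1 h1
    exact hpp.one_lt.ne' (Nat.dvd_one.1 h2)
  have hmod : ∀ a : ℕ, p ∣ a % p ^ N ↔ p ∣ a := fun a => Nat.dvd_mod_iff hdvd
  -- the bijection
  have hbij : ∑ m ∈ S, G (2 * m % p ^ N) = ∑ r ∈ S, G r := by
    refine sum_nbij' (fun m => 2 * m % p ^ N) (fun r => c * r % p ^ N) ?_ ?_ ?_ ?_ ?_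
    · intro m hm
      rw [hS, mem_filter, mem_range] at hm ⊢
      refine ⟨Nat.mod_lt _ hp0, fun h => ?_⟩
      rcases hpp.dvd_mul.1 ((hmod _).1 h) with h1 | h1
      · exact h2p h1
      · exact hm.2 h1
    · intro r hr
      rw [hS, mem_filter, mem_range] at hr ⊢
      refine ⟨Nat.mod_lt _ hp0, fun h => ?_⟩
      rcases hpp.dvd_mul.1 ((hmod _).1 h) with h1 | h1
      · exact hpc h1
      · exact hr.2 h1
    · intro m hm
      rw [hS, mem_filter, mem_range] at hm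
      show c * (2 * m % p ^ N) % p ^ N = m
      rw [Nat.mul_mod_mod, ← mul_assoc, mul_comm c 2, hc, add_mul, one_mul, Nat.mul_add_mod]
      exact Nat.mod_eq_of_lt hm.1
    · intro r hr
      rw [hS, mem_filter, mem_range] at hr
      show 2 * (c * r % p ^ N) % p ^ N = r
      rw [Nat.mul_mod_mod, ← mul_assoc, hc, add_mul, one_mul, Nat.mul_add_mod]
      exact Nat.mod_eq_of_lt hr.1
    · intro m _
      rfl
  have hGsum : ∑ r ∈ S, G r = UU p k N + k * (p : ℚ_[p]) ^ N * VV p k N := by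
    rw [hG]
    simp only
    rw [sum_add_distrib]
    congr 1
    have h1 : (range (p ^ N)).filter (fun r => ¬ p ∣ r ∧ Odd r) = S.filter (fun r => Odd r) := by
      rw [hS, filter_filter]
    have h2 : VV p k N = ∑ r ∈ S, if Odd r then (r : ℚ_[p]) ^ (k - 1) else 0 := by
      rw [VV, h1, sum_filter]
    rw [h2, mul_sum]
    refine sum_congr rfl fun r _ => ?_
    split_ifs
    · ring
    · ring
  have hdiff : ((2 : ℚ_[p]) ^ k - 1) * UU p k N - k * (p : ℚ_[p]) ^ N * VV p k N =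
      ∑ m ∈ S, ((2 * (m : ℚ_[p])) ^ k - G (2 * m % p ^ N)) := by
    rw [sum_sub_distrib, hbij, hGsum]
    have h1 : ∑ m ∈ S, (2 * (m : ℚ_[p])) ^ k = (2 : ℚ_[p]) ^ k * UU p k N := by
      rw [UU, mul_sum]
      refine sum_congr rfl fun m _ => ?_
      rw [mul_zpow]
    rw [h1]
    ring
  rw [hdiff]
  refine IsUltrametricDist.norm_sum_le_of_forall_le_of_nonneg (by positivity) fun m hm => ?_
  rw [hS, mem_filter, mem_range] at hm
  have hre0 : 2 * m % p ^ N + p ^ N * (2 * m / p ^ N) = 2 * m := Nat.mod_add_div _ _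
  have hε10 : 2 * m / p ^ N ≤ 1 := by
    have : 2 * m / p ^ N < 2 := Nat.div_lt_of_lt_mul (by omega)
    omega
  have hrp0 : ¬ p ∣ 2 * m % p ^ N := by
    intro h
    rcases hpp.dvd_mul.1 ((hmod _).1 h) with h1 | h1
    · exact h2p h1
    · exact hm.2 h1
  generalize 2 * m % p ^ N = r at hre0 hrp0 ⊢
  generalize 2 * m / p ^ N = ε at hre0 hε10
  have hre := hre0
  have hε1 := hε10
  have hrp := hrp0
  have hur : ‖(r : ℚ_[p])‖ = 1 := by
    rw [Padic.norm_natCast_eq_one_iff]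
    exact (hpp.coprime_iff_not_dvd).2 hrp
  have hεodd : (if Odd r then (1 : ℚ_[p]) else 0) = (ε : ℚ_[p]) := by
    obtain ⟨d, hd⟩ := hpNodd
    rcases Nat.le_one_iff_eq_zero_or_eq_one.1 hε1 with h | h
    · rw [h] at hre ⊢
      rw [if_neg]
      · simp
      · rw [Nat.not_odd_iff_even]
        exact ⟨m, by omega⟩
    · rw [h] at hre ⊢
      rw [if_pos]
      · simp
      · rw [mul_one] at hre
        rw [hd] at hre
        exact ⟨m - d - 1, by omega⟩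
  have hεn : ‖(ε : ℚ_[p])‖ ≤ 1 := by
    have := Padic.norm_int_le_one (p := p) (ε : ℤ)
    exact_mod_cast this
  have h1 := pow_near p k N (r : ℚ_[p]) (ε : ℚ_[p]) hur hεn hN
  have h2 : (2 * (m : ℚ_[p])) ^ k - G r =
      ((r : ℚ_[p]) + (p : ℚ_[p]) ^ N * (ε : ℚ_[p])) ^ k - (r : ℚ_[p]) ^ k -
        k * (p : ℚ_[p]) ^ N * (ε : ℚ_[p]) * (r : ℚ_[p]) ^ (k - 1) := by
    have h3 : (2 * (m : ℚ_[p])) = (r : ℚ_[p]) + (p : ℚ_[p]) ^ N * (ε : ℚ_[p]) := by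
      have := congrArg (fun a : ℕ => (a : ℚ_[p])) hre
      push_cast at this
      exact this.symm
    rw [h3, hG]
    simp only
    rw [hεodd]
    ring
  rw [h2]
  exact h1

end Pool.Agent.Work.MP_b73316_nt
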