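import Pool.Agent.Work.MP_b73316_nt.Lim1

/-!
Module Lim1b (size S-M): the limit `μ` of `VV p k N`, `k` even.

PROOF.  (1) `‖VV p k (N+1) - VV p k N‖ ≤ p^(-N)` for `N ≥ 1`.  Write `r = r₀ + j p^N`,
`r₀ < p^N` prime to `p`, `0 ≤ j < p`; `r^(k-1) ≡ r₀^(k-1)` modulo `p^N` (units; from `pow_near`, or
directly).  `r` is odd iff `r₀ + j` is odd (`p^N` odd).  The number of even `j < p` is `(p+1)/2`, of
odd `j` is `(p-1)/2`.  So, with `W_N = ∑_{r₀ even} r₀^(k-1)`,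
`VV (N+1) ≡ (p+1)/2 VV N + (p-1)/2 W_N = VV N + (p-1)/2 (VV N + W_N)`.  And
`S = VV N + W_N = ∑_{r₀ < p^N, p ∤ r₀} r₀^(k-1) ≡ 0` modulo `p^N`: `k - 1` is odd, so under
`r ↦ p^N - r`, `r^(k-1) + (p^N - r)^(k-1) ≡ 0`, hence `2 S ≡ 0`, and `2` is a unit.
(2) Cauchy sequence in the complete field `ℚ_[p]`, limit `μ`, `‖VV N - μ‖ ≤ p^(-N)` by the ultrametric
inequality.
(3) second claim: `UV` and `‖k p^N (VV N - μ)‖ ≤ p^(-2N)` (`‖(k : ℚ_[p])‖ ≤ 1`).
-/

set_option autoImplicit false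

open Finset

namespace Pool.Agent.Work.MP_b73316_nt

private theorem um {p : ℕ} [Fact p.Prime] (a b : ℚ_[p]) {C : ℝ} (ha : ‖a‖ ≤ C) (hb : ‖b‖ ≤ C) :
    ‖a + b‖ ≤ C :=
  (IsUltrametricDist.norm_add_le_max a b).trans (max_le ha hb)

private theorem um' {p : ℕ} [Fact p.Prime] (a b : ℚ_[p]) {C : ℝ} (ha : ‖a‖ ≤ C) (hb : ‖b‖ ≤ C) :
    ‖a - b‖ ≤ C := by
  rw [sub_eq_add_neg]
  exact um a (-b) ha (by rwa [norm_neg])

private theorem unit_norm {p : ℕ} [hp : Fact p.Prime] {r : ℕ} (h : ¬ p ∣ r) :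
    ‖(r : ℚ_[p])‖ = 1 :=
  Padic.norm_natCast_eq_one_iff.mpr ((Nat.Prime.coprime_iff_not_dvd hp.out).mpr h)

private theorem pw {p : ℕ} [hp : Fact p.Prime] (k : ℤ) (N : ℕ) (hN : 1 ≤ N) {r : ℕ} (hr : ¬ p ∣ r)
    (h : ℚ_[p]) (hh : ‖h‖ ≤ 1) :
    ‖((r : ℚ_[p]) + (p : ℚ_[p]) ^ N * h) ^ k - (r : ℚ_[p]) ^ k‖ ≤ (p : ℝ) ^ (-(N : ℤ)) := by
  have hp1 : (1 : ℝ) < p := by exact_mod_cast hp.out.one_lt
  have h1 := pow_near p k N (r : ℚ_[p]) h (unit_norm hr) hh hN
  have h2 : ‖(k : ℚ_[p]) * (p : ℚ_[p]) ^ N * h * (r : ℚ_[p]) ^ (k - 1)‖ ≤ (p : ℝ) ^ (-(N : ℤ)) := by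
    rw [norm_mul, norm_mul, norm_mul, norm_zpow, unit_norm hr, one_zpow, mul_one,
      Padic.norm_p_pow]
    calc ‖(k : ℚ_[p])‖ * (p : ℝ) ^ (-(N : ℤ)) * ‖h‖ ≤ 1 * (p : ℝ) ^ (-(N : ℤ)) * 1 := by
          gcongr
          exact Padic.norm_int_le_one k
      _ = _ := by ring
  have h3 : (p : ℝ) ^ (-(2 * N : ℤ)) ≤ (p : ℝ) ^ (-(N : ℤ)) :=
    zpow_le_zpow_right₀ hp1.le (by omega)
  have h4 := um _ _ (h1.trans h3) h2
  rwa [sub_add_cancel] at h4

private theorem sum_blocks {M : Type} [AddCommMonoid M] (F : ℕ → M) (a b : ℕ) :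
    ∑ r ∈ range (a * b), F r = ∑ j ∈ range b, ∑ i ∈ range a, F (i + a * j) := by
  induction b with
  | zero => simp
  | succ b ih =>
    rw [Nat.mul_succ, sum_range_add, ih, sum_range_succ]
    congr 1
    refine sum_congr rfl fun i _ => ?_
    rw [Nat.add_comm]

private theorem sum_par {K : Type} [Field K] (V W : K) (m : ℕ) :
    ∑ j ∈ range (2 * m + 1), (if Even j then V else W) = (m + 1) * V + m * W := by
  induction m with
  | zero => simp
  | succ m ih =>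
    rw [show 2 * (m + 1) + 1 = 2 * m + 1 + 1 + 1 by ring, sum_range_succ, sum_range_succ, ih]
    have h1 : ¬ Even (2 * m + 1) := by simp
    have h2 : Even (2 * m + 1 + 1) := ⟨m + 1, by ring⟩
    rw [if_neg h1, if_pos h2]
    push_cast
    ring

private theorem step (p : ℕ) [hp : Fact p.Prime] (hp2 : p ≠ 2) (k : ℤ) (hk : Even k) (N : ℕ)
    (hN : 1 ≤ N) : ‖VV p k (N + 1) - VV p k N‖ ≤ (p : ℝ) ^ (-(N : ℤ)) := by
  have hodd : Odd p := hp.out.odd_of_ne_two hp2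
  obtain ⟨m, hm⟩ := hodd
  have hpNodd : Odd (p ^ N) := Odd.pow ⟨m, hm⟩
  have hpp : 0 ≤ (p : ℝ) ^ (-(N : ℤ)) := by positivity
  set V : ℚ_[p] := VV p k N with hV
  set T : ℚ_[p] := ∑ r ∈ range (p ^ N), (if ¬ p ∣ r then (r : ℚ_[p]) ^ (k - 1) else 0) with hT
  set W : ℚ_[p] := ∑ r ∈ range (p ^ N), (if ¬ p ∣ r ∧ Even r then (r : ℚ_[p]) ^ (k - 1) else 0)
    with hW
  have hV' : V = ∑ r ∈ range (p ^ N), (if ¬ p ∣ r ∧ Odd r then (r : ℚ_[p]) ^ (k - 1) else 0) := by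
    rw [hV, VV, sum_filter]
  have hTVW : T = V + W := by
    rw [hT, hV', hW, ← sum_add_distrib]
    refine sum_congr rfl fun r _ => ?_
    by_cases h1 : p ∣ r
    · simp [h1]
    · by_cases h2 : Even r
      · have h3 : ¬ Odd r := Nat.not_odd_iff_even.mpr h2
        simp [h1, h2, h3]
      · have h3 : Odd r := Nat.not_even_iff_odd.mp h2
        simp [h1, h2, h3]
  -- T is small
  have hT2 : ‖T‖ ≤ (p : ℝ) ^ (-(N : ℤ)) := by
    have h1 : T = ∑ r ∈ range (p ^ N), (if ¬ p ∣ r then (((p ^ N - r : ℕ) : ℚ_[p])) ^ (k - 1) else 0) := by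
      rw [hT]
      have e0 : ∀ f : ℕ → ℚ_[p], f 0 = 0 → ∑ r ∈ range (p ^ N), f r =
          ∑ r ∈ range (p ^ N - 1), f (r + 1) := by
        intro f hf
        have h2 : p ^ N = (p ^ N - 1) + 1 := by
          have := Nat.one_le_pow N p hp.out.pos
          omega
        rw [h2, sum_range_succ', hf, add_zero]
        rfl
      have hd0 : p ∣ 0 := dvd_zero p
      rw [e0 _ (by simp), e0 _ (by simp)]
      rw [← sum_range_reflect]
      refine sum_congr rfl fun r hr => ?_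
      have hr' := mem_range.mp hr
      have h3 : p ^ N - 1 - 1 - r + 1 = p ^ N - (r + 1) := by omega
      rw [h3]
      have h4 : p ∣ p ^ N - (r + 1) ↔ p ∣ r + 1 := by
        have h5 : p ∣ p ^ N := dvd_pow_self p (by omega)
        have h6 : r + 1 ≤ p ^ N := by omega
        constructor
        · intro h
          have := (Nat.dvd_sub h5 h)
          rwa [Nat.sub_sub_self h6] at this
        · intro h
          exact Nat.dvd_sub h5 h
      simp only [h4]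
    have h2 : T + T = ∑ r ∈ range (p ^ N), (if ¬ p ∣ r then ((r : ℚ_[p]) ^ (k - 1) +
        (((p ^ N - r : ℕ) : ℚ_[p])) ^ (k - 1)) else 0) := by
      nth_rewrite 2 [h1]
      rw [hT, ← sum_add_distrib]
      refine sum_congr rfl fun r _ => ?_
      split_ifs <;> simp
    have h3 : ‖T + T‖ ≤ (p : ℝ) ^ (-(N : ℤ)) := by
      rw [h2]
      refine IsUltrametricDist.norm_sum_le_of_forall_le_of_nonneg hpp fun r hr => ?_
      have hr' := mem_range.mp hr
      split_ifs with h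
      · simpa using hpp
      · have h4 := pw (k - 1) N hN h (-1) (by simp)
        have hodd : Odd (k - 1) := hk.sub_odd odd_one
        have h5 : (((p ^ N - r : ℕ) : ℚ_[p])) ^ (k - 1) =
            -((r : ℚ_[p]) + (p : ℚ_[p]) ^ N * (-1)) ^ (k - 1) := by
          rw [← hodd.neg_zpow, Nat.cast_sub hr'.le]
          congr 1
          push_cast
          ring
        rw [h5]
        have h6 : (r : ℚ_[p]) ^ (k - 1) + -((r : ℚ_[p]) + (p : ℚ_[p]) ^ N * (-1)) ^ (k - 1) =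
            -(((r : ℚ_[p]) + (p : ℚ_[p]) ^ N * (-1)) ^ (k - 1) - (r : ℚ_[p]) ^ (k - 1)) := by ring
        rw [h6, norm_neg]
        exact h4
    have h4 : ‖(2 : ℚ_[p])‖ = 1 := by
      have := unit_norm (p := p) (r := 2) (by
        intro h
        have := (Nat.prime_dvd_prime_iff_eq hp.out Nat.prime_two).mp h
        exact hp2 this)
      exact_mod_cast this
    rw [← two_mul, norm_mul, h4, one_mul] at h3
    exact h3
  -- expansion of VV (N+1)
  have hsum : VV p k (N + 1) = ∑ j ∈ range p, ∑ i ∈ range (p ^ N),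
      (if ¬ p ∣ i ∧ Odd (i + j) then ((i : ℚ_[p]) + (p : ℚ_[p]) ^ N * (j : ℚ_[p])) ^ (k - 1)
        else 0) := by
    rw [VV, sum_filter, pow_succ, sum_blocks]
    refine sum_congr rfl fun j _ => sum_congr rfl fun i _ => ?_
    have h1 : p ∣ i + p ^ N * j ↔ p ∣ i := by
      rw [Nat.dvd_add_left]
      exact (dvd_pow_self p (by omega)).mul_right j
    have h2 : Odd (i + p ^ N * j) ↔ Odd (i + j) := by
      rw [Nat.odd_add, Nat.odd_add]
      have : Even (p ^ N * j) ↔ Even j := by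
        rw [Nat.even_mul]
        have h3 : ¬ Even (p ^ N) := Nat.not_even_iff_odd.mpr hpNodd
        simp [h3]
      rw [this]
    simp only [h1, h2]
    push_cast
    rfl
  have hmain : ∑ j ∈ range p, ∑ i ∈ range (p ^ N),
      (if ¬ p ∣ i ∧ Odd (i + j) then (i : ℚ_[p]) ^ (k - 1) else 0) = V + m * T := by
    have h1 : ∀ j : ℕ, ∑ i ∈ range (p ^ N),
        (if ¬ p ∣ i ∧ Odd (i + j) then (i : ℚ_[p]) ^ (k - 1) else 0) = if Even j then V else W := by
      intro j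
      split_ifs with hj
      · rw [hV']
        refine sum_congr rfl fun i _ => ?_
        have h2 : Odd (i + j) ↔ Odd i := by
          rw [Nat.odd_add]
          simp [hj]
        simp only [h2]
      · rw [hW]
        refine sum_congr rfl fun i _ => ?_
        have h2 : Odd (i + j) ↔ Even i := by
          rw [Nat.odd_add]
          simp [hj]
        simp only [h2]
    rw [sum_congr rfl fun j _ => h1 j]
    have h3 : range p = range (2 * m + 1) := by rw [← hm]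
    rw [h3, sum_par, hTVW]
    ring
  have hdiff : VV p k (N + 1) - V = (VV p k (N + 1) - ∑ j ∈ range p, ∑ i ∈ range (p ^ N),
      (if ¬ p ∣ i ∧ Odd (i + j) then (i : ℚ_[p]) ^ (k - 1) else 0)) + m * T := by
    rw [hmain]
    ring
  rw [hdiff]
  refine um _ _ ?_ ?_
  · rw [hsum, ← sum_sub_distrib]
    refine IsUltrametricDist.norm_sum_le_of_forall_le_of_nonneg hpp fun j _ => ?_
    rw [← sum_sub_distrib]
    refine IsUltrametricDist.norm_sum_le_of_forall_le_of_nonneg hpp fun i _ => ?_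
    split_ifs with h
    · refine pw (k - 1) N hN h.1 (j : ℚ_[p]) ?_
      have := Padic.norm_int_le_one (p := p) (j : ℤ)
      exact_mod_cast this
    · simpa using hpp
  · rw [norm_mul]
    have h1 : ‖(m : ℚ_[p])‖ ≤ 1 := by
      have := Padic.norm_int_le_one (p := p) (m : ℤ)
      exact_mod_cast this
    calc ‖(m : ℚ_[p])‖ * ‖T‖ ≤ 1 * (p : ℝ) ^ (-(N : ℤ)) := by gcongr
      _ = _ := one_mul _

theorem mu_exists (p : ℕ) [Fact p.Prime] (hp : p ≠ 2) (k : ℤ) (hk : Even k) :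
    ∃ μ : ℚ_[p], ∀ N : ℕ, 1 ≤ N → ‖VV p k N - μ‖ ≤ (p : ℝ) ^ (-(N : ℤ)) ∧
      ‖((2 : ℚ_[p]) ^ k - 1) * UU p k N - k * (p : ℚ_[p]) ^ N * μ‖ ≤
        (p : ℝ) ^ (-(2 * N : ℤ)) := by
  have hpr : p.Prime := Fact.out
  have hp1 : (1 : ℝ) < p := by exact_mod_cast hpr.one_lt
  have hp0 : (0 : ℝ) < p := by linarith
  have hfar : ∀ N d : ℕ, 1 ≤ N → ‖VV p k (N + d) - VV p k N‖ ≤ (p : ℝ) ^ (-(N : ℤ)) := by
    intro N d hN
    induction d with
    | zero => simpa using (by positivity : (0 : ℝ) ≤ (p : ℝ) ^ (-(N : ℤ)))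
    | succ d ih =>
      have h1 := step p hp k hk (N + d) (by omega)
      have h2 : (p : ℝ) ^ (-((N + d : ℕ) : ℤ)) ≤ (p : ℝ) ^ (-(N : ℤ)) :=
        zpow_le_zpow_right₀ hp1.le (by push_cast; omega)
      have h3 := um _ _ (h1.trans h2) ih
      rw [sub_add_sub_cancel] at h3
      exact h3
  have hlim : ∃ μ : ℚ_[p], Filter.Tendsto (fun N => VV p k (N + 1)) Filter.atTop (nhds μ) := by
    apply cauchySeq_tendsto_of_complete
    refine cauchySeq_of_le_tendsto_0 (fun N : ℕ => (p : ℝ) ^ (-((N + 1 : ℕ) : ℤ))) ?_ ?_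
    · intro n m N hn hm
      rw [dist_eq_norm]
      have h1 := hfar (N + 1) (n - N) (by omega)
      have h2 := hfar (N + 1) (m - N) (by omega)
      rw [show N + 1 + (n - N) = n + 1 by omega] at h1
      rw [show N + 1 + (m - N) = m + 1 by omega] at h2
      have h3 := um' _ _ h1 h2
      rw [sub_sub_sub_cancel_right] at h3
      exact h3
    · have h1 : Filter.Tendsto (fun N : ℕ => ((p : ℝ)⁻¹) ^ (N + 1)) Filter.atTop (nhds 0) :=
        (tendsto_pow_atTop_nhds_zero_of_lt_one (by positivity) (inv_lt_one_of_one_lt₀ hp1)).comp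
          (Filter.tendsto_add_atTop_nat 1)
      refine h1.congr fun N => ?_
      rw [zpow_neg, zpow_natCast, inv_pow]
  obtain ⟨μ, hμ⟩ := hlim
  refine ⟨μ, fun N hN => ?_⟩
  have h1 : ‖VV p k N - μ‖ ≤ (p : ℝ) ^ (-(N : ℤ)) := by
    have h2 : Filter.Tendsto (fun M => ‖VV p k N - VV p k (M + 1)‖) Filter.atTop
        (nhds ‖VV p k N - μ‖) := (tendsto_const_nhds.sub hμ).norm
    refine le_of_tendsto h2 ?_
    filter_upwards [Filter.eventually_ge_atTop N] with M hM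
    have h3 := hfar N (M + 1 - N) hN
    rw [show N + (M + 1 - N) = M + 1 by omega] at h3
    rwa [norm_sub_rev]
  refine ⟨h1, ?_⟩
  have h2 := UV p hp k N hN
  have h3 : ‖(k : ℚ_[p]) * (p : ℚ_[p]) ^ N * (VV p k N - μ)‖ ≤ (p : ℝ) ^ (-(2 * N : ℤ)) := by
    rw [norm_mul, norm_mul, Padic.norm_p_pow]
    calc ‖(k : ℚ_[p])‖ * (p : ℝ) ^ (-(N : ℤ)) * ‖VV p k N - μ‖
        ≤ 1 * (p : ℝ) ^ (-(N : ℤ)) * (p : ℝ) ^ (-(N : ℤ)) := by
          gcongr
          exact Padic.norm_int_le_one k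
      _ = (p : ℝ) ^ (-(2 * N : ℤ)) := by
          rw [one_mul, ← zpow_add₀ hp0.ne']
          congr 1
          ring
  have h4 := um _ _ h2 h3
  have h5 : ((2 : ℚ_[p]) ^ k - 1) * UU p k N - k * (p : ℚ_[p]) ^ N * VV p k N +
      (k : ℚ_[p]) * (p : ℚ_[p]) ^ N * (VV p k N - μ) =
      ((2 : ℚ_[p]) ^ k - 1) * UU p k N - k * (p : ℚ_[p]) ^ N * μ := by ring
  rwa [h5] at h4

end Pool.Agent.Work.MP_b73316_nt
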