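import Pool.Agent.Work.MP_b73316_nt.Lim1b

/-!
Module Lim2 (size S-M): for `k ≥ 2` even the limit is `(2^k - 1)(1 - p^(k-1)) B_k / k`.

PROOF.  Faulhaber (`sum_range_pow`): `S_N = ∑_{m < p^N} m^k = ∑_{i ≤ k} B_i C(k+1,i) (p^N)^(k+1-i)/(k+1)`
in `ℚ`, so in `ℚ_[p]` `S_N / p^N → B_k` (the term `i = k` is `B_k p^N`, the terms `i < k` divided by
`p^N` tend to `0`).  `UU p k N = S_N - p^k S_{N-1}` (the multiples `m = p m'`, `m' < p^(N-1)`, of `p`), so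
`UU / p^N → B_k - p^(k-1) B_k`.  From `mu_exists`, `((2^k-1) UU)/p^N → k μ`, so
`k μ = (2^k - 1)(1 - p^(k-1)) B_k`, and `k ≠ 0` in `ℚ_[p]`.
-/

set_option autoImplicit false

open Finset

namespace Pool.Agent.Work.MP_b73316_nt

open Filter in
private theorem lim2_S (p : ℕ) [Fact p.Prime] (k : ℕ) :
    Tendsto (fun N : ℕ => (∑ m ∈ range (p ^ N), (m : ℚ_[p]) ^ k) / (p : ℚ_[p]) ^ N) atTop
      (nhds ((bernoulli k : ℚ) : ℚ_[p])) := by
  have hp0 : (p : ℚ_[p]) ≠ 0 := by exact_mod_cast (Fact.out : p.Prime).ne_zero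
  have hk0 : ((k : ℚ_[p]) + 1) ≠ 0 := by exact_mod_cast Nat.succ_ne_zero k
  have hF : ∀ N : ℕ, (∑ m ∈ range (p ^ N), (m : ℚ_[p]) ^ k) / (p : ℚ_[p]) ^ N =
      ∑ i ∈ range (k + 1), ((bernoulli i : ℚ) : ℚ_[p]) * ((k + 1).choose i : ℚ_[p]) *
        ((p : ℚ_[p]) ^ N) ^ (k - i) / (k + 1) := by
    intro N
    have h := congrArg (fun x : ℚ => (x : ℚ_[p])) (sum_range_pow (p ^ N) k)
    beta_reduce at h
    push_cast at h
    rw [h, Finset.sum_div]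
    apply Finset.sum_congr rfl
    intro i hi
    have : k + 1 - i = (k - i) + 1 := by have := Finset.mem_range.1 hi; omega
    rw [this, pow_succ]
    have : ((p : ℚ_[p]) ^ N) ≠ 0 := pow_ne_zero _ hp0
    field_simp
  have hpN : Tendsto (fun N : ℕ => (p : ℚ_[p]) ^ N) atTop (nhds 0) := by
    apply tendsto_pow_atTop_nhds_zero_of_norm_lt_one
    rw [Padic.norm_p]
    exact inv_lt_one_of_one_lt₀ (by exact_mod_cast (Fact.out : p.Prime).one_lt)
  have hT : Tendsto (fun N : ℕ => ∑ i ∈ range (k + 1), ((bernoulli i : ℚ) : ℚ_[p]) *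
        ((k + 1).choose i : ℚ_[p]) * ((p : ℚ_[p]) ^ N) ^ (k - i) / (k + 1)) atTop
      (nhds (∑ i ∈ range (k + 1), ((bernoulli i : ℚ) : ℚ_[p]) * ((k + 1).choose i : ℚ_[p]) *
        (0 : ℚ_[p]) ^ (k - i) / (k + 1))) := by
    apply tendsto_finsetSum
    intro i _
    exact ((hpN.pow (k - i)).const_mul _).div_const _
  have hv : (∑ i ∈ range (k + 1), ((bernoulli i : ℚ) : ℚ_[p]) * ((k + 1).choose i : ℚ_[p]) *
        (0 : ℚ_[p]) ^ (k - i) / (k + 1)) = ((bernoulli k : ℚ) : ℚ_[p]) := by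
    rw [Finset.sum_range_succ, Finset.sum_eq_zero]
    · rw [Nat.sub_self, pow_zero, Nat.choose_succ_self_right]
      push_cast
      field_simp
      ring
    · intro i hi
      have : k - i ≠ 0 := by have := Finset.mem_range.1 hi; omega
      rw [zero_pow this]; ring
  rw [hv] at hT
  refine hT.congr ?_
  intro N
  exact (hF N).symm

private theorem lim2_U (p : ℕ) [Fact p.Prime] (k N : ℕ) :
    UU p k (N + 1) = (∑ m ∈ range (p ^ (N + 1)), (m : ℚ_[p]) ^ k) -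
      (p : ℚ_[p]) ^ k * ∑ m ∈ range (p ^ N), (m : ℚ_[p]) ^ k := by
  have hp : 0 < p := (Fact.out : p.Prime).pos
  have h1 : (range (p ^ (N + 1))).filter (fun m => p ∣ m) =
      (range (p ^ N)).image (fun m => p * m) := by
    ext m
    simp only [mem_filter, mem_range, mem_image]
    constructor
    · rintro ⟨hm, c, rfl⟩
      refine ⟨c, ?_, rfl⟩
      rw [pow_succ, mul_comm] at hm
      exact lt_of_mul_lt_mul_right hm (Nat.zero_le p)
    · rintro ⟨c, hc, rfl⟩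
      refine ⟨?_, dvd_mul_right _ _⟩
      rw [pow_succ, mul_comm]
      exact Nat.mul_lt_mul_of_pos_right hc hp
  have h2 : (∑ m ∈ (range (p ^ (N + 1))).filter (fun m => p ∣ m), (m : ℚ_[p]) ^ k) =
      (p : ℚ_[p]) ^ k * ∑ m ∈ range (p ^ N), (m : ℚ_[p]) ^ k := by
    rw [h1, Finset.sum_image, Finset.mul_sum]
    · apply Finset.sum_congr rfl
      intro m _
      push_cast
      ring
    · intro a _ b _ hab
      exact Nat.eq_of_mul_eq_mul_left hp hab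
  have h3 := Finset.sum_filter_add_sum_filter_not (range (p ^ (N + 1))) (fun m => p ∣ m)
    (fun m => (m : ℚ_[p]) ^ k)
  rw [← h3, h2]
  unfold UU
  simp only [zpow_natCast]
  ring

open Filter in
theorem V_bern (p : ℕ) [Fact p.Prime] (hp : p ≠ 2) (k : ℕ) (hk : Even k) (hk2 : 2 ≤ k) (N : ℕ)
    (hN : 1 ≤ N) :
    ‖VV p k N - ((2 : ℚ_[p]) ^ k - 1) * (1 - (p : ℚ_[p]) ^ (k - 1)) *
      ((bernoulli k : ℚ) : ℚ_[p]) / k‖ ≤ (p : ℝ) ^ (-(N : ℤ)) := by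
  have hp0 : (p : ℚ_[p]) ≠ 0 := by exact_mod_cast (Fact.out : p.Prime).ne_zero
  have hk0 : (k : ℚ_[p]) ≠ 0 := by
    have : k ≠ 0 := by omega
    exact_mod_cast this
  have hp1 : (1 : ℝ) < p := by exact_mod_cast (Fact.out : p.Prime).one_lt
  obtain ⟨μ, hμ⟩ := mu_exists p hp (k : ℤ) (by exact_mod_cast hk)
  have hS := lim2_S p k
  have hS1 : Tendsto (fun N : ℕ => (∑ m ∈ range (p ^ (N + 1)), (m : ℚ_[p]) ^ k) /
      (p : ℚ_[p]) ^ (N + 1)) atTop (nhds ((bernoulli k : ℚ) : ℚ_[p])) :=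
    hS.comp (tendsto_add_atTop_nat 1)
  have hU : Tendsto (fun N : ℕ => UU p k (N + 1) / (p : ℚ_[p]) ^ (N + 1)) atTop
      (nhds (((bernoulli k : ℚ) : ℚ_[p]) - (p : ℚ_[p]) ^ (k - 1) *
        ((bernoulli k : ℚ) : ℚ_[p]))) := by
    refine (hS1.sub (hS.const_mul ((p : ℚ_[p]) ^ (k - 1)))).congr ?_
    intro M
    rw [lim2_U, sub_div]
    congr 1
    obtain ⟨j, rfl⟩ : ∃ j, k = j + 1 := ⟨k - 1, by omega⟩
    rw [Nat.add_sub_cancel, pow_succ (p : ℚ_[p]) M, pow_succ (p : ℚ_[p]) j]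
    have : (p : ℚ_[p]) ^ M ≠ 0 := pow_ne_zero _ hp0
    field_simp
  have hU2 := hU.const_mul ((2 : ℚ_[p]) ^ k - 1)
  have hW : Tendsto (fun N : ℕ => ((2 : ℚ_[p]) ^ k - 1) * (UU p k (N + 1) /
      (p : ℚ_[p]) ^ (N + 1))) atTop (nhds ((k : ℚ_[p]) * μ)) := by
    rw [tendsto_iff_norm_sub_tendsto_zero]
    have hz : Tendsto (fun N : ℕ => ((p : ℝ)⁻¹) ^ (N + 1)) atTop (nhds 0) :=
      (tendsto_pow_atTop_nhds_zero_of_lt_one (by positivity)
        (inv_lt_one_of_one_lt₀ hp1)).comp (tendsto_add_atTop_nat 1)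
    refine squeeze_zero (fun _ => norm_nonneg _) ?_ hz
    intro M
    have h1 := (hμ (M + 1) (by omega)).2
    have h2 : ((2 : ℚ_[p]) ^ k - 1) * (UU p k (M + 1) / (p : ℚ_[p]) ^ (M + 1)) - (k : ℚ_[p]) * μ =
        (((2 : ℚ_[p]) ^ (k : ℤ) - 1) * UU p k (M + 1) - (k : ℤ) * (p : ℚ_[p]) ^ (M + 1) * μ) /
          (p : ℚ_[p]) ^ (M + 1) := by
      have : (p : ℚ_[p]) ^ (M + 1) ≠ 0 := pow_ne_zero _ hp0
      rw [zpow_natCast]
      push_cast
      field_simp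
    rw [h2, norm_div, norm_pow, Padic.norm_p, div_le_iff₀ (by positivity), ← pow_add]
    refine h1.trans (le_of_eq ?_)
    rw [inv_pow, ← zpow_natCast, ← zpow_neg]
    congr 1
    push_cast
    ring
  have hE := tendsto_nhds_unique hU2 hW
  have hfin : ((2 : ℚ_[p]) ^ k - 1) * (1 - (p : ℚ_[p]) ^ (k - 1)) *
      ((bernoulli k : ℚ) : ℚ_[p]) / k = μ := by
    rw [div_eq_iff hk0, mul_comm μ, ← hE]
    ring
  rw [hfin]
  exact (hμ N hN).1

end Pool.Agent.Work.MP_b73316_nt
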