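import Pool.Agent.Work.MP_b73316_nt.Ser

/-!
Module Lin (size M): the rows are linearly independent over `ℚ`.

PROOF.  Suppose `∑ c_i row_i = 0` with `c ≠ 0`.  For `κ ≤ K` put `c_{κ,e} = c_{κ (D+1) + e}`.  Let
`κ*` be the largest `κ` with some `c_{κ,e} ≠ 0` and `v ≤ D` the least `e` with `c_{κ*,e} ≠ 0`.  The
row of type `κ`, index `e`, is `G_{κ,e} * F_κ` with `G_{κ,e} = tt^e xx^(kap κ) ∈ ℤ⟦q⟧`, `G_{κ,e} =
q^e + ...`.

Case `κ* = 0`: `∑_e c_{0,e} tt^e = 0`, the coefficient of `q^v` is `c_{0,v}`, contradiction.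

Case `κ* ≥ 1`, `b = 2 kap κ* + 1`.  Choose a prime `p` larger than `D` and than the numerators
(absolute values) and denominators of all the `c_i` (`Nat.exists_infinite_primes`), so that every
nonzero `c_i` has `p`-adic norm `1`.  Look at the coefficient of `q^(p+v)` (`p + v < 2p`), in `ℚ_[p]`.
For `κ ≥ 1`, `coeff_{p+v}(G_{κ,e} F_κ) = ∑_{n=1}^{p+v} coeff_{p+v-n}(G_{κ,e}) σ_{-b_κ}(n)` with
`b_κ = 2 kap κ + 1`.  For `n < 2p`, `n ≠ p` the number `σ_{-b}(n)` is a `p`-adic integer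
(all divisors are prime to `p`), and `σ_{-b}(p) = 1 + p^(-b)`.  So this coefficient is
`p^(-b_κ) coeff_v(G_{κ,e})` + (an element of norm `≤ 1`).  Multiply the relation by `p^b`: all terms
with `κ < κ*` have norm `≤ 1/p` (`b_κ < b`, `kap` strictly increasing; `κ = 0` gives
integral times `p^b`), and the terms with `κ = κ*` give
`∑_e c_{κ*,e} coeff_v(G_{κ*,e}) + (norm ≤ 1/p) = c_{κ*,v} + (norm ≤ 1/p)`, because
`coeff_v(G_{κ*,e}) = 0` for `e > v`, `= 1` for `e = v`, and `c_{κ*,e} = 0` for `e < v`.  So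
`‖c_{κ*,v}‖ ≤ 1/p`, but it is `1`: contradiction.
-/

set_option autoImplicit false

open PowerSeries Finset MP0f16e1

namespace Pool.Agent.Work.MP_b73316_nt

private theorem coeff_rat {p : ℕ} [Fact p.Prime] (G : PowerSeries ℤ) (a : ℕ) :
    ((coeff a (toR ℚ G) : ℚ) : ℚ_[p]) = ((coeff a G : ℤ) : ℚ_[p]) := by
  unfold toR
  rw [coeff_map]
  simp

private theorem Fs_int {p : ℕ} [hp : Fact p.Prime] (b n : ℕ) (h1 : n < 2 * p) (h2 : n ≠ p) :
    ‖((coeff n (Fs b) : ℚ) : ℚ_[p])‖ ≤ 1 := by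
  unfold Fs
  rw [coeff_mk, Rat.cast_sum]
  refine IsUltrametricDist.norm_sum_le_of_forall_le_of_nonneg zero_le_one ?_
  intro d hd
  have hdvd := Nat.dvd_of_mem_divisors hd
  have hn0 : n ≠ 0 := (Nat.mem_divisors.1 hd).2
  have hpd : ¬ p ∣ d := by
    intro h
    obtain ⟨c, hc⟩ := h.trans hdvd
    rcases c with _ | _ | c
    · omega
    · omega
    · rw [hc] at h1
      have : 2 * p ≤ p * (c + 1 + 1) := by nlinarith
      omega
  have h3 : ‖((d : ℕ) : ℚ_[p])‖ = 1 := by
    rw [Padic.norm_natCast_eq_one_iff]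
    exact (Nat.Prime.coprime_iff_not_dvd hp.out).2 hpd
  push_cast
  rw [norm_inv, norm_pow, h3, one_pow, inv_one]

private theorem Fs_p {p : ℕ} [hp : Fact p.Prime] (b : ℕ) :
    ((coeff p (Fs b) : ℚ) : ℚ_[p]) = 1 + ((p : ℚ_[p]) ^ b)⁻¹ := by
  unfold Fs
  rw [coeff_mk, Nat.Prime.divisors hp.out, Finset.sum_pair hp.out.one_lt.ne]
  push_cast
  rw [one_pow, inv_one]

private theorem keyA {p : ℕ} [hp : Fact p.Prime] (G : PowerSeries ℤ) (b v : ℕ) (hv : v < p) :
    ‖(p : ℚ_[p]) ^ b * ((coeff (p + v) (toR ℚ G * Fs b) : ℚ) : ℚ_[p]) -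
      ((coeff v G : ℤ) : ℚ_[p])‖ ≤ ‖(p : ℚ_[p])‖ ^ b := by
  have hp0 : (p : ℚ_[p]) ≠ 0 := by exact_mod_cast hp.out.ne_zero
  have hmem : (v, p) ∈ HasAntidiagonal.antidiagonal (p + v) := by
    rw [HasAntidiagonal.mem_antidiagonal]
    exact add_comm v p
  rw [coeff_mul, ← Finset.add_sum_erase _ _ hmem, Rat.cast_add, Rat.cast_mul, coeff_rat, Fs_p]
  have e1 : (p : ℚ_[p]) ^ b * (((coeff v G : ℤ) : ℚ_[p]) * (1 + ((p : ℚ_[p]) ^ b)⁻¹) +
      ((∑ x ∈ (HasAntidiagonal.antidiagonal (p + v)).erase (v, p),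
        coeff x.1 (toR ℚ G) * coeff x.2 (Fs b) : ℚ) : ℚ_[p])) - ((coeff v G : ℤ) : ℚ_[p]) =
      (p : ℚ_[p]) ^ b * (((coeff v G : ℤ) : ℚ_[p]) +
      ((∑ x ∈ (HasAntidiagonal.antidiagonal (p + v)).erase (v, p),
        coeff x.1 (toR ℚ G) * coeff x.2 (Fs b) : ℚ) : ℚ_[p])) := by
    field_simp
    ring
  rw [e1, norm_mul, norm_pow]
  have h2 : ‖((∑ x ∈ (HasAntidiagonal.antidiagonal (p + v)).erase (v, p),
        coeff x.1 (toR ℚ G) * coeff x.2 (Fs b) : ℚ) : ℚ_[p])‖ ≤ 1 := by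
    rw [Rat.cast_sum]
    refine IsUltrametricDist.norm_sum_le_of_forall_le_of_nonneg zero_le_one ?_
    intro x hx
    rw [mem_erase, HasAntidiagonal.mem_antidiagonal] at hx
    rw [Rat.cast_mul, norm_mul, coeff_rat]
    have h3 : x.2 ≠ p := by
      intro h
      apply hx.1
      apply Prod.ext
      · change x.1 = v
        omega
      · exact h
    exact mul_le_one₀ (Padic.norm_int_le_one _) (norm_nonneg _)
      (Fs_int b x.2 (by omega) h3)
  have h4 := Padic.nonarchimedean (p := p) ((coeff v G : ℤ) : ℚ_[p])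
    ((∑ x ∈ (HasAntidiagonal.antidiagonal (p + v)).erase (v, p),
        coeff x.1 (toR ℚ G) * coeff x.2 (Fs b) : ℚ) : ℚ_[p])
  have h5 := h4.trans (max_le (Padic.norm_int_le_one _) h2)
  calc _ ≤ ‖(p : ℚ_[p])‖ ^ b * 1 := mul_le_mul_of_nonneg_left h5 (by positivity)
    _ = _ := mul_one _

private theorem G_coeff (e k v : ℕ) (h : v ≤ e) :
    coeff v (tt ^ e * xx ^ k) = if v = e then 1 else 0 := by
  rw [coeff_mul]
  by_cases hve : v = e
  · subst hve
    rw [if_pos rfl, Finset.sum_eq_single (v, 0)]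
    · change coeff v (tt ^ v) * coeff 0 (xx ^ k) = 1
      rw [tt_pow_coeff_self, coeff_zero_eq_constantCoeff_apply, map_pow,
        ← coeff_zero_eq_constantCoeff_apply, xx_coeff_zero, one_pow, mul_one]
    · intro x hx hne
      rw [HasAntidiagonal.mem_antidiagonal] at hx
      have h1 : x.1 < v := by
        rcases Nat.lt_or_ge x.1 v with h1 | h1
        · exact h1
        · exfalso
          apply hne
          apply Prod.ext
          · change x.1 = v
            omega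
          · change x.2 = 0
            omega
      rw [tt_pow_coeff_lt h1, zero_mul]
    · intro h
      exact absurd (HasAntidiagonal.mem_antidiagonal.2 (by simp)) h
  · rw [if_neg hve]
    refine Finset.sum_eq_zero fun x hx => ?_
    rw [HasAntidiagonal.mem_antidiagonal] at hx
    rw [tt_pow_coeff_lt (by omega), zero_mul]

theorem row_indep (kap : ℕ → ℕ) (h0 : kap 0 = 0) (hk : StrictMono kap) (K D : ℕ) :
    LinearIndependent ℚ (fun i : Fin ((K + 1) * (D + 1)) => row kap D i) := by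
  rw [← LinearIndependent.iff_fractionRing ℤ ℚ, Fintype.linearIndependent_iff]
  intro g hg
  by_contra hcon
  push Not at hcon
  -- the largest type
  obtain ⟨i₁, hi₁, hmax⟩ := Finset.exists_max_image (univ.filter (fun i => g i ≠ 0))
    (fun i : Fin ((K + 1) * (D + 1)) => (i : ℕ) / (D + 1))
    (by
      obtain ⟨i, hi⟩ := hcon
      exact ⟨i, mem_filter.2 ⟨mem_univ _, hi⟩⟩)
  obtain ⟨i₀, hi₀, hmin⟩ := Finset.exists_min_image
    (univ.filter (fun i : Fin ((K + 1) * (D + 1)) => g i ≠ 0 ∧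
      (i : ℕ) / (D + 1) = (i₁ : ℕ) / (D + 1)))
    (fun i : Fin ((K + 1) * (D + 1)) => (i : ℕ) % (D + 1))
    ⟨i₁, mem_filter.2 ⟨mem_univ _, (mem_filter.1 hi₁).2, rfl⟩⟩
  rw [mem_filter] at hi₀
  obtain ⟨-, hg0, hk0⟩ := hi₀
  have hM : ∀ i : Fin ((K + 1) * (D + 1)), g i ≠ 0 →
      (i : ℕ) / (D + 1) ≤ (i₀ : ℕ) / (D + 1) := by
    intro i hi
    rw [hk0]
    exact hmax i (mem_filter.2 ⟨mem_univ _, hi⟩)
  have hV : ∀ i : Fin ((K + 1) * (D + 1)), g i ≠ 0 → (i : ℕ) / (D + 1) = (i₀ : ℕ) / (D + 1) →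
      (i₀ : ℕ) % (D + 1) ≤ (i : ℕ) % (D + 1) := by
    intro i hi h
    exact hmin i (mem_filter.2 ⟨mem_univ _, hi, h.trans hk0⟩)
  have hinj : ∀ i : Fin ((K + 1) * (D + 1)), (i : ℕ) / (D + 1) = (i₀ : ℕ) / (D + 1) →
      (i : ℕ) % (D + 1) = (i₀ : ℕ) % (D + 1) → i = i₀ := by
    intro i h1 h2
    apply Fin.ext
    rw [← Nat.div_add_mod (i : ℕ) (D + 1), ← Nat.div_add_mod (i₀ : ℕ) (D + 1), h1, h2]
  set κ := (i₀ : ℕ) / (D + 1) with hκ
  set v := (i₀ : ℕ) % (D + 1) with hv
  have hvD : v ≤ D := Nat.lt_succ_iff.1 (Nat.mod_lt _ (Nat.succ_pos D))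
  rcases Nat.eq_zero_or_pos κ with hκ0 | hκ0
  · -- type zero
    have h1 := congrArg (coeff v) hg
    rw [map_sum, map_zero, Finset.sum_eq_single i₀] at h1
    · rw [← Int.cast_smul_eq_zsmul ℚ, coeff_smul] at h1
      unfold row FF at h1
      rw [← hκ, ← hv, hκ0, if_pos rfl, h0, mul_one] at h1
      unfold toR at h1
      rw [coeff_map, G_coeff v 0 v le_rfl, if_pos rfl] at h1
      simp at h1
      exact hg0 h1
    · intro i _ hne
      by_cases hgi : g i = 0
      · rw [hgi, zero_smul, map_zero]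
      · have h2 := hM i hgi
        rw [hκ0, Nat.le_zero] at h2
        have h3 := hV i hgi (h2.trans hκ0.symm)
        have h4 : v < (i : ℕ) % (D + 1) := by
          refine lt_of_le_of_ne h3 fun h => hne ?_
          exact hinj i (h2.trans hκ0.symm) h.symm
        rw [← Int.cast_smul_eq_zsmul ℚ, coeff_smul]
        unfold row FF
        rw [h2, if_pos rfl, h0, mul_one]
        unfold toR
        rw [coeff_map, G_coeff _ 0 v h4.le, if_neg h4.ne]
        simp
    · intro h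
      exact absurd (mem_univ _) h
  · -- positive type
    obtain ⟨p, hpD, hpp⟩ := Nat.exists_infinite_primes (D + 1 + ∑ i, (g i).natAbs + 1)
    have : Fact p.Prime := ⟨hpp⟩
    have hgle : ∀ i, (g i).natAbs ≤ ∑ i, (g i).natAbs := fun i =>
      Finset.single_le_sum (f := fun i => (g i).natAbs) (fun _ _ => Nat.zero_le _) (mem_univ i)
    have hvp : v < p := by omega
    have hpi0 : (0 : ℝ) < ‖(p : ℚ_[p])‖ := norm_pos_iff.2 (by exact_mod_cast hpp.ne_zero)
    have hpi1 : ‖(p : ℚ_[p])‖ < 1 := Padic.norm_p_lt_one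
    have hg1 : ‖((g i₀ : ℤ) : ℚ_[p])‖ = 1 := by
      rw [Padic.norm_intCast_eq_one_iff, Int.isCoprime_iff_gcd_eq_one, Int.gcd_comm]
      have h1 : Int.gcd (p : ℤ) (g i₀) = Nat.gcd p (g i₀).natAbs := by
        rw [Int.gcd, Int.natAbs_natCast]
      rw [h1]
      refine (Nat.Prime.coprime_iff_not_dvd hpp).2 fun h => ?_
      have h2 := Nat.le_of_dvd (Int.natAbs_pos.2 hg0) h
      have h3 := hgle i₀
      omega
    set b := 2 * kap κ + 1 with hb
    have hrow : ∀ i : ℕ, i / (D + 1) ≠ 0 → row kap D i =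
        toR ℚ (tt ^ (i % (D + 1)) * xx ^ (kap (i / (D + 1)))) *
          Fs (2 * kap (i / (D + 1)) + 1) := by
      intro i hi
      unfold row FF
      rw [if_neg hi]
    -- the relation
    have hrel : ∑ i, ((g i : ℤ) : ℚ_[p]) *
        ((p : ℚ_[p]) ^ b * ((coeff (p + v) (row kap D i) : ℚ) : ℚ_[p])) = 0 := by
      have h1 := congrArg (coeff (p + v)) hg
      rw [map_sum, map_zero] at h1
      have h2 := congrArg (fun x : ℚ => (p : ℚ_[p]) ^ b * (x : ℚ_[p])) h1
      simp only [Rat.cast_sum, Rat.cast_zero, mul_zero] at h2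
      rw [← h2, Finset.mul_sum]
      refine Finset.sum_congr rfl fun i _ => ?_
      rw [← Int.cast_smul_eq_zsmul ℚ, coeff_smul, smul_eq_mul, Rat.cast_mul, Rat.cast_intCast]
      ring
    have hmain : ((g i₀ : ℤ) : ℚ_[p]) = ∑ i, ((g i : ℤ) : ℚ_[p]) *
        ((if i = i₀ then 1 else 0) -
          (p : ℚ_[p]) ^ b * ((coeff (p + v) (row kap D i) : ℚ) : ℚ_[p])) := by
      simp only [mul_sub]
      rw [Finset.sum_sub_distrib, hrel, sub_zero]
      simp
    have hle : ‖((g i₀ : ℤ) : ℚ_[p])‖ ≤ ‖(p : ℚ_[p])‖ := by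
      rw [hmain]
      refine IsUltrametricDist.norm_sum_le_of_forall_le_of_nonneg hpi0.le ?_
      intro i _
      by_cases hgi : g i = 0
      · rw [hgi, Int.cast_zero, zero_mul, norm_zero]
        exact hpi0.le
      rw [norm_mul]
      have hA : ‖(if i = i₀ then (1 : ℚ_[p]) else 0) -
          (p : ℚ_[p]) ^ b * ((coeff (p + v) (row kap D i) : ℚ) : ℚ_[p])‖ ≤ ‖(p : ℚ_[p])‖ := by
        rcases lt_or_eq_of_le (hM i hgi) with hlt | heq
        · have hne : i ≠ i₀ := by
            rintro rfl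
            exact lt_irrefl _ hlt
          rw [if_neg hne, zero_sub, norm_neg]
          rcases Nat.eq_zero_or_pos ((i : ℕ) / (D + 1)) with hz | hz
          · have h1 : ‖((coeff (p + v) (row kap D i) : ℚ) : ℚ_[p])‖ ≤ 1 := by
              unfold row FF
              rw [if_pos hz, mul_one, coeff_rat]
              exact Padic.norm_int_le_one _
            rw [norm_mul, norm_pow]
            calc _ ≤ ‖(p : ℚ_[p])‖ ^ b * 1 := mul_le_mul_of_nonneg_left h1 (by positivity)
              _ = ‖(p : ℚ_[p])‖ ^ b := mul_one _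
              _ ≤ ‖(p : ℚ_[p])‖ ^ 1 := pow_le_pow_of_le_one hpi0.le hpi1.le (by omega)
              _ = _ := pow_one _
          · set κ' := (i : ℕ) / (D + 1) with hκ'
            have hkk := hk hlt
            have h1 := keyA (p := p) (tt ^ ((i : ℕ) % (D + 1)) * xx ^ (kap κ'))
              (2 * kap κ' + 1) v hvp
            rw [← hrow i (by omega)] at h1
            have h2 : ‖(p : ℚ_[p]) ^ (2 * kap κ' + 1) *
                ((coeff (p + v) (row kap D i) : ℚ) : ℚ_[p])‖ ≤ 1 := by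
              have h3 := Padic.nonarchimedean (p := p)
                ((p : ℚ_[p]) ^ (2 * kap κ' + 1) *
                ((coeff (p + v) (row kap D i) : ℚ) : ℚ_[p]) -
                ((coeff v (tt ^ ((i : ℕ) % (D + 1)) * xx ^ (kap κ')) : ℤ) : ℚ_[p]))
                ((coeff v (tt ^ ((i : ℕ) % (D + 1)) * xx ^ (kap κ')) : ℤ) : ℚ_[p])
              rw [sub_add_cancel] at h3
              refine h3.trans (max_le (h1.trans ?_) (Padic.norm_int_le_one _))
              exact pow_le_one₀ hpi0.le hpi1.le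
            have h4 : b = 2 * kap κ' + 1 + (b - (2 * kap κ' + 1)) := by omega
            rw [h4, pow_add, mul_comm ((p : ℚ_[p]) ^ (2 * kap κ' + 1)), mul_assoc, norm_mul,
              norm_pow]
            calc _ ≤ ‖(p : ℚ_[p])‖ ^ (b - (2 * kap κ' + 1)) * 1 :=
                  mul_le_mul_of_nonneg_left h2 (by positivity)
              _ = ‖(p : ℚ_[p])‖ ^ (b - (2 * kap κ' + 1)) := mul_one _
              _ ≤ ‖(p : ℚ_[p])‖ ^ 1 := pow_le_pow_of_le_one hpi0.le hpi1.le (by omega)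
              _ = _ := pow_one _
        · have h1 := keyA (p := p) (tt ^ ((i : ℕ) % (D + 1)) * xx ^ (kap κ)) b v hvp
          have h5 : row kap D i = toR ℚ (tt ^ ((i : ℕ) % (D + 1)) * xx ^ (kap κ)) * Fs b := by
            rw [hrow i (by omega), heq]
          rw [← h5] at h1
          have h6 := hV i hgi heq
          rw [G_coeff _ _ v h6] at h1
          have h7 : ((if v = (i : ℕ) % (D + 1) then (1 : ℤ) else 0 : ℤ) : ℚ_[p]) =
              (if i = i₀ then (1 : ℚ_[p]) else 0) := by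
            by_cases hi : i = i₀
            · rw [if_pos hi, if_pos (by rw [hi]), Int.cast_one]
            · rw [if_neg hi, if_neg (fun h => hi (hinj i heq h.symm)), Int.cast_zero]
          rw [h7] at h1
          rw [← norm_neg, neg_sub]
          refine h1.trans ?_
          calc _ ≤ ‖(p : ℚ_[p])‖ ^ 1 := pow_le_pow_of_le_one hpi0.le hpi1.le (by omega)
            _ = _ := pow_one _
      calc _ ≤ 1 * ‖(p : ℚ_[p])‖ :=
            mul_le_mul (Padic.norm_int_le_one _) hA (norm_nonneg _) zero_le_one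
        _ = _ := one_mul _
    rw [hg1] at hle
    linarith

end Pool.Agent.Work.MP_b73316_nt
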