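import Pool.Agent.Work.MP_b73316_nt.ZrB

/-!
Module ZrC (size S-M): `Π ≠ 0` (local exponents `1/2`, `3/2` at `t = 1/1728`).

PROOF.  `F = ZMod p`, `p ≥ 5`, so `1728` is invertible; `t₀ = 1/1728`, `Y = X - t₀`, `v = -1728 Y`.
Write `a = Y^i a₁`, `b = Y^j b₁`, `a₁(t₀) ≠ 0 ≠ b₁(t₀)` (`i = rootMultiplicity t₀ a` etc.,
`Polynomial.exists_eq_pow_rootMultiplicity_mul_and_not_dvd`), `i, j ≤ D`, `g = a₁ b₁`, `N = i + j`.
`a' b - a b' = Y^(N-1) ((i - j) g + Y (a₁' b₁ - a₁ b₁'))` (for `N ≥ 1`; multiply everything by `Y` to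
avoid `N - 1`: `Y (a' b - a b') = Y^N ((i-j) g + Y (a₁' b₁ - a₁ b₁'))`).  As `v X = -1728 Y X`:
`U = Y^N U₁`, `U₁ = -6·1728 X ((i-j) g + Y(..)) + (3 - 2v) g`, `U₁(t₀) = (3 - 6 (i - j)) g(t₀)`
(`1728 t₀ = 1`).  `Z = v a b = Y^(N+1) Z₁`, `Z₁ = -1728 g`.
`Y (U' Z - U Z') = Y^(2N+1) (-U₁ Z₁ + Y (..))` (the derivative of `Y^N U₁` is
`N Y^(N-1) U₁ + Y^N U₁'`, of `Y^(N+1) Z₁` is `(N+1) Y^N Z₁ + Y^(N+1) Z₁'`), so
`12 v X (U' Z - U Z') = -12·1728 X Y^(2N+1) (-U₁ Z₁ + Y(..))`;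
`v U² = -1728 Y^(2N+1) U₁²`; `Z² = Y^(2N+2) Z₁²`; `-(6 - 4v) U Z = -(6-4v) Y^(2N+1) U₁ Z₁`.
If `Π = 0`, cancel `Y^(2N+1)` and evaluate at `t₀`: `12 U₁ Z₁ - 1728 U₁² - 6 U₁ Z₁ = 0`, i.e.
`U₁ (6 Z₁ - 1728 U₁) = 0` at `t₀`; with `k = i - j`: `U₁ = (3 - 6k) g`, `6 Z₁ - 1728 U₁ =
-1728 g (6 + 3 - 6 k)`.  So `(3 - 6k)(9 - 6k) = 0` in `F`, `p ∣ 3 (2k - 1)` or `p ∣ 3 (2k - 3)` in `ℤ`;
but `2k-1`, `2k-3` are odd, so nonzero, and `|2k-1|, |2k-3| ≤ 2D + 3 < p`, `p ≥ 5`: contradiction.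
-/

set_option autoImplicit false

namespace Pool.Agent.Work.MP_b73316_nt

open Polynomial in
private theorem y_mul_derivative {R : Type} [CommRing R] (y f : R[X]) (hy : derivative y = 1)
    (n : ℕ) : y * derivative (y ^ n * f) = y ^ n * ((n : R[X]) * f + y * derivative f) := by
  induction n with
  | zero => simp
  | succ n ih =>
    have h : derivative (y ^ (n + 1) * f) = y ^ n * f + y * derivative (y ^ n * f) := by
      rw [pow_succ', mul_assoc, derivative_mul, hy, one_mul]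
    rw [h, mul_add, ← mul_assoc, ih]
    push_cast
    ring

open Polynomial in
private theorem Ppol_factor {R : Type} [CommRing R] (y a₁ b₁ : R[X]) (hy : derivative y = 1)
    (hv : vP R = -1728 * y) (i j : ℕ) :
    ∃ U₁ W : R[X], U₁ = -6 * 1728 * X * (((i : R[X]) - (j : R[X])) * (a₁ * b₁) + y * W) +
        (3 - 2 * vP R) * (a₁ * b₁) ∧
      ∃ W' : R[X], Ppol (y ^ i * a₁) (y ^ j * b₁) = y ^ (2 * (i + j) + 1) *
        (-12 * 1728 * X * (-(U₁ * (-1728 * (a₁ * b₁))) + y * W') - 1728 * U₁ ^ 2 +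
          y * (-1728 * (a₁ * b₁)) ^ 2 - (6 - 4 * vP R) * (U₁ * (-1728 * (a₁ * b₁)))) := by
  set W : R[X] := derivative a₁ * b₁ - a₁ * derivative b₁ with hW
  set U₁ : R[X] := -6 * 1728 * X * (((i : R[X]) - (j : R[X])) * (a₁ * b₁) + y * W) +
        (3 - 2 * vP R) * (a₁ * b₁) with hU₁
  set Z₁ : R[X] := -1728 * (a₁ * b₁) with hZ₁
  refine ⟨U₁, W, rfl, derivative U₁ * Z₁ - U₁ * derivative Z₁, ?_⟩
  have ha := y_mul_derivative y a₁ hy i
  have hb := y_mul_derivative y b₁ hy j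
  have hU : Upol (y ^ i * a₁) (y ^ j * b₁) = y ^ (i + j) * U₁ := by
    unfold Upol
    have e : 6 * vP R * X * (derivative (y ^ i * a₁) * (y ^ j * b₁) -
        y ^ i * a₁ * derivative (y ^ j * b₁)) =
        -6 * 1728 * X * ((y * derivative (y ^ i * a₁)) * (y ^ j * b₁) -
          y ^ i * a₁ * (y * derivative (y ^ j * b₁))) := by
      rw [hv]; ring
    rw [e, ha, hb, hU₁, hW]
    ring
  have hZ : Zpol (y ^ i * a₁) (y ^ j * b₁) = y ^ (i + j + 1) * Z₁ := by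
    unfold Zpol
    rw [hv, hZ₁]
    ring
  have hU' := y_mul_derivative y U₁ hy (i + j)
  have hZ' := y_mul_derivative y Z₁ hy (i + j + 1)
  unfold Ppol
  rw [hU, hZ]
  have e : 12 * vP R * X * (derivative (y ^ (i + j) * U₁) * (y ^ (i + j + 1) * Z₁) -
      y ^ (i + j) * U₁ * derivative (y ^ (i + j + 1) * Z₁)) =
      -12 * 1728 * X * ((y * derivative (y ^ (i + j) * U₁)) * (y ^ (i + j + 1) * Z₁) -
      y ^ (i + j) * U₁ * (y * derivative (y ^ (i + j + 1) * Z₁))) := by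
    rw [hv]; ring
  rw [e, hU', hZ']
  have e2 : vP R * (y ^ (i + j) * U₁) ^ 2 = -1728 * y * (y ^ (i + j) * U₁) ^ 2 := by rw [hv]
  rw [e2]
  push_cast
  ring

theorem Ppol_ne_zero (p D : ℕ) [Fact p.Prime] (hp : 2 * D + 3 < p) (hp5 : 5 ≤ p)
    (a b : Polynomial (ZMod p)) (ha : a ≠ 0) (hb : b ≠ 0) (hda : a.natDegree ≤ D)
    (hdb : b.natDegree ≤ D) : Ppol a b ≠ 0 := by
  have hpp : p.Prime := Fact.out
  have hnd : ∀ m : ℤ, m ≠ 0 → |m| < p → ((m : ℤ) : ZMod p) ≠ 0 := by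
    intro m hm hlt h0
    rw [ZMod.intCast_zmod_eq_zero_iff_dvd] at h0
    exact absurd (Int.le_of_dvd (abs_pos.2 hm) ((dvd_abs _ _).2 h0)) (not_le.2 hlt)
  have h2 : (2 : ZMod p) ≠ 0 := by
    have := hnd 2 (by norm_num) (by rw [abs_of_pos (by norm_num)]; exact_mod_cast (by omega : 2 < p))
    simpa using this
  have h3 : (3 : ZMod p) ≠ 0 := by
    have := hnd 3 (by norm_num) (by rw [abs_of_pos (by norm_num)]; exact_mod_cast (by omega : 3 < p))
    simpa using this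
  have h1728 : (1728 : ZMod p) ≠ 0 := by
    have : (1728 : ZMod p) = 2 ^ 6 * 3 ^ 3 := by norm_num
    rw [this]
    exact mul_ne_zero (pow_ne_zero _ h2) (pow_ne_zero _ h3)
  set t₀ : ZMod p := (1728 : ZMod p)⁻¹ with ht₀
  have ht : 1728 * t₀ = 1 := mul_inv_cancel₀ h1728
  set y : Polynomial (ZMod p) := Polynomial.X - Polynomial.C t₀ with hy
  have hdy : Polynomial.derivative y = 1 := by simp [hy]
  have hv : vP (ZMod p) = -1728 * y := by
    unfold vP
    have : (1728 : Polynomial (ZMod p)) * Polynomial.C t₀ = 1 := by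
      have h := congrArg (Polynomial.C (R := ZMod p)) ht
      rw [Polynomial.C_mul, Polynomial.C_1] at h
      exact h
    rw [hy]
    linear_combination -this
  obtain ⟨a₁, ha₁, hna₁⟩ := Polynomial.exists_eq_pow_rootMultiplicity_mul_and_not_dvd a ha t₀
  obtain ⟨b₁, hb₁, hnb₁⟩ := Polynomial.exists_eq_pow_rootMultiplicity_mul_and_not_dvd b hb t₀
  have hea : a₁.eval t₀ ≠ 0 := fun h => hna₁ (Polynomial.dvd_iff_isRoot.2 h)
  have heb : b₁.eval t₀ ≠ 0 := fun h => hnb₁ (Polynomial.dvd_iff_isRoot.2 h)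
  set i := a.rootMultiplicity t₀ with hi
  set j := b.rootMultiplicity t₀ with hj
  have hiD : i ≤ D := by
    have h := Polynomial.natDegree_le_of_dvd (Polynomial.pow_rootMultiplicity_dvd a t₀) ha
    rw [Polynomial.natDegree_pow, Polynomial.natDegree_X_sub_C, mul_one] at h
    exact h.trans hda
  have hjD : j ≤ D := by
    have h := Polynomial.natDegree_le_of_dvd (Polynomial.pow_rootMultiplicity_dvd b t₀) hb
    rw [Polynomial.natDegree_pow, Polynomial.natDegree_X_sub_C, mul_one] at h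
    exact h.trans hdb
  obtain ⟨U₁, W, hU₁, W', hP⟩ := Ppol_factor y a₁ b₁ hdy hv i j
  rw [ha₁, hb₁, hP]
  have hy0 : y ≠ 0 := Polynomial.X_sub_C_ne_zero t₀
  refine mul_ne_zero (pow_ne_zero _ hy0) fun h0 => ?_
  have hev := congrArg (Polynomial.eval t₀) h0
  have hyev : y.eval t₀ = 0 := by simp [hy]
  have hvev : (vP (ZMod p)).eval t₀ = 0 := by rw [hv]; simp [hyev]
  have hUev : U₁.eval t₀ = (3 - 6 * ((i : ZMod p) - j)) * (a₁.eval t₀ * b₁.eval t₀) := by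
    rw [hU₁]
    simp only [Polynomial.eval_add, Polynomial.eval_mul, Polynomial.eval_sub, Polynomial.eval_neg,
      Polynomial.eval_ofNat, Polynomial.eval_X, Polynomial.eval_natCast, hyev, hvev]
    linear_combination (-6 * ((i : ZMod p) - j) * (a₁.eval t₀ * b₁.eval t₀)) * ht
  simp only [Polynomial.eval_add, Polynomial.eval_mul, Polynomial.eval_sub, Polynomial.eval_neg,
    Polynomial.eval_ofNat, Polynomial.eval_X, Polynomial.eval_pow, hyev, hvev, hUev,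
    Polynomial.eval_zero] at hev
  set g := a₁.eval t₀ * b₁.eval t₀ with hg
  have hg0 : g ≠ 0 := mul_ne_zero hea heb
  have hfin : -1728 * g ^ 2 * ((3 - 6 * ((i : ZMod p) - j)) * (9 - 6 * ((i : ZMod p) - j))) = 0 := by
    have hX : (3 - 6 * ((i : ZMod p) - j)) * g * (1728 * g) * (12 * (1728 * t₀ - 1)) = 0 := by
      rw [ht]; ring
    linear_combination hev + hX
  rcases mul_eq_zero.1 hfin with h | h
  · exact (mul_ne_zero (neg_ne_zero.2 h1728) (pow_ne_zero _ hg0)) h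
  · rcases mul_eq_zero.1 h with h | h
    · have hk : ((2 * ((i : ℤ) - j) - 1 : ℤ) : ZMod p) = 0 := by
        push_cast
        have : (3 : ZMod p) * (2 * ((i : ZMod p) - j) - 1) = 0 := by linear_combination -h
        exact (mul_eq_zero.1 this).resolve_left h3
      refine hnd _ (by omega) ?_ hk
      rw [abs_lt]; constructor <;> omega
    · have hk : ((2 * ((i : ℤ) - j) - 3 : ℤ) : ZMod p) = 0 := by
        push_cast
        have : (3 : ZMod p) * (2 * ((i : ZMod p) - j) - 3) = 0 := by linear_combination -h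
        exact (mul_eq_zero.1 this).resolve_left h3
      refine hnd _ (by omega) ?_ hk
      rw [abs_lt]; constructor <;> omega

end Pool.Agent.Work.MP_b73316_nt
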