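import Pool.Agent.Work.MP_b73316_nt.Zr1
import Pool.Agent.Work.MP_b73316_nt.ZrC

/-!
Module ZrE (size S): zero estimate for `1, x F_1, x² F_2`: order of vanishing `≤ 14 D + 24`.

PROOF.  Suppose `L ≥ 14 D + 25`.  By Bertrand (`Nat.exists_prime_lt_and_le_two_mul`) there is a prime
`p` with `5 D + 10 < p ≤ 10 D + 20`.  `L - p ≥ 4 D + 5`, `p ≥ 4 D + 5`, so
`n = min (L - p) p ≥ 4 D + 5`; also `2 D + 3 < p`, `p ≥ 11`, `D < p < L`.  `zr1` gives `a, b`.
If `b = 0`: `a(t)` vanishes in degrees `< n`, `n > D`, `a = 0` (`poly_eq_zero`), contradiction.  If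
`a = 0`: `x b(t)` vanishes in degrees `< n`, `x` invertible, `b = 0`, contradiction.  So `a, b ≠ 0`;
`riccati` and `Ppol_degree` (`≤ 4 D + 3 < n`) with `poly_eq_zero` give `Ppol a b = 0`, against
`Ppol_ne_zero`.
-/

set_option autoImplicit false

open PowerSeries Finset MP0f16e1

namespace Pool.Agent.Work.MP_b73316_nt

theorem zero_est (D L : ℕ) (c : Fin ((2 + 1) * (D + 1)) → ℚ)
    (hne : ∑ i : Fin ((2 + 1) * (D + 1)), c i • row (fun j => j) D i ≠ 0)
    (hv : ∀ k < L, coeff k (∑ i : Fin ((2 + 1) * (D + 1)), c i • row (fun j => j) D i) = 0) :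
    L ≤ 14 * D + 24 := by
  by_contra hL
  rw [not_le] at hL
  obtain ⟨p, hp, hp1, hp2⟩ := Nat.exists_prime_lt_and_le_two_mul (5 * D + 10) (by omega)
  haveI := Fact.mk hp
  obtain ⟨a, b, hab, ha, hb, h⟩ := zr1 D L p (by omega) (by omega) (by omega) c hne hv
  have hn : 4 * D + 5 ≤ min (L - p) p := by omega
  have hxu : IsUnit (toR (ZMod p) xx) := by
    rw [PowerSeries.isUnit_iff_constantCoeff]
    have h1 : constantCoeff (toR (ZMod p) xx) = 1 := by
      rw [← coeff_zero_eq_constantCoeff_apply, toR, PowerSeries.coeff_map, xx_coeff_zero]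
      simp
    rw [h1]
    exact isUnit_one
  have hb0 : b ≠ 0 := by
    rintro rfl
    have ha0 : a ≠ 0 := by
      rcases hab with h1 | h1
      · exact h1
      · exact absurd rfl h1
    refine ha0 (poly_eq_zero a (min (L - p) p) (by omega) fun k hk => ?_)
    have h1 := h k hk
    rwa [map_zero, mul_zero, add_zero] at h1
  have ha0 : a ≠ 0 := by
    rintro rfl
    refine hb0 (poly_eq_zero b (min (L - p) p) (by omega) ?_)
    rw [← PowerSeries.X_pow_dvd_iff, ← hxu.dvd_mul_left, PowerSeries.X_pow_dvd_iff]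
    intro k hk
    have h1 := h k hk
    rwa [map_zero, zero_add] at h1
  have hdeg := Ppol_degree a b D ha hb
  exact Ppol_ne_zero p D (by omega) (by omega) a b ha0 hb0 ha hb
    (poly_eq_zero _ (min (L - p) p) (by omega) (riccati a b _ h))

end Pool.Agent.Work.MP_b73316_nt
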