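import Pool.Agent.Work.MP_b73316_nt.NumL

/-!
Module NumC (size S-M): the numerical conditions `c1`, `c2`.

PROOF.  Insert `log_le`, `WW_le`; the sums over `Icc 1 11` and `range (K+1)` are finite sums of
rationals (`norm_num [GG, gain, bb, Finset.sum_Icc_succ_top, Finset.sum_range_succ]`; decide the
conditions `u < (u - s) m` and the maxima).  Values (left < right):
kA, K = 2, δ = 0: c1 margin 9.25, c2 margin 1.41.  kA, K = 3, δ = 161/2000: 7.33, 4.54.
kA, K = 4, δ = 201/2000: 4.06, 5.93.  kB, K = 4, δ = 11/2000: 6.75, 6.32.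
kC, K = 4, δ = 27/2000: 5.67, 21.3.
-/

set_option autoImplicit false
set_option linter.unusedSimpArgs false

open Finset

namespace Pool.Agent.Work.MP_b73316_nt

/-- `2 kA i + 1 = 3, 5, 7, ...` -/
def kA (i : ℕ) : ℕ := i

/-- `2 kB i + 1 = 5, 7, 9, ...` -/
def kB (i : ℕ) : ℕ := if i = 0 then 0 else i + 1

/-- `2 kC i + 1 = 3, 7, 9, 11, ...` -/
def kC (i : ℕ) : ℕ := if i ≤ 1 then i else i + 1

/-- the two numerical conditions -/
def Cond (kap : ℕ → ℕ) (K : ℕ) (δ : ℝ) : Prop :=
  (Real.log (2000 / 7) + bb kap K) * (K + 1) < GG (12 * (1 - δ)) 1 (K + 1) ∧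
  8 * ∑ i ∈ range (K + 1), (bb kap i : ℝ) * (2 * i + 1) +
      8 * Real.log (2000 / 7) * (K + 1) ^ 2 + (K + 1) * WW < 8 * gain (12 * (1 - δ)) (K + 1)

private theorem icc11 : (Icc (1 : ℕ) 11) = {1, 2, 3, 4, 5, 6, 7, 8, 9, 10, 11} := by decide

theorem kA_mono : StrictMono kA := by
  intro a b h
  exact h

theorem kB_mono : StrictMono kB := by
  intro a b h
  unfold kB
  split_ifs <;> omega

theorem kC_mono : StrictMono kC := by
  intro a b h
  unfold kC
  split_ifs <;> omega

theorem cond_A2 : Cond kA 2 0 := by
  have hl := log_le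
  have hW := WW_le
  constructor
  · unfold GG
    rw [icc11]
    simp only [sum_insert, sum_singleton, mem_insert, mem_singleton, Nat.reduceEqDiff, or_self,
      not_false_eq_true, Nat.cast_ofNat, Nat.cast_one, bb, kA, kB, kC, Nat.reduceLeDiff,
      OfNat.ofNat_ne_zero, OfNat.ofNat_ne_one, if_false, ite_false, ite_true]
    norm_num [max_def]
    nlinarith
  · unfold gain
    rw [icc11]
    simp only [sum_range_succ, sum_range_zero, sum_insert, sum_singleton, mem_insert,
      mem_singleton, Nat.reduceEqDiff, or_self,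
      not_false_eq_true, Nat.cast_ofNat, Nat.cast_one, bb, kA, kB, kC, Nat.reduceLeDiff,
      OfNat.ofNat_ne_zero, OfNat.ofNat_ne_one, if_false, ite_false, ite_true]
    norm_num
    nlinarith

theorem cond_A3 : Cond kA 3 (161 / 2000) := by
  have hl := log_le
  have hW := WW_le
  constructor
  · unfold GG
    rw [icc11]
    simp only [sum_insert, sum_singleton, mem_insert, mem_singleton, Nat.reduceEqDiff, or_self,
      not_false_eq_true, Nat.cast_ofNat, Nat.cast_one, bb, kA, kB, kC, Nat.reduceLeDiff,
      OfNat.ofNat_ne_zero, OfNat.ofNat_ne_one, if_false, ite_false, ite_true]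
    norm_num [max_def]
    nlinarith
  · unfold gain
    rw [icc11]
    simp only [sum_range_succ, sum_range_zero, sum_insert, sum_singleton, mem_insert,
      mem_singleton, Nat.reduceEqDiff, or_self,
      not_false_eq_true, Nat.cast_ofNat, Nat.cast_one, bb, kA, kB, kC, Nat.reduceLeDiff,
      OfNat.ofNat_ne_zero, OfNat.ofNat_ne_one, if_false, ite_false, ite_true]
    norm_num
    nlinarith

theorem cond_A4 : Cond kA 4 (201 / 2000) := by
  have hl := log_le
  have hW := WW_le
  constructor
  · unfold GG
    rw [icc11]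
    simp only [sum_insert, sum_singleton, mem_insert, mem_singleton, Nat.reduceEqDiff, or_self,
      not_false_eq_true, Nat.cast_ofNat, Nat.cast_one, bb, kA, kB, kC, Nat.reduceLeDiff,
      OfNat.ofNat_ne_zero, OfNat.ofNat_ne_one, if_false, ite_false, ite_true]
    norm_num [max_def]
    nlinarith
  · unfold gain
    rw [icc11]
    simp only [sum_range_succ, sum_range_zero, sum_insert, sum_singleton, mem_insert,
      mem_singleton, Nat.reduceEqDiff, or_self,
      not_false_eq_true, Nat.cast_ofNat, Nat.cast_one, bb, kA, kB, kC, Nat.reduceLeDiff,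
      OfNat.ofNat_ne_zero, OfNat.ofNat_ne_one, if_false, ite_false, ite_true]
    norm_num
    nlinarith

theorem cond_B4 : Cond kB 4 (11 / 2000) := by
  have hl := log_le
  have hW := WW_le
  constructor
  · unfold GG
    rw [icc11]
    simp only [sum_insert, sum_singleton, mem_insert, mem_singleton, Nat.reduceEqDiff, or_self,
      not_false_eq_true, Nat.cast_ofNat, Nat.cast_one, bb, kA, kB, kC, Nat.reduceLeDiff,
      OfNat.ofNat_ne_zero, OfNat.ofNat_ne_one, if_false, ite_false, ite_true]
    norm_num [max_def]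
    nlinarith
  · unfold gain
    rw [icc11]
    simp only [sum_range_succ, sum_range_zero, sum_insert, sum_singleton, mem_insert,
      mem_singleton, Nat.reduceEqDiff, or_self,
      not_false_eq_true, Nat.cast_ofNat, Nat.cast_one, bb, kA, kB, kC, Nat.reduceLeDiff,
      OfNat.ofNat_ne_zero, OfNat.ofNat_ne_one, if_false, ite_false, ite_true]
    norm_num
    nlinarith

theorem cond_C4 : Cond kC 4 (27 / 2000) := by
  have hl := log_le
  have hW := WW_le
  constructor
  · unfold GG
    rw [icc11]
    simp only [sum_insert, sum_singleton, mem_insert, mem_singleton, Nat.reduceEqDiff, or_self,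
      not_false_eq_true, Nat.cast_ofNat, Nat.cast_one, bb, kA, kB, kC, Nat.reduceLeDiff,
      OfNat.ofNat_ne_zero, OfNat.ofNat_ne_one, if_false, ite_false, ite_true]
    norm_num [max_def]
    nlinarith
  · unfold gain
    rw [icc11]
    simp only [sum_range_succ, sum_range_zero, sum_insert, sum_singleton, mem_insert,
      mem_singleton, Nat.reduceEqDiff, or_self,
      not_false_eq_true, Nat.cast_ofNat, Nat.cast_one, bb, kA, kB, kC, Nat.reduceLeDiff,
      OfNat.ofNat_ne_zero, OfNat.ofNat_ne_one, if_false, ite_false, ite_true]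
    norm_num
    nlinarith

end Pool.Agent.Work.MP_b73316_nt
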