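import Pool.Agent.Work.MP_b73316_nt.Defs

/-!
Module NumL (size S-M): numerical values of four logarithms.

`log (2000/7) = 5.65499...`, `log (1867/1000) = 0.62433...`, `log (1000/133) = 2.01741...`,
`log (383/100000) = -5.56489...`, `WW = -33.0645...`.

PROOF.  `log (2000/7) ≤ 5.657`: `2000/7 = 285.714..`, `log 2 < 0.6931471808` (`Real.log_two_lt_d9`),
`2000/7 = 2^8 · 1.11607..` and `log 1.11608 ≤ 0.1099` (e.g. `1.11608 ≤ exp 0.1099`, lower bound of the
exponential by its Taylor polynomial `Real.sum_le_exp_of_nonneg` / `Real.add_one_le_exp` on small steps).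
`WW ≤ -33.05`: it is enough that `log 1.867 ≤ 0.6247`, `log (1000/133) ≤ 2.018`,
`log 0.00383 ≤ -5.5642` (`13.5 · 0.6247 + 1.5 · 2.018 - 8 · 5.5642 = -33.0531`), each from an
inequality `x ≤ exp y` (for instance `1.867 = 2 · 0.9335`, `1000/133 = 8 · 0.93985`,
`0.00383 = 2^(-8) · 0.98048`, `log (1 - y) ≤ - y - y²/2`).
-/

set_option autoImplicit false

namespace Pool.Agent.Work.MP_b73316_nt

private theorem log_up {x y : ℝ} (hx : 0 < x) (hy : 0 ≤ y) (h : x ≤ 1 + y + y ^ 2 / 2) :
    Real.log x ≤ y := by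
  rw [Real.log_le_iff_le_exp hx]
  exact h.trans (Real.quadratic_le_exp_of_nonneg hy)

private theorem log_low {x y : ℝ} (hx : 0 < x) (hy : 0 ≤ y) (hy1 : y ≤ 1)
    (h : 1 + y + y ^ 2 / 2 + y ^ 3 * 2 / 9 ≤ x) : y ≤ Real.log x := by
  rw [Real.le_log_iff_exp_le hx]
  refine le_trans ?_ h
  have h1 := Real.exp_bound' hy hy1 (n := 3) (by norm_num)
  refine h1.trans (le_of_eq ?_)
  simp [Finset.sum_range_succ, Nat.factorial]
  ring

theorem log_le : Real.log (2000 / 7) ≤ 5657 / 1000 := by
  have h0 : (2000 / 7 : ℝ) = 2 ^ 8 * (2000 / 1792) := by norm_num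
  rw [h0, Real.log_mul (by norm_num) (by norm_num), Real.log_pow]
  have h1 := Real.log_two_lt_d9
  have h2 : Real.log (2000 / 1792) ≤ 0.111 := log_up (by norm_num) (by norm_num) (by norm_num)
  push_cast
  linarith

theorem WW_le : WW ≤ -(3305 / 100) := by
  have l2 := Real.log_two_lt_d9
  have l2' := Real.log_two_gt_d9
  have h1 : Real.log (1867 / 1000) ≤ 0.6247 := by
    have e : (1867 / 1000 : ℝ) = 2 / (2000 / 1867) := by norm_num
    rw [e, Real.log_div (by norm_num) (by norm_num)]
    have : (0.06845 : ℝ) ≤ Real.log (2000 / 1867) :=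
      log_low (by norm_num) (by norm_num) (by norm_num) (by norm_num)
    linarith
  have h2 : Real.log (1000 / 133) ≤ 2.018 := by
    have e : (1000 / 133 : ℝ) = 2 ^ 3 / (1064 / 1000) := by norm_num
    rw [e, Real.log_div (by norm_num) (by norm_num), Real.log_pow]
    have : (0.0615 : ℝ) ≤ Real.log (1064 / 1000) :=
      log_low (by norm_num) (by norm_num) (by norm_num) (by norm_num)
    push_cast
    linarith
  have h3 : Real.log (383 / 100000) ≤ -5.5642 := by
    have e : (383 / 100000 : ℝ) = ((100000 / 98048) * 2 ^ 8)⁻¹ := by norm_num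
    rw [e, Real.log_inv, Real.log_mul (by norm_num) (by norm_num), Real.log_pow]
    have : (0.0191 : ℝ) ≤ Real.log (100000 / 98048) :=
      log_low (by norm_num) (by norm_num) (by norm_num) (by norm_num)
    push_cast
    linarith
  unfold WW
  linarith

end Pool.Agent.Work.MP_b73316_nt
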