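import Pool.Agent.Work.MP_b73316_nt.GauB
import Pool.Agent.Work.MP_b73316_nt.DetP

/-!
Module PadV (size S-M): `p`-adic size of the pivot minor.

PROOF.  `M = (K+1)(D+1)`, index `j : Fin M` of type `j / (D+1) ≤ K`.  `b j = bb kap (j/(D+1))` is
monotone in `j` (`bb kap 0 = 0 ≤ bb kap 1 ≤ ...` as `kap` is strictly increasing),
`v j = Nat.log p (l j)` is monotone (`l` strictly increasing, `Nat.log_mono_right`).
`padic_all`: in `Piv.det` take `F = ℚ_[p]`, `lam j = coeff (l j)` (mapped to `ℚ_[p]`), bounds from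
`row_den`, and `det_padic` with `w = 0`.  `padic_bad`: functionals of `gaugeB` at `l j`, `det_padic`
with `w j = if l j < p then ww .. else 0`.
(`algebraMap ℚ ℚ_[p] x = (x : ℚ_[p])`: `eq_ratCast`.)
-/

set_option autoImplicit false

open PowerSeries Finset Filter MP0f16e1

namespace Pool.Agent.Work.MP_b73316_nt

private theorem bb_mono (kap : ℕ → ℕ) (hk : StrictMono kap) : Monotone (bb kap) := by
  intro i j hij
  unfold bb
  split_ifs with h1 h2 h2
  · exact le_rfl
  · exact Nat.zero_le _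
  · omega
  · have := hk.monotone hij
    omega

private theorem bb_div_mono (kap : ℕ → ℕ) (hk : StrictMono kap) (K D : ℕ) :
    Monotone (fun j : Fin ((K + 1) * (D + 1)) => bb kap ((j : ℕ) / (D + 1))) := by
  intro i j hij
  exact bb_mono kap hk (Nat.div_le_div_right (by exact_mod_cast hij))

private theorem log_mono {M : ℕ} (l : Fin M → ℕ) (hl : StrictMono l) (p : ℕ) :
    Monotone (fun j : Fin M => Nat.log p (l j)) := by
  intro i j hij
  exact Nat.log_mono_right (hl.monotone hij)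

theorem padic_all (kap : ℕ → ℕ) (hk : StrictMono kap) (K D : ℕ)
    (l : Fin ((K + 1) * (D + 1)) → ℕ) (δ : ℚ)
    (hP : Piv (fun i : Fin ((K + 1) * (D + 1)) => row kap D i) l δ) (p : ℕ) [Fact p.Prime] :
    ‖(δ : ℚ_[p])‖ ≤ (p : ℝ) ^ (∑ j : Fin ((K + 1) * (D + 1)),
      (bb kap ((j : ℕ) / (D + 1)) * Nat.log p (l j) : ℤ)) := by
  have hdet := hP.det ℚ_[p]
    (fun j => (Algebra.linearMap ℚ ℚ_[p]) ∘ₗ (PowerSeries.coeff (R := ℚ) (l j)))
    (fun j R _ => rfl)
  rw [eq_ratCast] at hdet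
  rw [← hdet]
  have key := det_padic p
    (Matrix.of fun i j : Fin ((K + 1) * (D + 1)) =>
      ((Algebra.linearMap ℚ ℚ_[p]) ∘ₗ (PowerSeries.coeff (R := ℚ) (l j))) (row kap D i))
    (fun j : Fin ((K + 1) * (D + 1)) => bb kap ((j : ℕ) / (D + 1)))
    (fun j => Nat.log p (l j)) (fun _ => 0)
    (bb_div_mono kap hk K D) (log_mono l hP.mono p)
    (by
      intro i j
      have h := row_den kap D i (l j) p
      have e : (p : ℝ) ^ (((bb kap ((i : ℕ) / (D + 1)) : ℤ) * (Nat.log p (l j) : ℤ)) - ((0 : ℕ) : ℤ))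
          = (p : ℝ) ^ (bb kap ((i : ℕ) / (D + 1)) * Nat.log p (l j)) := by
        rw [← zpow_natCast]
        congr 1
      rw [e]
      simpa [Matrix.of_apply, eq_ratCast] using h)
  simpa using key

theorem padic_bad (kap : ℕ → ℕ) (h0 : kap 0 = 0) (hk : StrictMono kap) (K D : ℕ)
    (l : Fin ((K + 1) * (D + 1)) → ℕ) (δ : ℚ)
    (hP : Piv (fun i : Fin ((K + 1) * (D + 1)) => row kap D i) l δ) (p : ℕ) [Fact p.Prime]
    (hp : 4 ^ kap K + 2 * kap K + 14 ≤ p)
    (hv : ∀ i ∈ Icc 1 K, Tendsto (zs p (2 * kap i + 1)) atTop (nhds 0)) :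
    ‖(δ : ℚ_[p])‖ ≤ (p : ℝ) ^ ((∑ j : Fin ((K + 1) * (D + 1)),
        (bb kap ((j : ℕ) / (D + 1)) * Nat.log p (l j) : ℤ)) -
      ∑ j : Fin ((K + 1) * (D + 1)),
        ((if l j < p then ww (D + kap K + 22) p (l j) else 0 : ℕ) : ℤ)) := by
  obtain ⟨lam, hlam, hb⟩ := gaugeB kap h0 hk K p hp hv D
  have hdet := hP.det ℚ_[p] (fun j => lam (l j))
    (fun j R hR => by rw [hlam (l j) R hR, eq_ratCast])
  rw [eq_ratCast] at hdet
  rw [← hdet]
  exact det_padic p
    (Matrix.of fun i j : Fin ((K + 1) * (D + 1)) => lam (l j) (row kap D i))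
    (fun j : Fin ((K + 1) * (D + 1)) => bb kap ((j : ℕ) / (D + 1)))
    (fun j => Nat.log p (l j))
    (fun j => if l j < p then ww (D + kap K + 22) p (l j) else 0)
    (bb_div_mono kap hk K D) (log_mono l hP.mono p)
    (fun i j => hb (l j) i i.isLt)

end Pool.Agent.Work.MP_b73316_nt
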