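import Pool.Agent.Work.MP_b73316_nt.Defs

/-!
Module PivA (size S-M; linear algebra): echelon form of linearly independent power series.

PROOF.  Claim: a subspace `V` of `ℚ⟦X⟧` of finite dimension `M` has elements `R_0, ..., R_{M-1}` with
orders `l_0 < l_1 < ...` (`coeff k R_j = 0` for `k < l_j`, `coeff (l_j) R_j ≠ 0`) which form a basis.
Induction on `M`: `M = 0` is trivial.  For `M > 0` let `l_0` be the least `l` such that some element of
`V` has a nonzero coefficient at `l` (`Nat.find`), `R_0 ∈ V` with `coeff l_0 R_0 ≠ 0`; all the elements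
of `V` have zero coefficients below `l_0`.  `V' = V ⊓ ker (coeff l_0)` has dimension `M - 1`
(`V = span R_0 ⊕ V'`); apply the induction hypothesis to `V'`; the orders there are `> l_0` since all
coefficients of the elements of `V'` at `k ≤ l_0` vanish.  The `R_j` are linearly independent (look at
the smallest index with a nonzero coefficient), they are `M` elements of `V = span (range A)`, so they
are a basis; write `R_j = ∑ i, T j i • A i`; `T` is invertible because it maps a basis to a basis
(both families are linearly independent: if `v ᵥ* T = 0` then `∑ j, v j • R_j = 0`, so `v = 0`;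
`Matrix.det_ne_zero...`/`Matrix.exists_vecMul_eq_zero_iff`).

Alternative (no subspaces): induction on `M` directly with families: choose `l_0` and an index `i_0`
with `coeff l_0 (A i_0) ≠ 0`, subtract multiples of `A i_0` from the other `A i`.
-/

set_option autoImplicit false

open PowerSeries Finset

namespace Pool.Agent.Work.MP_b73316_nt

private theorem ech (M : ℕ) : ∀ V : Submodule ℚ (PowerSeries ℚ), FiniteDimensional ℚ V →
    Module.finrank ℚ V = M → ∃ (l : Fin M → ℕ) (R : Fin M → PowerSeries ℚ), StrictMono l ∧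
      ∀ j, R j ∈ V ∧ (∀ k < l j, coeff k (R j) = 0) ∧ coeff (l j) (R j) ≠ 0 := by
  classical
  induction M with
  | zero =>
    intro V _ _
    exact ⟨fun j => j.elim0, fun j => j.elim0, fun j => j.elim0, fun j => j.elim0⟩
  | succ M ih =>
    intro V hV hM
    -- some element of `V` is not zero
    have hne : ∃ l : ℕ, ∃ f ∈ V, coeff l f ≠ 0 := by
      by_contra hcon
      push Not at hcon
      have hbot : V = ⊥ := by
        rw [Submodule.eq_bot_iff]
        intro f hf
        ext l
        rw [hcon l f hf, map_zero]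
      rw [hbot, finrank_bot] at hM
      omega
    obtain ⟨f, hf, hfl⟩ := Nat.find_spec hne
    have hmin : ∀ k < Nat.find hne, ∀ g ∈ V, coeff k g = 0 := by
      intro k hk g hg
      by_contra hcon
      exact Nat.find_min hne hk ⟨g, hg, hcon⟩
    obtain ⟨l0, hl0⟩ : ∃ l0, Nat.find hne = l0 := ⟨_, rfl⟩
    rw [hl0] at hfl hmin
    let φ : V →ₗ[ℚ] ℚ := (coeff (R := ℚ) l0).domRestrict V
    have hφ : ∀ g : V, φ g = coeff l0 (g : PowerSeries ℚ) := fun g => rfl
    have hsurj : LinearMap.range φ = ⊤ := by
      rw [LinearMap.range_eq_top]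
      intro x
      refine ⟨(x / coeff l0 f) • ⟨f, hf⟩, ?_⟩
      rw [map_smul, hφ, smul_eq_mul]
      exact div_mul_cancel₀ _ hfl
    have hdim := LinearMap.finrank_range_add_finrank_ker φ
    rw [hsurj, finrank_top, Module.finrank_self, hM] at hdim
    have hker : Module.finrank ℚ (LinearMap.ker φ) = M := by omega
    have hmap : Module.finrank ℚ ((LinearMap.ker φ).map V.subtype) = M := by
      rw [LinearEquiv.finrank_eq (Submodule.equivMapOfInjective V.subtype V.injective_subtype
        (LinearMap.ker φ)).symm, hker]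
    obtain ⟨l, R, hl, hR⟩ := ih ((LinearMap.ker φ).map V.subtype) inferInstance hmap
    have hR' : ∀ j, R j ∈ V ∧ coeff l0 (R j) = 0 := by
      intro j
      obtain ⟨g, hg, hgR⟩ := (hR j).1
      rw [← hgR]
      exact ⟨g.2, hg⟩
    have hlt : ∀ j, l0 < l j := by
      intro j
      by_contra hcon
      have hle : l j ≤ l0 := not_lt.1 hcon
      rcases hle.eq_or_lt with h | h
      · have h2 := (hR j).2.2
        rw [h] at h2
        exact h2 (hR' j).2
      · exact (hR j).2.2 (hmin _ h _ (hR' j).1)
    refine ⟨Fin.cons l0 l, Fin.cons f R, ?_, ?_⟩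
    · intro a b hab
      refine Fin.cases ?_ (fun a => ?_) a hab
      · intro hab
        obtain ⟨b', rfl⟩ := Fin.exists_succ_eq.2 (Fin.pos_iff_ne_zero.1 hab)
        simpa using hlt b'
      · intro hab
        have hb0 : b ≠ 0 := by
          rintro rfl
          exact absurd hab (Fin.not_lt_zero _)
        obtain ⟨b', rfl⟩ := Fin.exists_succ_eq.2 hb0
        rw [Fin.cons_succ, Fin.cons_succ]
        exact hl (Fin.succ_lt_succ_iff.1 hab)
    · intro j
      refine Fin.cases ?_ (fun j => ?_) j
      · rw [Fin.cons_zero, Fin.cons_zero]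
        exact ⟨hf, fun k hk => hmin k hk f hf, hfl⟩
      · rw [Fin.cons_succ, Fin.cons_succ]
        exact ⟨(hR' j).1, (hR j).2⟩

private theorem tri_zero {M : ℕ} {l : Fin M → ℕ} (hl : StrictMono l) {R : Fin M → PowerSeries ℚ}
    (hR : ∀ j, (∀ k < l j, coeff k (R j) = 0) ∧ coeff (l j) (R j) ≠ 0) {v : Fin M → ℚ}
    (h : ∑ j, v j • R j = 0) : v = 0 := by
  by_contra hv
  obtain ⟨j, hj⟩ : ∃ j, v j ≠ 0 := by
    by_contra hcon
    push Not at hcon
    exact hv (funext hcon)
  obtain ⟨j, hj, hmin⟩ := (wellFounded_lt (α := Fin M)).has_min {j | v j ≠ 0} ⟨j, hj⟩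
  have h1 := congrArg (coeff (R := ℚ) (l j)) h
  rw [map_sum, map_zero, Finset.sum_eq_single j] at h1
  · rw [map_smul, smul_eq_mul] at h1
    rcases mul_eq_zero.1 h1 with h2 | h2
    · exact hj h2
    · exact (hR j).2 h2
  · intro j' _ hne
    rw [map_smul, smul_eq_mul]
    rcases lt_or_gt_of_ne hne with h2 | h2
    · have h3 : v j' = 0 := by
        by_contra hcon
        exact hmin j' hcon h2
      rw [h3, zero_mul]
    · rw [(hR j').1 _ (hl h2), mul_zero]
  · intro h2
    exact absurd (Finset.mem_univ j) h2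

theorem echelon {M : ℕ} (A : Fin M → PowerSeries ℚ) (hA : LinearIndependent ℚ A) :
    ∃ (l : Fin M → ℕ) (T : Matrix (Fin M) (Fin M) ℚ), StrictMono l ∧ T.det ≠ 0 ∧
      ∀ j, (∀ k < l j, coeff k (∑ i, T j i • A i) = 0) ∧
        coeff (l j) (∑ i, T j i • A i) ≠ 0 := by
  have hfin : FiniteDimensional ℚ (Submodule.span ℚ (Set.range A)) :=
    FiniteDimensional.span_of_finite ℚ (Set.finite_range A)
  have hrk : Module.finrank ℚ (Submodule.span ℚ (Set.range A)) = M := by
    rw [finrank_span_eq_card hA, Fintype.card_fin]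
  obtain ⟨l, R, hl, hR⟩ := ech M (Submodule.span ℚ (Set.range A)) hfin hrk
  have hT : ∀ j, ∃ c : Fin M → ℚ, ∑ i, c i • A i = R j := fun j =>
    (Submodule.mem_span_range_iff_exists_fun ℚ).1 (hR j).1
  choose T hT using hT
  refine ⟨l, Matrix.of T, hl, ?_, ?_⟩
  · intro hdet
    obtain ⟨v, hv, hvT⟩ := Matrix.exists_vecMul_eq_zero_iff.2 hdet
    apply hv
    refine tri_zero hl (fun j => (hR j).2) ?_
    simp_rw [← hT, Finset.smul_sum, smul_smul]
    rw [Finset.sum_comm]
    refine Finset.sum_eq_zero fun i _ => ?_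
    rw [← Finset.sum_smul]
    have h1 := congrFun hvT i
    have h2 : ∑ j, v j * T j i = 0 := h1
    rw [h2, zero_smul]
  · intro j
    have h1 : ∑ i, (Matrix.of T) j i • A i = R j := hT j
    rw [h1]
    exact (hR j).2

end Pool.Agent.Work.MP_b73316_nt
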