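import Pool.Agent.Work.MP_b73316_nt.PivA

/-!
Module PivB (size S): the pivot minor is independent of the unipotent functionals.

PROOF.  Take `l`, `T` from `echelon` and `R_j = ∑ i, T j i • A i`, `ρ_j = coeff (l j) (R_j) ≠ 0`,
`δ = (∏ j, ρ_j) / T.det`.  `mono`, `ne` are clear; `comb j`: `c = T j`, `R_j ≠ 0` because
`ρ_j ≠ 0`.  `det`: let `Λ i j = lam j (A i)`.  The matrix `X j k = lam k (R_j) = ∑ i, T j i * Λ i k` is
`(T mapped to F) * Λ`.  For `k < j`: `l k < l j`, all coefficients of `R_j` below `l k` vanish, so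
`lam k (R_j) = coeff (l k) (R_j) = 0`; for `k = j`: `lam j (R_j) = ρ_j`.  So `X` is upper triangular
(`Matrix.det_of_upperTriangular`) with determinant `∏ ρ_j`, and `det X = det T * det Λ`
(`RingHom.map_det` for `algebraMap ℚ F`, injective).
-/

set_option autoImplicit false

open PowerSeries Finset

namespace Pool.Agent.Work.MP_b73316_nt

theorem pivot {M : ℕ} (A : Fin M → PowerSeries ℚ) (hA : LinearIndependent ℚ A) :
    ∃ (l : Fin M → ℕ) (δ : ℚ), Piv A l δ := by
  obtain ⟨l, T, hl, hT, hR⟩ := echelon A hA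
  refine ⟨l, (∏ j, coeff (l j) (∑ i, T j i • A i)) / T.det, hl, ?_, ?_, ?_⟩
  · exact div_ne_zero (Finset.prod_ne_zero_iff.2 fun j _ => (hR j).2) hT
  · intro j
    refine ⟨T j, ?_, (hR j).1⟩
    intro h0
    have h1 := (hR j).2
    rw [h0, map_zero] at h1
    exact h1 rfl
  · intro F _ _ lam hlam
    have hX : (T.map (algebraMap ℚ F)) * (Matrix.of fun i j => lam j (A i)) =
        Matrix.of fun j k => lam k (∑ i, T j i • A i) := by
      ext j k
      rw [Matrix.mul_apply, Matrix.of_apply, map_sum]
      refine Finset.sum_congr rfl fun i _ => ?_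
      rw [Matrix.map_apply, Matrix.of_apply, map_smul, Algebra.smul_def]
    have htri : (Matrix.of fun j k => lam k (∑ i, T j i • A i)).BlockTriangular id := by
      intro j k hkj
      rw [Matrix.of_apply]
      have h1 : (l k) < l j := hl hkj
      rw [hlam k _ (fun a ha => (hR j).1 a (ha.trans h1)), (hR j).1 _ h1, map_zero]
    have hdetX := Matrix.det_of_isUpperTriangular htri
    have hdiag : ∏ j, (Matrix.of fun j k => lam k (∑ i, T j i • A i)) j j =
        algebraMap ℚ F (∏ j, coeff (l j) (∑ i, T j i • A i)) := by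
      rw [map_prod]
      refine Finset.prod_congr rfl fun j _ => ?_
      rw [Matrix.of_apply, hlam j _ (hR j).1]
    have hdetT : (T.map (algebraMap ℚ F)).det = algebraMap ℚ F T.det := by
      rw [← RingHom.mapMatrix_apply, ← RingHom.map_det]
    have hT' : algebraMap ℚ F T.det ≠ 0 := by
      rw [Ne, _root_.map_eq_zero]
      exact hT
    have h1 := congrArg Matrix.det hX
    rw [Matrix.det_mul, hdetX, hdiag, hdetT] at h1
    rw [map_div₀, eq_div_iff hT', mul_comm]
    exact h1

end Pool.Agent.Work.MP_b73316_nt
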