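import Pool.Agent.Work.BV.PIV
import Mathlib

/-!
Module Pnt (size S-M): the prime number theorem in the form `|θ(x) - x| ≤ ε x + C`.

PROOF.  `BV.pnt_all : PNT`, `PNT` is `π(x) log x / x → 1` (see `Pool/Agent/Work/BV/Defs.lean`; in the
proof of `pnt_all` in `Pool/Agent/Work/BV/PIV.lean` the bound `|thp Y 1 1 / Y - 1| ≤ C / log Y`,
`thp Y 1 1 = Chebyshev.theta Y`, is derived from `bv_theta`; it can be repeated here).  So
`θ(x)/x → 1` along the naturals: eventually `|θ(x) - x| ≤ ε x`; for the finitely many other `x` take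
`C` large (`θ(x) ≤ log 4 · x`).  `ψ`: `0 ≤ ψ(x) - θ(x) ≤ C √x` (`Chebyshev.psi_sub_theta_le_mul_sqrt`,
`Chebyshev.theta_le_psi`), `√x ≤ ε x + 1/ε`.  `pi_near`: this is `pnt_all` itself.
-/

set_option autoImplicit false

open Filter

namespace Pool.Agent.Work.MP_b73316_nt

private theorem theta_tendsto :
    Tendsto (fun n : ℕ => Chebyshev.theta n / n) atTop (nhds 1) := by
  have hlogt : Tendsto (fun n : ℕ => Real.log (n : ℝ)) atTop atTop :=
    Real.tendsto_log_atTop.comp tendsto_natCast_atTop_atTop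
  have hpi : Tendsto (fun x : ℕ => (Nat.primeCounting x : ℝ) * Real.log x / x) atTop
    (nhds 1) := BV.pnt_all
  obtain ⟨K, hK⟩ := Chebyshev.primeCounting_sub_theta_div_log_isBigO.bound
  have h3 := tendsto_natCast_atTop_atTop.eventually hK
  have h4 : Tendsto (fun n : ℕ => (Nat.primeCounting n : ℝ) * Real.log n / n -
      Chebyshev.theta n / n) atTop (nhds 0) := by
    have h5 : Tendsto (fun n : ℕ => K / Real.log n) atTop (nhds 0) := hlogt.const_div_atTop K
    refine squeeze_zero_norm' ?_ h5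
    filter_upwards [h3, eventually_ge_atTop 2] with n hn hn2
    have hn2' : (2 : ℝ) ≤ n := by exact_mod_cast hn2
    have hn0 : (0 : ℝ) < n := by linarith
    have hl : 0 < Real.log n := Real.log_pos (by linarith)
    rw [Nat.floor_natCast] at hn
    have e1 : (Nat.primeCounting n : ℝ) * Real.log n / n - Chebyshev.theta n / n =
        ((Nat.primeCounting n : ℝ) - Chebyshev.theta n / Real.log n) * (Real.log n / n) := by
      field_simp
    rw [e1, norm_mul]
    have e2 : ‖(n : ℝ) / Real.log n ^ 2‖ = n / Real.log n ^ 2 :=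
      Real.norm_of_nonneg (by positivity)
    rw [e2] at hn
    have e3 : ‖Real.log n / (n : ℝ)‖ = Real.log n / n := Real.norm_of_nonneg (by positivity)
    rw [e3]
    refine (mul_le_mul_of_nonneg_right hn (by positivity)).trans_eq ?_
    field_simp
  have h5 := hpi.sub h4
  rw [sub_zero] at h5
  refine h5.congr fun n => ?_
  ring

theorem theta_near (ε : ℝ) (hε : 0 < ε) :
    ∃ C : ℝ, ∀ x : ℕ, |Chebyshev.theta x - x| ≤ ε * x + C := by
  have h := theta_tendsto
  rw [Metric.tendsto_atTop] at h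
  obtain ⟨N, hN⟩ := h ε hε
  refine ⟨∑ n ∈ Finset.range (N + 1), |Chebyshev.theta n - n|, fun x => ?_⟩
  have hC : 0 ≤ ∑ n ∈ Finset.range (N + 1), |Chebyshev.theta n - n| :=
    Finset.sum_nonneg fun _ _ => abs_nonneg _
  have hx0 : (0 : ℝ) ≤ x := Nat.cast_nonneg x
  by_cases hx : x < N + 1
  · have h1 : |Chebyshev.theta x - x| ≤ ∑ n ∈ Finset.range (N + 1), |Chebyshev.theta n - n| :=
      Finset.single_le_sum (f := fun n : ℕ => |Chebyshev.theta n - n|)
        (fun _ _ => abs_nonneg _) (Finset.mem_range.2 hx)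
    have : 0 ≤ ε * x := by positivity
    linarith
  · push Not at hx
    have hx1 : (0 : ℝ) < x := by
      have : 0 < x := by omega
      exact_mod_cast this
    have h1 := hN x (by omega)
    rw [Real.dist_eq] at h1
    have h2 : Chebyshev.theta x - x = (Chebyshev.theta x / x - 1) * x := by
      field_simp
    rw [h2, abs_mul, abs_of_pos hx1]
    have h3 : |Chebyshev.theta x / x - 1| * x ≤ ε * x :=
      mul_le_mul_of_nonneg_right h1.le hx0
    linarith

theorem psi_near (ε : ℝ) (hε : 0 < ε) :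
    ∃ C : ℝ, ∀ x : ℕ, |Chebyshev.psi x - x| ≤ ε * x + C := by
  obtain ⟨C, hC⟩ := theta_near (ε / 2) (by linarith)
  obtain ⟨D, hD⟩ := Chebyshev.psi_sub_theta_le_mul_sqrt
  refine ⟨C + D ^ 2 / (2 * ε), fun x => ?_⟩
  have h1 := hC x
  have h2 := hD x
  have h3 := Chebyshev.theta_le_psi x
  have hx0 : (0 : ℝ) ≤ x := Nat.cast_nonneg x
  have h4 : D * Real.sqrt x ≤ ε / 2 * x + D ^ 2 / (2 * ε) := by
    have h5 : (Real.sqrt x) ^ 2 = x := Real.sq_sqrt hx0
    have h6 : 0 ≤ (ε * Real.sqrt x - D) ^ 2 / (2 * ε) := by positivity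
    have h7 : (ε * Real.sqrt x - D) ^ 2 / (2 * ε) =
        ε / 2 * (Real.sqrt x) ^ 2 - D * Real.sqrt x + D ^ 2 / (2 * ε) := by
      field_simp
      ring
    rw [h7, h5] at h6
    linarith
  rw [abs_le] at h1 ⊢
  constructor <;> linarith [h1.1, h1.2]

theorem pi_near : Tendsto (fun x : ℕ => (Nat.primeCounting x : ℝ) * Real.log x / x) atTop
    (nhds 1) := BV.pnt_all

end Pool.Agent.Work.MP_b73316_nt
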