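import Pool.Agent.Work.MP_b73316_nt.Ram2
import Pool.Agent.Work.MP_0f16e1_nt.Deriv
import Pool.Agent.Work.MP_b73316_nt.Ser

/-!
Module ZrA (size S): differential equations of `t` and `x` (`θ = q d/dq`).

PROOF.  `theta_mul` (Leibniz rule, `Pool/Agent/Work/MP_0f16e1_nt/Deriv.lean`).
`ram4 : 3 θ e4 = e2 e4 - e6`, `ram6 : 2 θ e6 = e2 e6 - e4²`, `dl_spec`, and
`θ dl = e2 dl` (from `1728 dl = e4³ - e6²`).  `θ e4i = - e4i² θ e4` (`e4 e4i = 1`), so
`3 θ e4i = -e4i (e2 - x)` (`x = e6 e4i`).  `θ t = θ dl e4i³ + 3 dl e4i² θ e4i =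
t (e2 - (e2 - x)) = t x`.  With `v = 1 - 1728 t`, `v e4³ = e6²` (`v_eq`), so `v e4² e4i... `:
`x = e6 e4i`, `v e4 = x²` (multiply by `e4²`: `v e4³ = e6² = x² e4²`).
`6 θ x = 6 θ e6 e4i + 6 e6 θ e4i = 3 (e2 e6 - e4²) e4i - 2 x (e2 - x) = x e2 - 3 e4 + 2 x²`, and
times `v`: `6 v θ x = v x e2 - 3 x² + 2 v x² = x (v e2 - (3 - 2v) x)`.
-/

set_option autoImplicit false

open PowerSeries MP0f16e1

namespace Pool.Agent.Work.MP_b73316_nt

theorem v_mul_e4 : (1 - 1728 * tt) * e4 = xx ^ 2 := by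
  have h1 := e4_mul_e4i
  have h2 := v_eq
  unfold xx
  linear_combination e4i ^ 2 * h2 - (1 - 1728 * tt) * e4 * (e4 * e4i + 1) * h1

private theorem theta_one' : theta ℤ (1 : PowerSeries ℤ) = 0 := by
  have h := theta_mul ℤ 1 1
  rw [mul_one] at h
  linear_combination -h

private theorem theta_dl' : theta ℤ dl = e2 * dl := by
  have hs := congrArg (theta ℤ) dl_spec
  have e43 : theta ℤ (e4 ^ 3) = 3 * e4 ^ 2 * theta ℤ e4 := by
    rw [pow_succ, pow_two, theta_mul, theta_mul]; ring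
  have e62 : theta ℤ (e6 ^ 2) = 2 * e6 * theta ℤ e6 := by
    rw [pow_two, theta_mul]; ring
  have e1728 : theta ℤ ((1728 : PowerSeries ℤ) * dl) = 1728 * theta ℤ dl := by
    have : (1728 : PowerSeries ℤ) * dl = (1728 : ℤ) • dl := by
      rw [zsmul_eq_mul]; norm_num
    rw [this, map_smul, zsmul_eq_mul]; norm_num
  rw [map_sub, e43, e62, e1728] at hs
  have h0 : (1728 : PowerSeries ℤ) ≠ 0 := by
    intro h
    have h' := congrArg (constantCoeff (R := ℤ)) h
    rw [map_ofNat, map_zero] at h'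
    exact absurd h' (by norm_num)
  apply mul_left_cancel₀ h0
  linear_combination hs + e4 ^ 2 * ram4 - e6 * ram6 - e2 * dl_spec

private theorem theta_e4i' : 3 * theta ℤ e4i = -(e4i * (e2 - xx)) := by
  have h1 := e4_mul_e4i
  have h := congrArg (theta ℤ) h1
  rw [theta_mul, theta_one'] at h
  unfold xx
  linear_combination 3 * e4i * h - 3 * theta ℤ e4i * h1 - e4i ^ 2 * ram4 - e4i * e2 * h1

theorem theta_tt : theta ℤ tt = tt * xx := by
  have e : theta ℤ tt = theta ℤ dl * e4i ^ 3 + dl * e4i ^ 2 * (3 * theta ℤ e4i) := by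
    unfold tt
    rw [theta_mul, pow_succ, pow_two, theta_mul, theta_mul]; ring
  rw [e, theta_dl', theta_e4i']
  unfold tt
  ring

theorem theta_xx : 6 * (1 - 1728 * tt) * theta ℤ xx =
    xx * ((1 - 1728 * tt) * e2 - (3 - 2 * (1 - 1728 * tt)) * xx) := by
  have h1 := e4_mul_e4i
  have e : theta ℤ xx = theta ℤ e6 * e4i + e6 * theta ℤ e4i := by
    conv_lhs => unfold xx
    rw [theta_mul]
  have h6 : 6 * theta ℤ xx = xx * e2 - 3 * e4 + 2 * xx ^ 2 := by
    have hx : xx = e6 * e4i := rfl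
    rw [e]
    linear_combination 3 * e4i * ram6 + 2 * e6 * theta_e4i' - (e2 + 2 * xx) * hx - 3 * e4 * h1
  linear_combination (1 - 1728 * tt) * h6 - 3 * v_mul_e4

end Pool.Agent.Work.MP_b73316_nt
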