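import Pool.Agent.Work.MP_b73316_nt.Defs

/-!
Module Tri (size S-M): coordinates with respect to a triangular family `g_l = q^l + ...`.

PROOF.  Define the coordinates of `R` recursively: `lam l R = coeff l R - ∑_{k<l} lam k R * coeff l (g k)`
(strong recursion on `l`; as linear functionals: `lam l = coeff l - ∑_{k<l} (coeff l (g k)) • lam k`,
`Nat.strongRec` or prove the existence by induction).  Then `coeff n R = ∑_{k ≤ n} lam k R *
coeff n (g k)` for all `n` (since `coeff n (g n) = 1`).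
(a) If the coefficients of `R` below `l` vanish then `lam k R = 0` for `k < l` by induction and
`lam l R = coeff l R`.
(b) if `‖coeff n R‖ ≤ p^(-a)` for all `n ≤ l` then `‖lam l R‖ ≤ p^(-a)`: strong induction on `l`, the
norms of the coefficients of the integral series `g k` are `≤ 1`, ultrametric inequality.
(c) `lam l (g k) = 0` for `k < l`: `lam k' (g k) = 0` for `k' < k` and `lam k (g k) = 1` by (a), then by
induction on `l > k` from the recursion (`coeff l (g k) - lam k (g k) coeff l (g k) - 0 = 0`).  So for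
`S = ∑_{k ≤ L} c_k g_k` with `L < l`, `lam l S = 0`, and (b) applied to `R - S` gives the last claim.
-/

set_option autoImplicit false

open PowerSeries Finset

namespace Pool.Agent.Work.MP_b73316_nt

private noncomputable def triLam (p : ℕ) [Fact p.Prime] (g : ℕ → PowerSeries ℤ_[p]) (l : ℕ) :
    PowerSeries ℚ_[p] →ₗ[ℚ_[p]] ℚ_[p] :=
  coeff l - ∑ k : Fin l, ((coeff l (g k) : ℤ_[p]) : ℚ_[p]) • triLam p g k
termination_by l
decreasing_by exact k.2

private theorem triLam_eq (p : ℕ) [Fact p.Prime] (g : ℕ → PowerSeries ℤ_[p]) (l : ℕ)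
    (R : PowerSeries ℚ_[p]) : triLam p g l R =
      coeff l R - ∑ k : Fin l, ((coeff l (g k) : ℤ_[p]) : ℚ_[p]) * triLam p g k R := by
  rw [triLam, LinearMap.sub_apply, LinearMap.sum_apply]
  rfl

private theorem triLam_zero (p : ℕ) [Fact p.Prime] (g : ℕ → PowerSeries ℤ_[p]) (l : ℕ)
    (R : PowerSeries ℚ_[p]) (h : ∀ k < l, coeff k R = 0) : ∀ k < l, triLam p g k R = 0 := by
  intro k
  induction k using Nat.strong_induction_on with
  | _ k ih =>
    intro hk
    rw [triLam_eq, h k hk, sum_eq_zero, sub_zero]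
    intro j _
    rw [ih j j.2 (j.2.trans hk), mul_zero]

private theorem triLam_self (p : ℕ) [Fact p.Prime] (g : ℕ → PowerSeries ℤ_[p]) (l : ℕ)
    (R : PowerSeries ℚ_[p]) (h : ∀ k < l, coeff k R = 0) : triLam p g l R = coeff l R := by
  rw [triLam_eq, sum_eq_zero, sub_zero]
  intro j _
  rw [triLam_zero p g l R h j j.2, mul_zero]

private theorem triLam_norm (p : ℕ) [Fact p.Prime] (g : ℕ → PowerSeries ℤ_[p]) (C : ℝ)
    (hC : 0 ≤ C) (R : PowerSeries ℚ_[p]) (l : ℕ) (h : ∀ n ≤ l, ‖coeff n R‖ ≤ C) :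
    ‖triLam p g l R‖ ≤ C := by
  induction l using Nat.strong_induction_on with
  | _ l ih =>
    rw [triLam_eq, sub_eq_add_neg]
    refine (IsUltrametricDist.norm_add_le_max _ _).trans (max_le (h l le_rfl) ?_)
    rw [norm_neg]
    refine IsUltrametricDist.norm_sum_le_of_forall_le_of_nonneg hC fun j _ => ?_
    rw [norm_mul]
    have h1 := ih j j.2 fun n hn => h n (hn.trans j.2.le)
    have h2 : ‖((coeff l (g j) : ℤ_[p]) : ℚ_[p])‖ ≤ 1 := (coeff l (g j) : ℤ_[p]).norm_le_one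
    calc ‖((coeff l (g j) : ℤ_[p]) : ℚ_[p])‖ * ‖triLam p g j R‖ ≤ 1 * C :=
          mul_le_mul h2 h1 (norm_nonneg _) zero_le_one
      _ = C := one_mul C

private theorem triLam_g (p : ℕ) [Fact p.Prime] (g : ℕ → PowerSeries ℤ_[p])
    (h1 : ∀ l k, k < l → coeff k (g l) = 0) (h2 : ∀ l, coeff l (g l) = 1) (k : ℕ) :
    ∀ l, k < l → triLam p g l ((g k).map (algebraMap ℤ_[p] ℚ_[p])) = 0 := by
  have hz : ∀ j < k, coeff j ((g k).map (algebraMap ℤ_[p] ℚ_[p])) = 0 := by
    intro j hj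
    rw [coeff_map, h1 k j hj, map_zero]
  have hlow := triLam_zero p g k _ hz
  have hself : triLam p g k ((g k).map (algebraMap ℤ_[p] ℚ_[p])) = 1 := by
    rw [triLam_self p g k _ hz, coeff_map, h2, map_one]
  intro l
  induction l using Nat.strong_induction_on with
  | _ l ih =>
    intro hkl
    rw [triLam_eq, sum_eq_single (⟨k, hkl⟩ : Fin l)]
    · simp only
      rw [hself, mul_one, coeff_map]
      exact sub_self _
    · intro j _ hj
      rcases lt_trichotomy (j : ℕ) k with h | h | h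
      · rw [hlow j h, mul_zero]
      · exact absurd (Fin.ext h) hj
      · rw [ih j j.2 h, mul_zero]
    · intro h
      exact absurd (mem_univ _) h

theorem tri (p : ℕ) [Fact p.Prime] (g : ℕ → PowerSeries ℤ_[p])
    (h1 : ∀ l k, k < l → coeff k (g l) = 0) (h2 : ∀ l, coeff l (g l) = 1) :
    ∃ lam : ℕ → (PowerSeries ℚ_[p] →ₗ[ℚ_[p]] ℚ_[p]),
      (∀ l R, (∀ k < l, coeff k R = 0) → lam l R = coeff l R) ∧
      (∀ l a R, (∀ n ≤ l, ‖coeff n R‖ ≤ (p : ℝ) ^ (-(a : ℤ))) →
        ‖lam l R‖ ≤ (p : ℝ) ^ (-(a : ℤ))) ∧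
      (∀ l L a R (c : ℕ → ℤ_[p]), L < l →
        (∀ n ≤ l, ‖coeff n R - ((coeff n (∑ k ∈ range (L + 1), c k • g k) : ℤ_[p]) : ℚ_[p])‖ ≤
          (p : ℝ) ^ (-((a : ℕ) : ℤ))) → ‖lam l R‖ ≤ (p : ℝ) ^ (-(a : ℤ))) := by
  refine ⟨triLam p g, fun l R h => triLam_self p g l R h, fun l a R h =>
    triLam_norm p g _ (by positivity) R l h, fun l L a R c hL h => ?_⟩
  have hS : (∑ k ∈ range (L + 1), c k • g k).map (algebraMap ℤ_[p] ℚ_[p]) =
      ∑ k ∈ range (L + 1), ((c k : ℤ_[p]) : ℚ_[p]) • (g k).map (algebraMap ℤ_[p] ℚ_[p]) := by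
    ext n
    rw [coeff_map, map_sum, map_sum, map_sum]
    refine sum_congr rfl fun k _ => ?_
    have e1 : coeff n (c k • g k) = c k * coeff n (g k) := (coeff n).map_smul (c k) (g k)
    have e2 : coeff n (((c k : ℤ_[p]) : ℚ_[p]) • (g k).map (algebraMap ℤ_[p] ℚ_[p])) =
        ((c k : ℤ_[p]) : ℚ_[p]) * coeff n ((g k).map (algebraMap ℤ_[p] ℚ_[p])) :=
      (coeff n).map_smul _ _
    rw [e1, e2, map_mul, coeff_map]
    rfl
  have h0 : triLam p g l ((∑ k ∈ range (L + 1), c k • g k).map (algebraMap ℤ_[p] ℚ_[p])) = 0 := by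
    rw [hS, map_sum]
    refine sum_eq_zero fun k hk => ?_
    rw [mem_range] at hk
    rw [map_smul, triLam_g p g h1 h2 k l (by omega), smul_zero]
  have h3 := triLam_norm p g ((p : ℝ) ^ (-(a : ℤ))) (by positivity)
    (R - (∑ k ∈ range (L + 1), c k • g k).map (algebraMap ℤ_[p] ℚ_[p])) l (fun n hn => by
      rw [map_sub, coeff_map]
      exact h n hn)
  rw [map_sub, h0, sub_zero] at h3
  exact h3

end Pool.Agent.Work.MP_b73316_nt
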