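import Pool.Agent.Work.MP_0f16e1_nt.Ramanujan

/-!
Module Ram2 (size M): Ramanujan's identity for `E₂`: `12 θ E₂ = E₂² - E₄`.

PROOF.  Let `D = (2πi)⁻¹ d/dτ` (`Derivative.normalizedDerivOfComplex`), `G = D E₂ - E₂²/12` on `ℍ`.
Mathlib: `E2_slash_action (γ) : E2 ∣[2] γ = E2 - (1/(2 ζ(2))) • D2 γ` with
`D2 γ (z) = 2πi c/(c z + d)` (`EisensteinSeries.D2`), `ζ(2) = π²/6`; i.e.
`(c z + d)^(-2) E₂(γ z) = E₂(z) - 6 i c /(π (c z + d))... = E₂(z) + (12/(2πi)) c/(c z + d)`, and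
`normalizedDerivOfComplex_slash` / `_SL_slash : D (F ∣[k] γ) = (D F) ∣[k+2] γ - (k/(2πi)) (c/(cz+d)) ·
(F ∣[k] γ)` (see the exact form in `Mathlib/NumberTheory/ModularForms/Derivative.lean`).
It is enough to treat the generators `S` and `T` (`slash_action_generators_SL2Z`) or a general `γ`:
put `φ(z) = c/(c z + d)`, `α = 12/(2πi)`; `D φ = -(2πi)⁻¹ φ²`.  From `E₂ ∣[2] γ = E₂ + α φ`:
`D (E₂ ∣[2] γ) = D E₂ - α (2πi)⁻¹ φ²`, and it equals `(D E₂)∣[4] γ - (2/(2πi)) φ (E₂ + α φ)`, so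
`(D E₂)∣[4] γ = D E₂ + (2/(2πi)) φ E₂ + (α/(2πi)) φ²`; and
`(E₂²)∣[4] γ = (E₂ + α φ)² = E₂² + 2 α φ E₂ + α² φ²`.  Since `α/12 = 1/(2πi)`,
`(D E₂ - E₂²/12)∣[4] γ = D E₂ - E₂²/12`.  So `G` is slash invariant of weight `4`, holomorphic
(`E2_mdifferentiable`, `normalizedDerivOfComplex_mdifferentiable`), and has a convergent `q`-expansion
(so it is bounded at `i∞`, exactly as in the proof of `ram4` in
`Pool/Agent/Work/MP_0f16e1_nt/Ramanujan.lean`: copy the private lemmas used there).  Hence it is a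
modular form of weight `4`, in `MF ℂ 4 = ℂ e4` (`form_mem`), and the constant term is `-1/12`:
`θ e2 - e2²/12 = -e4/12` in `ℂ⟦q⟧`; go down to `ℤ⟦q⟧` as there.
-/

set_option autoImplicit false

open PowerSeries MP0f16e1
open UpperHalfPlane ModularForm ModularFormClass EisensteinSeries
open scoped MatrixGroups Manifold

namespace Pool.Agent.Work.MP_b73316_nt

/-- `f` has the convergent `q`-expansion `p`. -/
private def ram2Q (f : ℍ → ℂ) (p : PowerSeries ℂ) : Prop :=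
  ∀ τ : ℍ, HasSum (fun m : ℕ => p.coeff m • Function.Periodic.qParam 1 τ ^ m) (f τ)

private lemma ram2Q_smul {f : ℍ → ℂ} {p : PowerSeries ℂ} (c : ℂ) (hf : ram2Q f p) :
    ram2Q (c • f) (c • p) := by
  intro τ
  have h := (hf τ).mul_left c
  convert! h using 1
  funext m
  rw [PowerSeries.coeff_smul]
  simp only [smul_eq_mul]
  ring

private lemma ram2Q_sub {f g : ℍ → ℂ} {p r : PowerSeries ℂ} (hf : ram2Q f p)
    (hg : ram2Q g r) : ram2Q (f - g) (p - r) := by
  intro τ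
  have h := (hf τ).sub (hg τ)
  convert! h using 1
  funext m
  rw [map_sub, sub_smul]

private lemma ram2Q_mul {f g : ℍ → ℂ} {p r : PowerSeries ℂ} (hf : ram2Q f p)
    (hg : ram2Q g r) : ram2Q (f * g) (p * r) := by
  intro τ
  have h1 := hf τ
  have h2 := hg τ
  have h3 := summable_norm_sum_mul_antidiagonal_of_summable_norm h1.summable.norm h2.summable.norm
  have h4 := tsum_mul_tsum_eq_tsum_sum_antidiagonal_of_summable_norm h1.summable.norm
    h2.summable.norm
  rw [h1.tsum_eq, h2.tsum_eq] at h4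
  have h5 := h3.of_norm.hasSum
  rw [← h4] at h5
  convert! h5 using 1
  funext m
  rw [PowerSeries.coeff_mul, Finset.sum_smul]
  refine Finset.sum_congr rfl fun x hx => ?_
  rw [Finset.HasAntidiagonal.mem_antidiagonal] at hx
  rw [← hx, pow_add]
  simp only [smul_eq_mul]
  ring

private lemma ram2_hasSum_deriv {c : ℂ → ℂ} (hd : DifferentiableOn ℂ c (Metric.ball 0 1))
    {q : ℂ} (hq : ‖q‖ < 1) :
    HasSum (fun m : ℕ => ((m : ℂ) * ((m.factorial : ℂ)⁻¹ * iteratedDeriv m c 0)) * q ^ m)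
      (q * deriv c q) := by
  have h1 := Complex.hasSum_taylorSeries_on_ball (hd.deriv Metric.isOpen_ball)
    (mem_ball_zero_iff.mpr hq)
  have h2 := h1.mul_left q
  rw [← hasSum_nat_add_iff' 1]
  convert! h2 using 1
  · funext m
    rw [iteratedDeriv_succ', Nat.factorial_succ]
    have hm : ((m : ℂ) + 1) ≠ 0 := Nat.cast_add_one_ne_zero m
    have hf : ((m.factorial : ℕ) : ℂ) ≠ 0 := Nat.cast_ne_zero.mpr m.factorial_ne_zero
    simp only [smul_eq_mul, sub_zero]
    push_cast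
    field_simp
    ring
  · simp

private lemma ram2Q_E2 : ram2Q E2 (toR ℂ e2) := by
  intro τ
  have h := hasSum_qExpansion_E2 (z := τ)
  convert! h using 1
  funext m
  rw [Basis_coeff_toR, e2, PowerSeries.coeff_mk]
  simp [Function.Periodic.qParam]

private lemma ram2_per : Function.Periodic (E2 ∘ ofComplex) ((1 : ℝ) : ℂ) := by
  intro z
  by_cases hz : 0 < z.im
  · have hz' : 0 < (z + ((1 : ℝ) : ℂ)).im := by simpa using hz
    simp only [Function.comp_apply]
    rw [ofComplex_apply_of_im_pos hz', ofComplex_apply_of_im_pos hz]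
    have h1 := ram2Q_E2 ⟨z + ((1 : ℝ) : ℂ), hz'⟩
    have h2 := ram2Q_E2 ⟨z, hz⟩
    have hq : Function.Periodic.qParam 1 ((⟨z + ((1 : ℝ) : ℂ), hz'⟩ : ℍ) : ℂ) =
        Function.Periodic.qParam 1 ((⟨z, hz⟩ : ℍ) : ℂ) := by
      have hex := Complex.exp_periodic (2 * Real.pi * Complex.I * z)
      have e1 : 2 * (Real.pi : ℂ) * Complex.I * (z + ((1 : ℝ) : ℂ)) / ((1 : ℝ) : ℂ) =
          2 * Real.pi * Complex.I * z + 2 * Real.pi * Complex.I := by
        push_cast
        ring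
      have e2 : 2 * (Real.pi : ℂ) * Complex.I * z / ((1 : ℝ) : ℂ) =
          2 * Real.pi * Complex.I * z := by
        push_cast
        ring
      simp only [Function.Periodic.qParam]
      rw [e1, e2]
      exact hex
    rw [hq] at h1
    exact h1.unique h2
  · have hz' : ¬ 0 < (z + ((1 : ℝ) : ℂ)).im := by simpa using hz
    simp only [Function.comp_apply]
    rw [ofComplex_apply_of_im_nonpos (not_lt.1 hz'), ofComplex_apply_of_im_nonpos (not_lt.1 hz)]

private lemma ram2_qE2 : qExpansion 1 E2 = toR ℂ e2 := by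
  ext m
  have h := UpperHalfPlane.analyticAt_cuspFunction_zero (h := 1) one_pos ram2_per
    E2_mdifferentiable isBoundedAtImInfty_E2
  let _ : FunLike (ℍ → ℂ) ℍ ℂ := ⟨fun f => f, fun _ _ h => h⟩
  have h2 := UpperHalfPlane.qExpansion_coeff_unique (c := fun m => (toR ℂ e2).coeff m) E2
    one_pos h ram2Q_E2 m
  exact h2.symm

private lemma ram2Q_D : ram2Q (Derivative.normalizedDerivOfComplex E2) (theta ℂ (toR ℂ e2)) := by
  rw [← ram2_qE2]
  intro τ
  have hper := ram2_per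
  have hd := UpperHalfPlane.differentiableOn_cuspFunction_ball (h := 1) one_pos
    hper E2_mdifferentiable isBoundedAtImInfty_E2
  have hq : ‖Function.Periodic.qParam 1 (τ : ℂ)‖ < 1 :=
    Function.Periodic.norm_qParam_lt_one one_pos τ.im_pos
  have h1 := ram2_hasSum_deriv hd hq
  have hq' : HasDerivAt (fun z : ℂ => Function.Periodic.qParam 1 z)
      (2 * Real.pi * Complex.I * Function.Periodic.qParam 1 (τ : ℂ)) (τ : ℂ) := by
    unfold Function.Periodic.qParam
    have h := ((hasDerivAt_id (τ : ℂ)).const_mul (2 * Real.pi * Complex.I)).cexp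
    convert! h using 1
    · funext z
      simp
    · simp
      ring
  have hcd : HasDerivAt (cuspFunction 1 E2)
      (deriv (cuspFunction 1 E2) (Function.Periodic.qParam 1 (τ : ℂ)))
      (Function.Periodic.qParam 1 (τ : ℂ)) :=
    ((hd _ (mem_ball_zero_iff.mpr hq)).differentiableAt
      (Metric.isOpen_ball.mem_nhds (mem_ball_zero_iff.mpr hq))).hasDerivAt
  have hcomp := hcd.comp (τ : ℂ) hq'
  have hev : ((E2 : ℍ → ℂ) ∘ ofComplex) =ᶠ[nhds (τ : ℂ)]
      (cuspFunction 1 E2 ∘ fun z : ℂ => Function.Periodic.qParam 1 z) := by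
    filter_upwards [isOpen_upperHalfPlaneSet.mem_nhds τ.im_pos] with z hz
    have h := UpperHalfPlane.eq_cuspFunction (h := 1) (f := E2) ⟨z, hz⟩ one_ne_zero hper
    simp only [Function.comp_apply, ofComplex_apply_of_im_pos hz]
    exact h.symm
  have hD : Derivative.normalizedDerivOfComplex E2 τ = Function.Periodic.qParam 1 (τ : ℂ) *
      deriv (cuspFunction 1 E2) (Function.Periodic.qParam 1 (τ : ℂ)) := by
    unfold Derivative.normalizedDerivOfComplex
    rw [hev.deriv_eq, hcomp.deriv]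
    have := Complex.two_pi_I_ne_zero
    field_simp
  rw [hD]
  convert! h1 using 1
  funext m
  simp only [theta, LinearMap.coe_mk, AddHom.coe_mk, PowerSeries.coeff_mk, qExpansion_coeff,
    smul_eq_mul]

/-- `D E₂ - E₂²/12` -/
private noncomputable def ram2f : ℍ → ℂ :=
  Derivative.normalizedDerivOfComplex E2 - (12 : ℂ)⁻¹ • (E2 * E2)

private lemma ram2f_inv (γ : SL(2, ℤ)) : ram2f ∣[(4 : ℤ)] γ = ram2f := by
  funext z
  have hd : denom (γ : GL (Fin 2) ℝ) (z : ℂ) ≠ 0 := denom_ne_zero _ z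
  have hE : HasDerivAt (E2 ∘ ofComplex) (deriv (E2 ∘ ofComplex) z) z :=
    (UpperHalfPlane.mdifferentiableAt_iff.mp (E2_mdifferentiable z)).hasDerivAt
  have hD : HasDerivAt (D2 γ ∘ ofComplex)
      ((2 * Real.pi * Complex.I * (γ 1 0 : ℂ)) * (-(γ 1 0 : ℂ) *
        (denom (γ : GL (Fin 2) ℝ) (z : ℂ)) ^ (-2 : ℤ))) z := by
    have h0 := (hasDerivAt_denom_zpow (γ : GL (Fin 2) ℝ) (-1) z).const_mul
      (2 * Real.pi * Complex.I * (γ 1 0 : ℂ))
    have h1 : HasDerivAt (D2 γ ∘ ofComplex) _ (z : ℂ) := h0.congr_of_eventuallyEq (by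
      filter_upwards [isOpen_upperHalfPlaneSet.mem_nhds z.im_pos] with w hw
      simp only [Function.comp_apply, ofComplex_apply_of_im_pos hw, D2]
      rw [zpow_neg_one, div_eq_mul_inv])
    convert! h1 using 1
    simp
  have hs := E2_slash_action γ
  have h1 : (Derivative.normalizedDerivOfComplex (E2 ∣[(2 : ℤ)] γ)) z =
      Derivative.normalizedDerivOfComplex E2 z - (2 * Real.pi * Complex.I)⁻¹ *
        ((1 / (2 * riemannZeta 2)) * ((2 * Real.pi * Complex.I * (γ 1 0 : ℂ)) * (-(γ 1 0 : ℂ) *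
        (denom (γ : GL (Fin 2) ℝ) (z : ℂ)) ^ (-2 : ℤ)))) := by
    rw [hs]
    unfold Derivative.normalizedDerivOfComplex
    have h2 : ((E2 - (1 / (2 * riemannZeta 2)) • D2 γ) ∘ ofComplex) =
        (fun w => (E2 ∘ ofComplex) w - (1 / (2 * riemannZeta 2)) * (D2 γ ∘ ofComplex) w) := by
      funext w
      simp
    rw [h2, (hE.fun_sub (hD.const_mul _)).deriv]
    ring
  have h3 := congrFun (Derivative.normalizedDerivOfComplex_SL_slash (k := 2)
    E2_mdifferentiable (γ := γ)) z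
  have h4 := congrFun (ModularForm.mul_slash_SL2 2 2 γ E2 E2) z
  have h5 : (E2 ∣[(2 : ℤ)] γ) z = E2 z - 1 / (2 * riemannZeta 2) * D2 γ z := by
    simp [hs]
  have h6 : (ram2f ∣[(4 : ℤ)] γ) z =
      (Derivative.normalizedDerivOfComplex E2 ∣[(4 : ℤ)] γ) z -
        (12 : ℂ)⁻¹ * ((E2 * E2) ∣[(4 : ℤ)] γ) z := by
    rw [ModularForm.SL_slash_apply, ModularForm.SL_slash_apply, ModularForm.SL_slash_apply]
    simp only [ram2f, Pi.sub_apply, Pi.smul_apply, Pi.mul_apply, smul_eq_mul]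
    ring
  rw [h6]
  have h7 : ((E2 * E2) ∣[(4 : ℤ)] γ) z = (E2 ∣[(2 : ℤ)] γ) z * (E2 ∣[(2 : ℤ)] γ) z := h4
  have h8 : (Derivative.normalizedDerivOfComplex E2 ∣[(4 : ℤ)] γ) z =
      Derivative.normalizedDerivOfComplex (E2 ∣[(2 : ℤ)] γ) z +
        ((2 : ℤ) : ℂ) * (2 * Real.pi * Complex.I)⁻¹ *
          ((γ 1 0 : ℂ) / denom (γ : GL (Fin 2) ℝ) (z : ℂ)) * (E2 ∣[(2 : ℤ)] γ) z := by
    rw [h3]
    simp
  rw [h7, h8, h1, h5]
  simp only [D2, riemannZeta_two, ram2f, Pi.sub_apply, Pi.smul_apply, Pi.mul_apply, smul_eq_mul]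
  have hpi : (Real.pi : ℂ) ≠ 0 := by exact_mod_cast Real.pi_ne_zero
  have hI := Complex.I_ne_zero
  have hI2 := Complex.I_sq
  rw [show (-2 : ℤ) = -((2 : ℕ) : ℤ) from rfl, zpow_neg, zpow_natCast]
  have hd' : denom (γ : GL (Fin 2) ℝ) (z : ℂ) ≠ 0 := hd
  have hI3 : Complex.I ^ 3 = -Complex.I := by
    rw [pow_succ, hI2]
    ring
  field_simp
  ring_nf
  simp only [hI3, hI2]
  ring

private lemma ram2_form : theta ℂ (toR ℂ e2) - (12 : ℂ)⁻¹ • (toR ℂ e2 * toR ℂ e2) ∈ MF ℂ 4 := by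
  have hQ : ram2Q ram2f (theta ℂ (toR ℂ e2) - (12 : ℂ)⁻¹ • (toR ℂ e2 * toR ℂ e2)) :=
    ram2Q_sub ram2Q_D (ram2Q_smul _ (ram2Q_mul ram2Q_E2 ram2Q_E2))
  have hbd : IsBoundedAtImInfty ram2f := isBoundedAtImInfty_of_hasSum_qExpansion one_pos hQ
  have hdiff : MDiff ram2f := by
    refine (Derivative.normalizedDerivOfComplex_mdifferentiable E2_mdifferentiable).sub ?_
    exact (E2_mdifferentiable.mul E2_mdifferentiable).const_smul _
  let G : ModularForm 𝒮ℒ (4 : ℤ) :=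
    { toFun := ram2f
      slash_action_eq' := fun _ ⟨γ, hγ⟩ ↦ hγ ▸ ram2f_inv γ
      holo' := hdiff
      bdd_at_cusps' {c} hc := by
        rw [Subgroup.IsArithmetic.isCusp_iff_isCusp_SL2Z] at hc
        rw [OnePoint.isBoundedAt_iff_forall_SL2Z hc]
        intro γ _
        rw [ram2f_inv γ]
        exact hbd }
  have he : (4 : ℤ) = ((4 : ℕ) : ℤ) := by norm_num
  let G' : ModularForm 𝒮ℒ ((4 : ℕ) : ℤ) := ModularForm.mcast he G rfl
  have hG : qExpansion 1 G' = theta ℂ (toR ℂ e2) - (12 : ℂ)⁻¹ • (toR ℂ e2 * toR ℂ e2) := by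
    ext m
    exact (ModularFormClass.qExpansion_coeff_unique (f := G') one_pos one_mem_strictPeriods_SL
      hQ m).symm
  rw [← hG]
  exact form_mem 4 (by decide) G'

private lemma ram2_theta_toR (f : PowerSeries ℤ) : theta ℂ (toR ℂ f) = toR ℂ (theta ℤ f) := by
  ext n
  simp only [theta, LinearMap.coe_mk, AddHom.coe_mk, PowerSeries.coeff_mk, Basis_coeff_toR]
  push_cast
  rfl

private lemma ram2_theta_zero (f : PowerSeries ℤ) : coeff 0 (theta ℤ f) = 0 := by
  simp only [theta, LinearMap.coe_mk, AddHom.coe_mk, PowerSeries.coeff_mk]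
  simp

theorem ram2 : 12 * theta ℤ e2 = e2 ^ 2 - e4 := by
  have h1 := ram2_form
  rw [ram2_theta_toR, ← Basis_toR_mul] at h1
  have h3 : toR ℂ e4 ∈ MF ℂ 4 := by
    apply Submodule.subset_span
    refine ⟨0, 1, 0, rfl, ?_⟩
    simp [mono]
  have h4 := (MF ℂ 4).add_mem h1 ((MF ℂ 4).smul_mem (12 : ℂ)⁻¹ h3)
  have h5 := MF_ext ℂ h4 (by
    intro i hi
    have : i = 0 := by
      simpa [nS] using hi
    subst this
    rw [map_add, map_sub, coeff_smul, coeff_smul, Basis_coeff_toR, Basis_coeff_toR,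
      Basis_coeff_toR, ram2_theta_zero, coeff_mul]
    simp [e2_coeff_zero, e4_coeff_zero])
  ext n
  have h6 := congrArg (coeff n) h5
  rw [map_add, map_sub, coeff_smul, coeff_smul, Basis_coeff_toR, Basis_coeff_toR,
    Basis_coeff_toR, map_zero, smul_eq_mul, smul_eq_mul] at h6
  rw [map_sub, pow_two, show (12 : PowerSeries ℤ) = C (12 : ℤ) from rfl, coeff_C_mul]
  have h7 : ((12 * coeff n (theta ℤ e2) : ℤ) : ℂ) = ((coeff n (e2 * e2) - coeff n e4 : ℤ) : ℂ) := by
    push_cast at h6 ⊢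
    linear_combination 12 * h6
  exact_mod_cast h7

end Pool.Agent.Work.MP_b73316_nt
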