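import Pool.Agent.Work.MP_b73316_nt.Ser

/-!
Module Zr1 (size M): reduction modulo `p` of a combination with a high order of vanishing.

Here `kap = id`, `K = 2`: the rows are `t^e`, `t^e x F_1`, `t^e x² F_2` (`b = 0, 3, 5`).

PROOF.  Work in `ℚ_[p]`.  Let `b_i = bb (i/(D+1)) ∈ {0, 3, 5}` and choose the integer `s` such that
`max_i ‖p^(s - b_i) c_i‖ = 1` (possible: some `c_i ≠ 0`; the norms are integral powers of `p`).  Put
`C_i = p^(s-b_i) c_i ∈ ℤ_p`, some `C_i` is a unit.  `p^s ∑ c_i row_i = ∑ C_i (p^(b_i) row_i)`.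
For `n < 2p` the coefficient of `q^n` in `p^b Fs b` (`b = 3, 5`) is in `ℤ_p`, and it is `≡ 1` mod `p`
for `n = p` (`1 + p^b`) and `≡ 0` for `n ≠ p` (all divisors of `n` are prime to `p`, for `1 ≤ n < 2p`).
So modulo `p`, in degrees `< 2p`: `p^(b_i) row_i ≡ t^e` (`i` of type `0`), `t^e x q^p` (type `1`),
`t^e x² q^p` (type `2`).  Hence with the reductions `c₀, a, b ∈ F_p[X]` (degree `≤ D`) of
`∑_e C_e X^e`, `∑_e C_{(D+1)+e} X^e`, `∑_e C_{2(D+1)+e} X^e`, not all zero:
`c₀(t) + q^p x (a(t) + x b(t)) = 0` in degrees `< min(L, 2p)`.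
Degrees `< p` (`p < L`): `c₀(t) = 0` in degrees `< p`, so `c₀ = 0` by `poly_eq_zero` (`D < p`).  So
`(a, b) ≠ 0` and `x (a(t) + x b(t))` vanishes in degrees `< min(L,2p) - p = min (L - p) p`; `x` is
invertible (`xx_coeff_zero`), so `a(t) + x b(t)` also does.
-/

set_option autoImplicit false

open PowerSeries Finset MP0f16e1

namespace Pool.Agent.Work.MP_b73316_nt

/-- `n`-th coefficient of `p^b Fs b`, in `ℚ_p` -/
private noncomputable def zr1y (p : ℕ) [Fact p.Prime] (b n : ℕ) : ℚ_[p] :=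
  (p : ℚ_[p]) ^ b * ((coeff n (Fs b) : ℚ) : ℚ_[p])

private theorem zr1y_eq (p : ℕ) [Fact p.Prime] (b n : ℕ) :
    zr1y p b n = (p : ℚ_[p]) ^ b * ∑ d ∈ n.divisors, ((d : ℚ_[p]) ^ b)⁻¹ := by
  unfold zr1y Fs
  rw [coeff_mk]
  push_cast
  rfl

private theorem zr1_lt (p : ℕ) [hp : Fact p.Prime] (b n : ℕ) (hb : 1 ≤ b) (hn : n < 2 * p)
    (hnp : n ≠ p) : ‖zr1y p b n‖ < 1 := by
  have hp0 : (0 : ℝ) < p := by exact_mod_cast hp.out.pos
  have hp1 : (1 : ℝ) < p := by exact_mod_cast hp.out.one_lt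
  rw [zr1y_eq, norm_mul]
  have h1 : ‖(p : ℚ_[p]) ^ b‖ < 1 := by
    rw [norm_pow, Padic.norm_p]
    exact pow_lt_one₀ (by positivity) (inv_lt_one_of_one_lt₀ hp1) (by omega)
  have h2 : ‖∑ d ∈ n.divisors, ((d : ℚ_[p]) ^ b)⁻¹‖ ≤ 1 := by
    refine IsUltrametricDist.norm_sum_le_of_forall_le_of_nonneg zero_le_one fun d hd => ?_
    rw [Nat.mem_divisors] at hd
    have hpd : ¬ p ∣ d := by
      intro h
      obtain ⟨m, hm⟩ := h.trans hd.1
      have hm1 : m = 1 := by
        have hm0 : m ≠ 0 := by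
          rintro rfl
          exact hd.2 (by simpa using hm)
        have hm2 : m < 2 := by
          by_contra hcon
          have : 2 * p ≤ p * m := by nlinarith
          omega
        omega
      rw [hm1, mul_one] at hm
      exact hnp hm
    have hd1 : ‖(d : ℚ_[p])‖ = 1 := by
      rw [Padic.norm_natCast_eq_one_iff]
      exact (Nat.Prime.coprime_iff_not_dvd hp.out).2 hpd
    rw [norm_inv, norm_pow, hd1, one_pow, inv_one]
  calc ‖(p : ℚ_[p]) ^ b‖ * ‖∑ d ∈ n.divisors, ((d : ℚ_[p]) ^ b)⁻¹‖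
      ≤ ‖(p : ℚ_[p]) ^ b‖ * 1 := mul_le_mul_of_nonneg_left h2 (norm_nonneg _)
    _ < 1 := by rwa [mul_one]

private theorem zr1_p (p : ℕ) [hp : Fact p.Prime] (b : ℕ) :
    zr1y p b p = ((((p : ℤ_[p]) ^ b + 1 : ℤ_[p])) : ℚ_[p]) := by
  rw [zr1y_eq, Nat.Prime.sum_divisors hp.out]
  have hp0 : (p : ℚ_[p]) ≠ 0 := by exact_mod_cast hp.out.ne_zero
  push_cast
  rw [mul_add, mul_inv_cancel₀ (pow_ne_zero b hp0)]
  simp [add_comm]

open Classical in
/-- integral form of the coefficients -/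
private noncomputable def zr1P (p : ℕ) [Fact p.Prime] (b n : ℕ) : ℤ_[p] :=
  if h : ‖zr1y p b n‖ ≤ 1 then ⟨zr1y p b n, h⟩ else 0

private theorem zr1P_coe (p : ℕ) [hp : Fact p.Prime] (b n : ℕ) (hb : 1 ≤ b) (hn : n < 2 * p) :
    ((zr1P p b n : ℤ_[p]) : ℚ_[p]) = zr1y p b n := by
  have h : ‖zr1y p b n‖ ≤ 1 := by
    by_cases hnp : n = p
    · subst hnp
      rw [zr1_p]
      exact PadicInt.norm_le_one _
    · exact (zr1_lt p b n hb hn hnp).le
  unfold zr1P
  rw [dif_pos h]

private theorem zr1P_mod (p : ℕ) [hp : Fact p.Prime] (b n : ℕ) (hb : 1 ≤ b) (hn : n < 2 * p) :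
    PadicInt.toZMod (zr1P p b n) = coeff n ((X : PowerSeries (ZMod p)) ^ p) := by
  rw [coeff_X_pow]
  by_cases hnp : n = p
  · subst hnp
    rw [if_pos rfl]
    have h : zr1P n b n = (n : ℤ_[n]) ^ b + 1 := by
      apply PadicInt.ext
      rw [zr1P_coe n b n hb hn, zr1_p]
    rw [h, map_add, map_pow, map_natCast, map_one, ZMod.natCast_self, zero_pow (by omega), zero_add]
  · rw [if_neg hnp]
    have h1 : zr1P p b n ∈ RingHom.ker (PadicInt.toZMod : ℤ_[p] →+* ZMod p) := by
      rw [PadicInt.ker_toZMod, IsLocalRing.mem_maximalIdeal, PadicInt.mem_nonunits, PadicInt.norm_def,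
        zr1P_coe p b n hb hn]
      exact zr1_lt p b n hb hn hnp
    exact h1

private theorem zr1_coeff_toR {R : Type*} [CommRing R] (f : PowerSeries ℤ) (n : ℕ) :
    coeff n (toR R f) = ((coeff n f : ℤ) : R) := by
  unfold toR
  simp

private theorem zr1_cast (p : ℕ) [Fact p.Prime] (N : ℕ) (A : PowerSeries ℤ) (Fq : PowerSeries ℚ)
    (Fp : PowerSeries ℤ_[p]) (s : ℚ_[p])
    (h : ∀ n < N, ((coeff n Fp : ℤ_[p]) : ℚ_[p]) = s * ((coeff n Fq : ℚ) : ℚ_[p])) (k : ℕ)
    (hk : k < N) :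
    ((coeff k (toR ℤ_[p] A * Fp) : ℤ_[p]) : ℚ_[p]) =
      s * ((coeff k (toR ℚ A * Fq) : ℚ) : ℚ_[p]) := by
  rw [coeff_mul, coeff_mul]
  push_cast
  rw [mul_sum]
  have hs : ((∑ x ∈ antidiagonal k, coeff x.1 (toR ℤ_[p] A) * coeff x.2 Fp : ℤ_[p]) : ℚ_[p]) =
      ∑ x ∈ antidiagonal k, ((coeff x.1 (toR ℤ_[p] A) : ℤ_[p]) : ℚ_[p]) *
        ((coeff x.2 Fp : ℤ_[p]) : ℚ_[p]) := by
    have := map_sum (PadicInt.Coe.ringHom (p := p))
      (fun x : ℕ × ℕ => coeff x.1 (toR ℤ_[p] A) * coeff x.2 Fp) (antidiagonal k)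
    simpa using this
  first
    | rw [hs]
    | skip
  refine sum_congr rfl fun x hx => ?_
  have hx2 : x.2 < N := by
    have := mem_antidiagonal.1 hx
    omega
  rw [h x.2 hx2, zr1_coeff_toR, zr1_coeff_toR]
  push_cast
  ring

private theorem zr1_red (p : ℕ) [Fact p.Prime] (N : ℕ) (A : PowerSeries ℤ)
    (Fp : PowerSeries ℤ_[p]) (Fz : PowerSeries (ZMod p))
    (h : ∀ n < N, PadicInt.toZMod (coeff n Fp) = coeff n Fz) (k : ℕ) (hk : k < N) :
    PadicInt.toZMod (coeff k (toR ℤ_[p] A * Fp)) = coeff k (toR (ZMod p) A * Fz) := by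
  rw [coeff_mul, coeff_mul, map_sum]
  refine sum_congr rfl fun x hx => ?_
  have hx2 : x.2 < N := by
    have := mem_antidiagonal.1 hx
    omega
  rw [map_mul, h x.2 hx2, zr1_coeff_toR, zr1_coeff_toR, map_intCast]

theorem zr1 (D L p : ℕ) [Fact p.Prime] (hp5 : 5 ≤ p) (hD : D < p) (hL : p < L)
    (c : Fin ((2 + 1) * (D + 1)) → ℚ)
    (hne : ∑ i : Fin ((2 + 1) * (D + 1)), c i • row (fun j => j) D i ≠ 0)
    (hv : ∀ k < L, coeff k (∑ i : Fin ((2 + 1) * (D + 1)), c i • row (fun j => j) D i) = 0) :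
    ∃ a b : Polynomial (ZMod p), (a ≠ 0 ∨ b ≠ 0) ∧ a.natDegree ≤ D ∧ b.natDegree ≤ D ∧
      ∀ k < min (L - p) p, coeff k (Polynomial.aeval (toR (ZMod p) tt) a +
        toR (ZMod p) xx * Polynomial.aeval (toR (ZMod p) tt) b) = 0 := by
  have hp0 : (p : ℚ_[p]) ≠ 0 := by exact_mod_cast (Fact.out : p.Prime).ne_zero
  -- types
  let ty : Fin ((2 + 1) * (D + 1)) → ℕ := fun i => (i : ℕ) / (D + 1)
  let ex : Fin ((2 + 1) * (D + 1)) → ℕ := fun i => (i : ℕ) % (D + 1)
  have hty : ∀ i, ty i < 3 := fun i => by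
    have h := i.2
    exact Nat.div_lt_of_lt_mul (by linarith)
  -- scaled coefficients
  let v : Fin ((2 + 1) * (D + 1)) → ℚ_[p] := fun i =>
    ((p : ℚ_[p]) ^ (bb (fun j => j) (ty i)))⁻¹ * ((c i : ℚ) : ℚ_[p])
  have : Nonempty (Fin ((2 + 1) * (D + 1))) := ⟨⟨0, by positivity⟩⟩
  obtain ⟨i0, hi0⟩ := Finite.exists_max (fun i => ‖v i‖)
  have hu : v i0 ≠ 0 := by
    intro h0
    apply hne
    refine sum_eq_zero fun i _ => ?_
    have h1 : v i = 0 := by
      have := hi0 i
      rw [h0, norm_zero] at this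
      exact norm_le_zero_iff.1 this
    have h2 : ((c i : ℚ) : ℚ_[p]) = 0 := by
      rcases mul_eq_zero.1 h1 with h | h
      · exact absurd h (inv_ne_zero (pow_ne_zero _ hp0))
      · exact h
    have h3 : c i = 0 := by exact_mod_cast h2
    rw [h3, zero_smul]
  have hC1 : ∀ i, ‖v i / v i0‖ ≤ 1 := fun i => by
    rw [norm_div]
    exact div_le_one_of_le₀ (hi0 i) (norm_nonneg _)
  let C : Fin ((2 + 1) * (D + 1)) → ℤ_[p] := fun i => ⟨v i / v i0, hC1 i⟩
  have hCcoe : ∀ i, ((C i : ℤ_[p]) : ℚ_[p]) = v i / v i0 := fun i => rfl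
  have hC0 : C i0 = 1 := by
    apply PadicInt.ext
    rw [hCcoe, div_self hu]
    simp
  let cz : Fin ((2 + 1) * (D + 1)) → ZMod p := fun i => PadicInt.toZMod (C i)
  have hcz0 : cz i0 = 1 := by
    simp only [cz, hC0, map_one]
  -- the three kinds of series
  let A : Fin ((2 + 1) * (D + 1)) → PowerSeries ℤ := fun i => tt ^ (ex i) * xx ^ (ty i)
  let Fp : Fin ((2 + 1) * (D + 1)) → PowerSeries ℤ_[p] := fun i =>
    if ty i = 0 then 1 else PowerSeries.mk fun n => zr1P p (bb (fun j => j) (ty i)) n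
  let Fz : Fin ((2 + 1) * (D + 1)) → PowerSeries (ZMod p) := fun i =>
    if ty i = 0 then 1 else X ^ p
  have hb1 : ∀ i, ty i ≠ 0 → 1 ≤ bb (fun j => j) (ty i) := fun i hi => by
    unfold bb
    rw [if_neg hi]
    omega
  have hFp : ∀ i, ∀ n < 2 * p, ((coeff n (Fp i) : ℤ_[p]) : ℚ_[p]) =
      (p : ℚ_[p]) ^ (bb (fun j => j) (ty i)) *
        ((coeff n (FF (fun j => j) (ty i)) : ℚ) : ℚ_[p]) := by
    intro i n hn
    by_cases hi : ty i = 0
    · simp only [Fp, hi, if_true, FF, bb, pow_zero, one_mul, coeff_one]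
      split_ifs <;> simp
    · have h1 : FF (fun j => j) (ty i) = Fs (bb (fun j => j) (ty i)) := by
        unfold FF bb
        rw [if_neg hi, if_neg hi]
      simp only [Fp]
      rw [if_neg hi, coeff_mk, zr1P_coe p _ n (hb1 i hi) hn, h1]
      rfl
  have hFz : ∀ i, ∀ n < 2 * p, PadicInt.toZMod (coeff n (Fp i)) = coeff n (Fz i) := by
    intro i n hn
    by_cases hi : ty i = 0
    · simp only [Fp, Fz, hi, if_true, coeff_one]
      split_ifs <;> simp
    · simp only [Fp, Fz]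
      rw [if_neg hi, if_neg hi, coeff_mk, zr1P_mod p _ n (hb1 i hi) hn]
  have hrow : ∀ i : Fin ((2 + 1) * (D + 1)),
      row (fun j => j) D i = toR ℚ (A i) * FF (fun j => j) (ty i) := fun i => rfl
  -- the relation modulo p
  have hrel : ∀ k < min L (2 * p), coeff k (∑ i, cz i • (toR (ZMod p) (A i) * Fz i)) = 0 := by
    intro k hk
    have hkL : k < L := lt_of_lt_of_le hk (min_le_left _ _)
    have hk2 : k < 2 * p := lt_of_lt_of_le hk (min_le_right _ _)
    have h1 : ∑ i, ((C i : ℤ_[p]) : ℚ_[p]) *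
        ((coeff k (toR ℤ_[p] (A i) * Fp i) : ℤ_[p]) : ℚ_[p]) = 0 := by
      have h2 : ((coeff k (∑ i : Fin ((2 + 1) * (D + 1)), c i • row (fun j => j) D i) : ℚ) :
          ℚ_[p]) = 0 := by
        rw [hv k hkL]
        simp
      rw [map_sum] at h2
      push_cast at h2
      have h3 : ∀ i, ((C i : ℤ_[p]) : ℚ_[p]) *
          ((coeff k (toR ℤ_[p] (A i) * Fp i) : ℤ_[p]) : ℚ_[p]) =
          (v i0)⁻¹ * ((coeff k (c i • row (fun j => j) D i) : ℚ) : ℚ_[p]) := by
        intro i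
        rw [zr1_cast p (2 * p) (A i) (FF (fun j => j) (ty i)) (Fp i) _ (hFp i) k hk2, hCcoe,
          coeff_smul, hrow]
        simp only [v, smul_eq_mul]
        push_cast
        have hpb := pow_ne_zero (bb (fun j => j) (ty i)) hp0
        field_simp
      rw [sum_congr rfl fun i _ => h3 i, ← mul_sum, h2, mul_zero]
    have h4 : ∑ i, C i * coeff k (toR ℤ_[p] (A i) * Fp i) = 0 := by
      apply PadicInt.ext
      have := map_sum (PadicInt.Coe.ringHom (p := p))
        (fun i => C i * coeff k (toR ℤ_[p] (A i) * Fp i)) univ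
      simp only [map_mul] at this
      refine (this.trans h1).trans ?_
      simp
    have h5 := congrArg PadicInt.toZMod h4
    rw [map_sum, map_zero] at h5
    rw [map_sum, ← h5]
    refine sum_congr rfl fun i _ => ?_
    rw [coeff_smul, map_mul PadicInt.toZMod,
      zr1_red p (2 * p) (A i) (Fp i) (Fz i) (hFz i) k hk2, smul_eq_mul]
  -- polynomials
  let P : ℕ → Polynomial (ZMod p) := fun τ =>
    ∑ i, if ty i = τ then Polynomial.monomial (ex i) (cz i) else 0
  have hPdeg : ∀ τ, (P τ).natDegree ≤ D := fun τ => by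
    refine Polynomial.natDegree_sum_le_of_forall_le _ _ fun i _ => ?_
    split_ifs
    · refine (Polynomial.natDegree_monomial_le _).trans ?_
      exact Nat.lt_succ_iff.1 (Nat.mod_lt _ (Nat.succ_pos D))
    · simp
  have hPaev : ∀ τ, Polynomial.aeval (toR (ZMod p) tt) (P τ) =
      ∑ i, if ty i = τ then cz i • (toR (ZMod p) tt) ^ (ex i) else 0 := fun τ => by
    simp only [P]
    rw [map_sum]
    refine sum_congr rfl fun i _ => ?_
    split_ifs
    · rw [Polynomial.aeval_monomial, ← Algebra.smul_def]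
    · exact map_zero _
  have hPne : P (ty i0) ≠ 0 := by
    intro h
    have h1 : (P (ty i0)).coeff (ex i0) = 1 := by
      simp only [P]
      rw [Polynomial.finsetSum_coeff, Finset.sum_eq_single i0]
      · rw [if_pos rfl, Polynomial.coeff_monomial_same, hcz0]
      · intro j _ hj
        split_ifs with hjt
        · rw [Polynomial.coeff_monomial, if_neg]
          intro hje
          apply hj
          apply Fin.ext
          have e1 := Nat.div_add_mod (j : ℕ) (D + 1)
          have e2 := Nat.div_add_mod (i0 : ℕ) (D + 1)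
          simp only [ty] at hjt
          simp only [ex] at hje
          rw [hjt, hje] at e1
          omega
        · exact Polynomial.coeff_zero _
      · intro h
        exact absurd (mem_univ _) h
    rw [h] at h1
    simp at h1
  have hsum : ∑ i, cz i • (toR (ZMod p) (A i) * Fz i) =
      Polynomial.aeval (toR (ZMod p) tt) (P 0) +
        X ^ p * (toR (ZMod p) xx * (Polynomial.aeval (toR (ZMod p) tt) (P 1) +
          toR (ZMod p) xx * Polynomial.aeval (toR (ZMod p) tt) (P 2))) := by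
    rw [hPaev, hPaev, hPaev]
    simp only [mul_add, mul_sum, ← sum_add_distrib]
    refine sum_congr rfl fun i _ => ?_
    have hA : toR (ZMod p) (A i) = toR (ZMod p) tt ^ ex i * toR (ZMod p) xx ^ ty i := by
      simp only [A, toR, map_mul, map_pow]
    have h3 := hty i
    rw [hA]
    have hc : ty i = 0 ∨ ty i = 1 ∨ ty i = 2 := by omega
    rcases hc with h | h | h
    · simp only [Fz, h]
      simp
    · simp only [Fz, h]
      simp [Algebra.smul_def]
      ring
    · simp only [Fz, h]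
      simp [Algebra.smul_def]
      ring
  rw [hsum] at hrel
  have hdeg : D < p := hD
  have hP0 : P 0 = 0 := by
    refine poly_eq_zero (P 0) p (lt_of_le_of_lt (hPdeg 0) hD) fun k hk => ?_
    have h := hrel k (lt_min (hk.trans hL) (by omega))
    rw [map_add, coeff_X_pow_mul', if_neg (by omega), add_zero] at h
    exact h
  refine ⟨P 1, P 2, ?_, hPdeg 1, hPdeg 2, ?_⟩
  · have h3 := hty i0
    have hc : ty i0 = 0 ∨ ty i0 = 1 ∨ ty i0 = 2 := by omega
    rcases hc with h | h | h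
    · rw [h] at hPne
      exact absurd hP0 hPne
    · left
      rwa [h] at hPne
    · right
      rwa [h] at hPne
  · have hx : IsUnit (toR (ZMod p) xx) := by
      rw [PowerSeries.isUnit_iff_constantCoeff, ← coeff_zero_eq_constantCoeff_apply, zr1_coeff_toR,
        xx_coeff_zero]
      simp
    have h1 : (X : PowerSeries (ZMod p)) ^ (min (L - p) p) ∣
        toR (ZMod p) xx * (Polynomial.aeval (toR (ZMod p) tt) (P 1) +
          toR (ZMod p) xx * Polynomial.aeval (toR (ZMod p) tt) (P 2)) := by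
      rw [PowerSeries.X_pow_dvd_iff]
      intro k hk
      have h := hrel (k + p) (by omega)
      rw [hP0, map_zero, zero_add, coeff_X_pow_mul] at h
      exact h
    rw [hx.dvd_mul_left, PowerSeries.X_pow_dvd_iff] at h1
    exact h1

end Pool.Agent.Work.MP_b73316_nt
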