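import Pool.Agent.Work.MP_b73316_nt.ZrA

/-!
Module ZrB (size M): the Riccati equation for an approximate relation `a(t) + x b(t) = O(q^n)`.

PROOF.  Work in `R⟦q⟧` modulo the ideal `I` of the series whose coefficients below `n` vanish; `θ`
maps `I` to `I`.  `x = toR R xx` is invertible (constant coefficient `1`), `t = toR R tt`,
`e₂, e₄` the images, `v = 1 - 1728 t`.  `θ` commutes with `toR` (`theta_map`).  For a polynomial
`c`: `θ(c(t)) = c'(t) θ t = c'(t) t x` (linear; monomials by induction with `theta_mul`).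
Write `A = a(t)`, `B = b(t)`, `A' = a'(t)`, `B' = b'(t)`, `U = U(t)`, `Z = Z(t) = v A B`.
`A ≡ -x B`.  Apply `θ`: `A' t x ≡ -θx B - x B' t x`, so `x t (A' + x B') ≡ -θx B` and
`x t (A' B - A B') ≡ x t (A' B + x B B') ≡ -θx B²`.  Multiply by `6 v` and use `theta_xx`:
`6 v x t (A'B - AB') ≡ -B² x (v e₂ - (3-2v) x)`; cancel `x`:
`6 v t (A'B - AB') ≡ -B² (v e₂ - (3 - 2v) x)`.  Since `(3-2v) A B ≡ -(3-2v) x B²`,
`U = 6 v t (A'B - AB') + (3-2v) AB ≡ -v e₂ B²`, and `Z ≡ -v x B²`; so `x U ≡ e₂ Z`.       (1)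
Apply `θ` to (1): `θx U + x θU ≡ θe₂ Z + e₂ θZ`.  Let `Π = Ppol(t)`; as `θ(U) = U'(t) t x` etc.,
`x Π = 12 v (θU Z - U θZ) + x (v U² + Z² - (6-4v) U Z)`.  Multiply by `x²`:
`x²(θU Z - U θZ) = x (x θU) Z - x (xU) θZ ≡ x (θe₂ Z + e₂ θZ - θx U) Z - x e₂ Z θZ =
x θe₂ Z² - θx (xU) Z ≡ (x θe₂ - e₂ θx) Z²`.
`x² (v U² + Z² - (6-4v) U Z) ≡ v e₂² Z² + x² Z² - (6-4v) x e₂ Z²`.
Hence `x³ Π ≡ Z² [12 v (x θe₂ - e₂ θx) + x (v e₂² + x² - (6-4v) x e₂)]`.  By `ram2`
(`12 θe₂ = e₂² - e₄`) and `theta_xx` (`12 v θx = 2x (v e₂ - (3-2v) x)`), the bracket is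
`v x (e₂² - e₄) - 2 x e₂ (v e₂ - (3-2v) x) + v x e₂² + x³ - (6-4v) x² e₂ = x (x² - v e₄) = 0`
(`v_mul_e4`).  So `x³ Π ≡ 0` and `Π ≡ 0`.
-/

set_option autoImplicit false

open PowerSeries Finset MP0f16e1

namespace Pool.Agent.Work.MP_b73316_nt

open Polynomial in
/-- `v = 1 - 1728 X` -/
noncomputable def vP (R : Type) [CommRing R] : Polynomial R := 1 - 1728 * Polynomial.X

open Polynomial in
/-- `U = 6 v X (a' b - a b') + (3 - 2 v) a b` -/
noncomputable def Upol {R : Type} [CommRing R] (a b : Polynomial R) : Polynomial R :=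
  6 * vP R * Polynomial.X * (derivative a * b - a * derivative b) + (3 - 2 * vP R) * (a * b)

/-- `Z = v a b` -/
noncomputable def Zpol {R : Type} [CommRing R] (a b : Polynomial R) : Polynomial R :=
  vP R * (a * b)

open Polynomial in
/-- `Π = 12 v X (U' Z - U Z') + v U² + Z² - (6 - 4 v) U Z` -/
noncomputable def Ppol {R : Type} [CommRing R] (a b : Polynomial R) : Polynomial R :=
  12 * vP R * Polynomial.X * (derivative (Upol a b) * Zpol a b - Upol a b * derivative (Zpol a b)) +
    vP R * Upol a b ^ 2 + Zpol a b ^ 2 - (6 - 4 * vP R) * (Upol a b * Zpol a b)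

private theorem ZrB_theta_C {R : Type} [CommRing R] (c : R) :
    theta R (algebraMap R (PowerSeries R) c) = 0 := by
  ext k
  have : algebraMap R (PowerSeries R) c = C c := rfl
  rw [this]
  simp only [theta, LinearMap.coe_mk, AddHom.coe_mk, PowerSeries.coeff_mk, coeff_C, map_zero]
  split_ifs with h
  · simp [h]
  · simp

private theorem ZrB_theta_pow {R : Type} [CommRing R] (t : PowerSeries R) (n : ℕ) :
    theta R (t ^ n) = (n : PowerSeries R) * t ^ (n - 1) * theta R t := by
  induction n with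
  | zero =>
    have h := ZrB_theta_C (R := R) 1
    rw [map_one] at h
    simp [h]
  | succ n ih =>
    rw [pow_succ, theta_mul, ih]
    rcases Nat.eq_zero_or_pos n with h0 | h0
    · subst h0
      simp
    · obtain ⟨m, rfl⟩ : ∃ m, n = m + 1 := ⟨n - 1, by omega⟩
      simp only [Nat.add_sub_cancel]
      push_cast
      ring

private theorem ZrB_theta_aeval {R : Type} [CommRing R] (t : PowerSeries R)
    (c : Polynomial R) : theta R (Polynomial.aeval t c) =
      Polynomial.aeval t (Polynomial.derivative c) * theta R t := by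
  induction c using Polynomial.induction_on' with
  | add p q hp hq => simp only [map_add, hp, hq, add_mul]
  | monomial n c =>
    rw [Polynomial.derivative_monomial, Polynomial.aeval_monomial, Polynomial.aeval_monomial,
      theta_mul, ZrB_theta_C, ZrB_theta_pow, map_mul, map_natCast]
    ring

private theorem ZrB_theta_dvd {R : Type} [CommRing R] (f : PowerSeries R) (n : ℕ)
    (h : (X : PowerSeries R) ^ n ∣ f) : (X : PowerSeries R) ^ n ∣ theta R f := by
  rw [X_pow_dvd_iff] at h ⊢
  intro k hk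
  simp [theta, h k hk]

private theorem ZrB_unit {R : Type} [CommRing R] (x f : PowerSeries R) (n : ℕ)
    (hx : IsUnit x) (h : (X : PowerSeries R) ^ n ∣ x * f) : (X : PowerSeries R) ^ n ∣ f := by
  obtain ⟨u, rfl⟩ := hx
  have := h.mul_left (↑u⁻¹ : PowerSeries R)
  rwa [← mul_assoc, Units.inv_mul, one_mul] at this

private theorem ZrB_core {R : Type} [CommRing R] (t x e₂ e₄ : PowerSeries R) (hx : IsUnit x)
    (h1 : theta R t = t * x)
    (h2 : 6 * (1 - 1728 * t) * theta R x =
      x * ((1 - 1728 * t) * e₂ - (3 - 2 * (1 - 1728 * t)) * x))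
    (h3 : 12 * theta R e₂ = e₂ ^ 2 - e₄) (h4 : (1 - 1728 * t) * e₄ = x ^ 2)
    (a b : Polynomial R) (n : ℕ)
    (h : (X : PowerSeries R) ^ n ∣ Polynomial.aeval t a + x * Polynomial.aeval t b) :
    (X : PowerSeries R) ^ n ∣ Polynomial.aeval t (Ppol a b) := by
  set A := Polynomial.aeval t a with hA
  set B := Polynomial.aeval t b with hB
  set A' := Polynomial.aeval t (Polynomial.derivative a) with hA'
  set B' := Polynomial.aeval t (Polynomial.derivative b) with hB'
  set U := Polynomial.aeval t (Upol a b) with hU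
  set Z := Polynomial.aeval t (Zpol a b) with hZ
  set U' := Polynomial.aeval t (Polynomial.derivative (Upol a b)) with hU'
  set Z' := Polynomial.aeval t (Polynomial.derivative (Zpol a b)) with hZ'
  have hUe : U = 6 * (1 - 1728 * t) * t * (A' * B - A * B') +
      (3 - 2 * (1 - 1728 * t)) * (A * B) := by
    simp only [hU, Upol, vP, map_add, map_mul, map_sub, map_ofNat, map_one, Polynomial.aeval_X,
      ← hA, ← hB, ← hA', ← hB']
  have hZe : Z = (1 - 1728 * t) * (A * B) := by
    simp only [hZ, Zpol, vP, map_mul, map_sub, map_ofNat, map_one, Polynomial.aeval_X,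
      ← hA, ← hB]
  have hPe : Polynomial.aeval t (Ppol a b) = 12 * (1 - 1728 * t) * t * (U' * Z - U * Z') +
      (1 - 1728 * t) * U ^ 2 + Z ^ 2 - (6 - 4 * (1 - 1728 * t)) * (U * Z) := by
    simp only [Ppol, vP, map_add, map_mul, map_sub, map_ofNat, map_one, Polynomial.aeval_X,
      map_pow, ← hU, ← hZ, ← hU', ← hZ']
  have hθA : theta R A = A' * (t * x) := by rw [hA, ZrB_theta_aeval, h1]
  have hθB : theta R B = B' * (t * x) := by rw [hB, ZrB_theta_aeval, h1]
  have hθU : theta R U = U' * (t * x) := by rw [hU, ZrB_theta_aeval, h1]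
  have hθZ : theta R Z = Z' * (t * x) := by rw [hZ, ZrB_theta_aeval, h1]
  generalize hv : (1 - 1728 * t : PowerSeries R) = v at *
  generalize hθx : theta R x = y at *
  generalize hθe : theta R e₂ = z at *
  -- step 1
  have s1 := ZrB_theta_dvd _ n h
  rw [map_add, theta_mul, hθA, hθB, hθx] at s1
  -- step 2
  have s2 : (X : PowerSeries R) ^ n ∣ 6 * v * t * (A' * B - A * B') +
      (v * e₂ - (3 - 2 * v) * x) * B ^ 2 := by
    refine ZrB_unit x _ n hx ?_
    have e : x * (6 * v * t * (A' * B - A * B') + (v * e₂ - (3 - 2 * v) * x) * B ^ 2) =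
        (6 * v * B) * (A' * (t * x) + (y * B + x * (B' * (t * x)))) -
          (6 * v * x * t * B') * (A + x * B) := by
      linear_combination (-B ^ 2) * h2
    rw [e]
    exact dvd_sub (s1.mul_left _) (h.mul_left _)
  have s3 : (X : PowerSeries R) ^ n ∣ U + v * e₂ * B ^ 2 := by
    have e : U + v * e₂ * B ^ 2 = (6 * v * t * (A' * B - A * B') +
      (v * e₂ - (3 - 2 * v) * x) * B ^ 2) + ((3 - 2 * v) * B) * (A + x * B) := by
      linear_combination hUe
    rw [e]
    exact dvd_add s2 (h.mul_left _)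
  have s4 : (X : PowerSeries R) ^ n ∣ x * U - e₂ * Z := by
    have e : x * U - e₂ * Z = x * (U + v * e₂ * B ^ 2) - (e₂ * v * B) * (A + x * B) := by
      linear_combination (-e₂) * hZe
    rw [e]
    exact dvd_sub (s3.mul_left _) (h.mul_left _)
  have s5 := ZrB_theta_dvd _ n s4
  rw [map_sub, theta_mul, theta_mul, hθU, hθZ, hθx, hθe] at s5
  have s6 : (X : PowerSeries R) ^ n ∣ x ^ 3 * Polynomial.aeval t (Ppol a b) := by
    have e : x ^ 3 * Polynomial.aeval t (Ppol a b) =
        (12 * v * x * Z) * (y * U + x * (U' * (t * x)) - (z * Z + e₂ * (Z' * (t * x)))) +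
        (-(12 * v * Z * y) - 12 * v * x * (Z' * (t * x)) + x * (v * (x * U + e₂ * Z)) -
          (6 - 4 * v) * x ^ 2 * Z) * (x * U - e₂ * Z) := by
      rw [hPe]
      linear_combination (-2 * e₂ * Z ^ 2) * h2 + (x * v * Z ^ 2) * h3 - x * Z ^ 2 * h4
    rw [e]
    exact dvd_add (s5.mul_left _) (s4.mul_left _)
  exact ZrB_unit _ _ n (hx.pow 3) s6

theorem riccati {R : Type} [CommRing R] (a b : Polynomial R) (n : ℕ)
    (h : ∀ k < n, coeff k (Polynomial.aeval (toR R tt) a +
      toR R xx * Polynomial.aeval (toR R tt) b) = 0) :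
    ∀ k < n, coeff k (Polynomial.aeval (toR R tt) (Ppol a b)) = 0 := by
  have c2 : PowerSeries.map (Int.castRingHom R) 2 = 2 := map_ofNat _ 2
  have c3 : PowerSeries.map (Int.castRingHom R) 3 = 3 := map_ofNat _ 3
  have c6 : PowerSeries.map (Int.castRingHom R) 6 = 6 := map_ofNat _ 6
  have c12 : PowerSeries.map (Int.castRingHom R) 12 = 12 := map_ofNat _ 12
  have c1728 : PowerSeries.map (Int.castRingHom R) 1728 = 1728 := map_ofNat _ 1728
  have hx : IsUnit (toR R xx) := by
    rw [PowerSeries.isUnit_iff_constantCoeff, ← coeff_zero_eq_constantCoeff_apply]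
    simp [toR, xx_coeff_zero]
  have m1 : theta R (toR R tt) = toR R tt * toR R xx := by
    have := congrArg (fun f => f.map (Int.castRingHom R)) theta_tt
    simpa [toR, theta_map] using this
  have m2 : 6 * (1 - 1728 * toR R tt) * theta R (toR R xx) =
      toR R xx * ((1 - 1728 * toR R tt) * toR R e2 -
        (3 - 2 * (1 - 1728 * toR R tt)) * toR R xx) := by
    have := congrArg (fun f => f.map (Int.castRingHom R)) theta_xx
    simp only [map_mul, map_sub, map_one, c2, c3, c6, c1728, theta_map] at this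
    exact this
  have m3 : 12 * theta R (toR R e2) = toR R e2 ^ 2 - toR R e4 := by
    have := congrArg (fun f => f.map (Int.castRingHom R)) ram2
    simp only [map_mul, map_sub, map_pow, c12, theta_map] at this
    exact this
  have m4 : (1 - 1728 * toR R tt) * toR R e4 = toR R xx ^ 2 := by
    have := congrArg (fun f => f.map (Int.castRingHom R)) v_mul_e4
    simp only [map_mul, map_sub, map_one, map_pow, c1728] at this
    exact this
  rw [← X_pow_dvd_iff] at h ⊢
  exact ZrB_core _ _ _ _ hx m1 m2 m3 m4 a b n h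

/-- degree of `Π` -/
theorem Ppol_degree {R : Type} [CommRing R] (a b : Polynomial R) (D : ℕ) (ha : a.natDegree ≤ D)
    (hb : b.natDegree ≤ D) : (Ppol a b).natDegree ≤ 4 * D + 3 := by
  have hv : (vP R).natDegree ≤ 1 := by
    unfold vP
    compute_degree
  have hab : (a * b).natDegree ≤ 2 * D := Polynomial.natDegree_mul_le.trans (by omega)
  have hdX : ∀ (c : Polynomial R) (k : ℕ), c.natDegree ≤ k →
      (Polynomial.X * Polynomial.derivative c).natDegree ≤ k := by
    intro c k hk
    rw [Polynomial.natDegree_le_iff_coeff_eq_zero]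
    intro m hm
    rcases m with _ | m
    · omega
    · rw [Polynomial.coeff_X_mul, Polynomial.coeff_derivative,
        Polynomial.coeff_eq_zero_of_natDegree_lt (by omega), zero_mul]
  have hX1 : (Polynomial.X * Polynomial.derivative a * b).natDegree ≤ 2 * D :=
    Polynomial.natDegree_mul_le.trans (by have := hdX a D ha; omega)
  have hX2 : (a * (Polynomial.X * Polynomial.derivative b)).natDegree ≤ 2 * D :=
    Polynomial.natDegree_mul_le.trans (by have := hdX b D hb; omega)
  have n2 : (2 : Polynomial R).natDegree ≤ 0 := (Polynomial.natDegree_ofNat 2).le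
  have n3 : (3 : Polynomial R).natDegree ≤ 0 := (Polynomial.natDegree_ofNat 3).le
  have n4 : (4 : Polynomial R).natDegree ≤ 0 := (Polynomial.natDegree_ofNat 4).le
  have n6 : (6 : Polynomial R).natDegree ≤ 0 := (Polynomial.natDegree_ofNat 6).le
  have n12 : (12 : Polynomial R).natDegree ≤ 0 := (Polynomial.natDegree_ofNat 12).le
  have hU : (Upol a b).natDegree ≤ 2 * D + 1 := by
    have e : Upol a b = vP R * (6 * (Polynomial.X * Polynomial.derivative a * b -
        a * (Polynomial.X * Polynomial.derivative b))) + (3 - 2 * vP R) * (a * b) := by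
      unfold Upol; ring
    rw [e]
    refine (Polynomial.natDegree_add_le _ _).trans (max_le ?_ ?_)
    · refine Polynomial.natDegree_mul_le.trans ?_
      have : (6 * (Polynomial.X * Polynomial.derivative a * b -
        a * (Polynomial.X * Polynomial.derivative b))).natDegree ≤ 2 * D := by
        refine Polynomial.natDegree_mul_le.trans ?_
        have := (Polynomial.natDegree_sub_le (Polynomial.X * Polynomial.derivative a * b)
          (a * (Polynomial.X * Polynomial.derivative b))).trans (max_le hX1 hX2)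
        omega
      omega
    · refine Polynomial.natDegree_mul_le.trans ?_
      have : (3 - 2 * vP R).natDegree ≤ 1 := by
        refine (Polynomial.natDegree_sub_le _ _).trans (max_le ?_ ?_)
        · omega
        · refine Polynomial.natDegree_mul_le.trans ?_
          omega
      omega
  have hZ : (Zpol a b).natDegree ≤ 2 * D + 1 := by
    unfold Zpol
    refine Polynomial.natDegree_mul_le.trans ?_
    omega
  have hmul : ∀ (c d : Polynomial R) (k l m : ℕ), c.natDegree ≤ k → d.natDegree ≤ l →
      k + l ≤ m → (c * d).natDegree ≤ m := by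
    intro c d k l m hc hd hm
    exact Polynomial.natDegree_mul_le.trans (by omega)
  have e : Ppol a b = vP R * (12 * (Polynomial.X * Polynomial.derivative (Upol a b) * Zpol a b -
      Upol a b * (Polynomial.X * Polynomial.derivative (Zpol a b)))) +
      vP R * (Upol a b * Upol a b) + Zpol a b * Zpol a b -
      (6 - 4 * vP R) * (Upol a b * Zpol a b) := by
    unfold Ppol; ring
  have hU' := hdX _ _ hU
  have hZ' := hdX _ _ hZ
  rw [e]
  refine (Polynomial.natDegree_sub_le _ _).trans (max_le
    ((Polynomial.natDegree_add_le _ _).trans (max_le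
      ((Polynomial.natDegree_add_le _ _).trans (max_le ?_ ?_)) ?_)) ?_)
  · refine hmul _ _ 1 (4 * D + 2) _ hv ?_ (by omega)
    refine hmul _ _ 0 (4 * D + 2) _ n12 ?_ (by omega)
    refine (Polynomial.natDegree_sub_le _ _).trans (max_le ?_ ?_)
    · exact hmul _ _ (2 * D + 1) (2 * D + 1) _ hU' hZ (by omega)
    · exact hmul _ _ (2 * D + 1) (2 * D + 1) _ hU hZ' (by omega)
  · exact hmul _ _ 1 (4 * D + 2) _ hv (hmul _ _ (2 * D + 1) (2 * D + 1) _ hU hU (by omega))
      (by omega)
  · exact hmul _ _ (2 * D + 1) (2 * D + 1) _ hZ hZ (by omega)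
  · refine hmul _ _ 1 (4 * D + 2) _ ?_ (hmul _ _ (2 * D + 1) (2 * D + 1) _ hU hZ (by omega))
      (by omega)
    refine (Polynomial.natDegree_sub_le _ _).trans (max_le ?_ ?_)
    · omega
    · exact hmul _ _ 0 1 _ n4 hv (by omega)

end Pool.Agent.Work.MP_b73316_nt
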